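import Pool.Agent.LibPP83.Defs

/-!
Basic facts on the tasks treated at the cells.
-/

namespace Pool.Agent.LibPP83

open Finset Classical

variable {S T R : Type} {p : Par S T R}

namespace Par

theorem sel_cases (F : Lists S T) (c : ℕ) (J : Finset T) : p.sel F c J = 1 ∨ p.sel F c J = 2 := by
  unfold sel
  split_ifs
  · exact Or.inl rfl
  · exact Or.inr rfl

theorem two_wn (F : Lists S T) (c : ℕ) (J : Finset T) : 2 * (p.wn F c J).card ≤ J.card := by
  by_cases h : 2 * (J.filter fun τ => p.A c 1 ≤ (F c τ).length ∧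
      (F c τ).length < p.A c 2).card ≤ J.card
  · have hs : p.sel F c J = 1 := if_pos h
    unfold wn
    rw [hs]
    exact h
  · have hs : p.sel F c J = 2 := if_neg h
    unfold wn
    rw [hs]
    have hd : Disjoint (J.filter fun τ => p.A c 1 ≤ (F c τ).length ∧ (F c τ).length < p.A c 2)
        (J.filter fun τ => p.A c 2 ≤ (F c τ).length ∧ (F c τ).length < p.A c (2 + 1)) := by
      rw [Finset.disjoint_left]
      intro τ h1 h2
      rw [mem_filter] at h1 h2
      omega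
    have h1 := Finset.card_union_of_disjoint hd
    have h2 := Finset.card_le_card (Finset.union_subset (Finset.filter_subset
      (fun τ => p.A c 1 ≤ (F c τ).length ∧ (F c τ).length < p.A c 2) J) (Finset.filter_subset
      (fun τ => p.A c 2 ≤ (F c τ).length ∧ (F c τ).length < p.A c (2 + 1)) J))
    omega

theorem wn_sub (F : Lists S T) (c : ℕ) (J : Finset T) : p.wn F c J ⊆ J := by
  exact Finset.filter_subset _ _

theorem RS_eq (F : Lists S T) (c : ℕ) : (p.JR F c).2 = (range c).biUnion (p.Rich F) := by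
  induction c with
  | zero => rfl
  | succ c ih =>
    show (p.JR F c).2 ∪ p.ri F c (p.JR F c).1 = _
    rw [ih, Finset.range_add_one, Finset.biUnion_insert, Finset.union_comm]
    rfl

theorem Jc_succ (F : Lists S T) (c : ℕ) : p.Jc F (c + 1) =
    p.nextJ (c + 1) (p.wn F c (p.Jc F c)) ((range (c + 1)).biUnion (p.Rich F)) := by
  have h1 := RS_eq (p := p) F (c + 1)
  have h2 : (p.JR F (c + 1)).2 = (p.JR F c).2 ∪ p.ri F c (p.JR F c).1 := rfl
  rw [h2] at h1
  rw [← h1]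
  rfl

theorem Jc_zero (F : Lists S T) {c : ℕ} (hc : p.typ c = 0) (hq : c ≤ p.bp p.q) :
    p.Jc F c = p.tl (p.lv c) \ (range c).biUnion (p.Rich F) := by
  cases c with
  | zero =>
    show p.nextJ 0 ∅ ∅ = _
    unfold nextJ
    rw [if_neg (by omega), if_pos hc]
    rfl
  | succ c =>
    rw [Jc_succ]
    unfold nextJ
    rw [if_neg (by omega), if_pos hc]

theorem Jc_sub (h : p.Ok) (F : Lists S T) (c : ℕ) : p.Jc F c ⊆ p.tl (p.lv c) := by
  induction c with
  | zero =>
    show p.nextJ 0 ∅ ∅ ⊆ _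
    unfold nextJ
    split_ifs
    · exact Finset.empty_subset _
    · exact Finset.sdiff_subset
    · exact Finset.empty_subset _
    · exact Finset.empty_subset _
  | succ c ih =>
    rw [Jc_succ]
    unfold nextJ
    split_ifs with h1 h2 h3
    · exact Finset.empty_subset _
    · exact Finset.sdiff_subset
    · rw [← (h.typ_one c h3).1]
      exact (wn_sub F c _).trans ih
    · exact Finset.empty_subset _

theorem Jc_le (F : Lists S T) {c : ℕ} {τ : T} (hτ : τ ∈ p.Jc F c) :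
    c ≤ p.bp p.q ∧ p.typ c ≠ 2 := by
  obtain ⟨W, RS, hJ⟩ : ∃ W RS, p.Jc F c = p.nextJ c W RS := by
    cases c with
    | zero => exact ⟨∅, ∅, rfl⟩
    | succ c => exact ⟨_, _, Jc_succ F c⟩
  rw [hJ] at hτ
  unfold nextJ at hτ
  split_ifs at hτ with h1 h2 h3
  · exact absurd hτ (Finset.notMem_empty _)
  · exact ⟨by omega, by omega⟩
  · exact ⟨by omega, by omega⟩
  · exact absurd hτ (Finset.notMem_empty _)

theorem Jc_facts (h : p.Ok) (F : Lists S T) {c : ℕ} {τ : T} (hτ : τ ∈ p.Jc F c) :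
    τ ∈ p.tasks ∧ p.lev τ = p.lv c ∧ p.n ≤ p.lv c ∧ p.lv c ≤ p.q ∧ p.kd c ≤ p.J := by
  have h1 := Jc_sub h F c hτ
  unfold tl at h1
  rw [mem_filter] at h1
  have h2 := h.hlev τ h1.1
  rw [h1.2] at h2
  exact ⟨h1.1, h1.2, h2.1, h2.2, h.kd_le c (Jc_le F hτ).2⟩

theorem Rich_sub (F : Lists S T) (c : ℕ) : p.Rich F c ⊆ p.Jc F c := by
  exact Finset.filter_subset _ _

theorem Dead_sub (F : Lists S T) (c : ℕ) : p.Dead F c ⊆ p.Jc F c := by
  exact Finset.filter_subset _ _

theorem three_cases (F : Lists S T) {c : ℕ} {τ : T} (hτ : τ ∈ p.Jc F c) :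
    τ ∈ p.Dead F c ∨ τ ∈ p.wn F c (p.Jc F c) ∨ τ ∈ p.Rich F c := by
  unfold Dead wn Rich de ri
  rw [mem_filter, mem_filter, mem_filter]
  by_cases h1 : (F c τ).length < p.A c (p.sel F c (p.Jc F c))
  · exact Or.inl ⟨hτ, h1⟩
  · by_cases h2 : p.A c (p.sel F c (p.Jc F c) + 1) ≤ (F c τ).length
    · exact Or.inr (Or.inr ⟨hτ, h2⟩)
    · exact Or.inr (Or.inl ⟨hτ, by omega, by omega⟩)

theorem K_bounds (h : p.Ok) (F : Lists S T) (c : ℕ) :
    p.A c 1 ≤ p.K F c ∧ p.K F c ≤ p.A c 3 ∧ 0 < p.K F c := by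
  unfold K
  have h1 := h.A_le c
  have h2 := h.A_pos c
  rcases sel_cases (p := p) F c (p.Jc F c) with hs | hs
  · rw [hs]
    show p.A c 1 ≤ p.A c 2 ∧ p.A c 2 ≤ p.A c 3 ∧ 0 < p.A c 2
    omega
  · rw [hs]
    show p.A c 1 ≤ p.A c 3 ∧ p.A c 3 ≤ p.A c 3 ∧ 0 < p.A c 3
    omega

theorem Rich_len (F : Lists S T) {c : ℕ} {τ : T} (hτ : τ ∈ p.Rich F c) :
    p.K F c ≤ (F c τ).length := by
  exact (mem_filter.mp hτ).2

theorem Dead_len (h : p.Ok) (F : Lists S T) {c : ℕ} {τ : T} (hτ : τ ∈ p.Dead F c) :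
    (F c τ).length < p.A c (p.sel F c (p.Jc F c)) ∧ (F c τ).length < p.A c 3 := by
  have h1 := (mem_filter.mp hτ).2
  have h2 := h.A_le c
  refine ⟨h1, ?_⟩
  rcases sel_cases (p := p) F c (p.Jc F c) with hs | hs
  · rw [hs] at h1
    omega
  · rw [hs] at h1
    omega

end Par

end Pool.Agent.LibPP83
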