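import Mathlib

/-!
The cells.
-/

namespace Pool.Agent.LibPP83

open Finset

/-- Number of cells of level `i`. -/
def bs (J i : ℕ) : ℕ := (J + 1) * (2 * i + 2) + 1

/-- Number of cells of the levels below `i`. -/
def off (J i : ℕ) : ℕ := ∑ l ∈ range i, bs J l

/-- The level of a cell. -/
noncomputable def lvc (J c : ℕ) : ℕ := sInf {i | c < off J (i + 1)}

/-- Position of a cell among those of its level. -/
noncomputable def rel (J c : ℕ) : ℕ := c - off J (lvc J c)

/-- The kind of a cell. -/
noncomputable def kdc (J c : ℕ) : ℕ := rel J c / (2 * lvc J c + 2)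

/-- The type of a cell. -/
noncomputable def typc (J c : ℕ) : ℕ :=
  if rel J c = (J + 1) * (2 * lvc J c + 2) then 2 else
  if rel J c % (2 * lvc J c + 2) = 0 then 0 else 1

theorem off_succ (J i : ℕ) : off J (i + 1) = off J i + bs J i := by
  unfold off
  rw [Finset.sum_range_succ]

theorem off_mono (J : ℕ) : Monotone (off J) := by
  refine monotone_nat_of_le_succ fun i => ?_
  rw [off_succ]
  exact Nat.le_add_right _ _

theorem bs_pos (J i : ℕ) : 1 ≤ bs J i := by
  unfold bs
  omega

theorem le_off (J i : ℕ) : i ≤ off J i := by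
  induction i with
  | zero => exact Nat.zero_le _
  | succ i ih =>
    rw [off_succ]
    have := bs_pos J i
    omega

theorem off_succ_pos (J i : ℕ) : 1 ≤ off J (i + 1) := by
  have := le_off J (i + 1)
  omega

theorem off_zero (J : ℕ) : off J 0 = 0 := by
  unfold off
  rw [Finset.range_zero, Finset.sum_empty]

/-- Position of the level of a cell. -/
theorem lvc_spec (J c : ℕ) : off J (lvc J c) ≤ c ∧ c < off J (lvc J c + 1) := by
  have hne : ({i | c < off J (i + 1)} : Set ℕ).Nonempty := by
    refine ⟨c, ?_⟩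
    have := le_off J (c + 1)
    show c < off J (c + 1)
    omega
  refine ⟨?_, Nat.sInf_mem hne⟩
  by_contra hlt
  push Not at hlt
  rcases Nat.eq_zero_or_pos (lvc J c) with h0 | h0
  · rw [h0, off_zero] at hlt
    omega
  · have hm : lvc J c - 1 ∈ ({i | c < off J (i + 1)} : Set ℕ) := by
      show c < off J (lvc J c - 1 + 1)
      rw [Nat.sub_add_cancel h0]
      exact hlt
    have hle : lvc J c ≤ lvc J c - 1 := Nat.sInf_le hm
    omega

theorem lvc_unique {J c i : ℕ} (h1 : off J i ≤ c) (h2 : c < off J (i + 1)) : lvc J c = i := by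
  have hs := lvc_spec J c
  rcases lt_trichotomy (lvc J c) i with h | h | h
  · have := off_mono J (show lvc J c + 1 ≤ i by omega)
    omega
  · exact h
  · have := off_mono J (show i + 1 ≤ lvc J c by omega)
    omega

theorem lvc_le {J c j : ℕ} : lvc J c ≤ j ↔ c ≤ off J (j + 1) - 1 := by
  have hs := lvc_spec J c
  have hp := off_succ_pos J j
  constructor
  · intro h
    have := off_mono J (show lvc J c + 1 ≤ j + 1 by omega)
    omega
  · intro h
    by_contra hlt
    push Not at hlt
    have := off_mono J (show j + 1 ≤ lvc J c by omega)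
    omega

theorem lvc_bp (J j : ℕ) : lvc J (off J (j + 1) - 1) = j := by
  have hp := bs_pos J j
  have hs := off_succ J j
  exact lvc_unique (by omega) (by omega)

theorem rel_lt (J c : ℕ) : rel J c ≤ (J + 1) * (2 * lvc J c + 2) := by
  have hs := lvc_spec J c
  have h1 := off_succ J (lvc J c)
  unfold rel
  unfold bs at h1
  omega

theorem off_add_rel (J c : ℕ) : off J (lvc J c) + rel J c = c := by
  have hs := lvc_spec J c
  unfold rel
  omega

theorem typc_bp (J j : ℕ) : typc J (off J (j + 1) - 1) = 2 := by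
  have h1 := off_succ J j
  have hr : rel J (off J (j + 1) - 1) = (J + 1) * (2 * lvc J (off J (j + 1) - 1) + 2) := by
    unfold rel
    rw [lvc_bp, h1]
    unfold bs
    omega
  unfold typc
  rw [if_pos hr]

theorem typc_two {J c : ℕ} (h : typc J c = 2) : c = off J (lvc J c + 1) - 1 := by
  have h1 := off_succ J (lvc J c)
  have h2 := off_add_rel J c
  by_cases hr : rel J c = (J + 1) * (2 * lvc J c + 2)
  · unfold bs at h1
    omega
  · exfalso
    unfold typc at h
    rw [if_neg hr] at h
    by_cases hm : rel J c % (2 * lvc J c + 2) = 0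
    · rw [if_pos hm] at h
      omega
    · rw [if_neg hm] at h
      omega

theorem typc_one {J c : ℕ} (h : typc J (c + 1) = 1) :
    lvc J c = lvc J (c + 1) ∧ kdc J c = kdc J (c + 1) ∧ typc J c ≠ 2 := by
  have hne : rel J (c + 1) ≠ (J + 1) * (2 * lvc J (c + 1) + 2) := by
    intro hr
    unfold typc at h
    rw [if_pos hr] at h
    omega
  have hmod : rel J (c + 1) % (2 * lvc J (c + 1) + 2) ≠ 0 := by
    intro hm
    unfold typc at h
    rw [if_neg hne, if_pos hm] at h
    omega
  have hpos : 1 ≤ rel J (c + 1) := by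
    rcases Nat.eq_zero_or_pos (rel J (c + 1)) with h0 | h0
    · exfalso
      apply hmod
      rw [h0, Nat.zero_mod]
    · exact h0
  have hadd := off_add_rel J (c + 1)
  have hs := lvc_spec J (c + 1)
  have hl : lvc J c = lvc J (c + 1) := lvc_unique (by omega) (by omega)
  have hrel : rel J (c + 1) = rel J c + 1 := by
    have h3 := off_add_rel J c
    rw [hl] at h3
    omega
  have hle := rel_lt J (c + 1)
  refine ⟨hl, ?_, ?_⟩
  · unfold kdc
    rw [hl, hrel]
    rw [hrel] at hmod
    have hnd : ¬ (2 * lvc J (c + 1) + 2) ∣ rel J c + 1 := fun hd =>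
      hmod (Nat.mod_eq_zero_of_dvd hd)
    rw [Nat.succ_div, if_neg hnd]
    exact (Nat.add_zero _).symm
  · intro h2
    have h4 := typc_two h2
    rw [hl] at h4
    omega

theorem typc_zero (J : ℕ) : typc J 0 ≠ 1 := by
  have hr : rel J 0 = 0 := by
    unfold rel
    omega
  intro h
  unfold typc at h
  rw [hr] at h
  have hne : (0 : ℕ) ≠ (J + 1) * (2 * lvc J 0 + 2) := by
    have : 0 < (J + 1) * (2 * lvc J 0 + 2) := Nat.mul_pos (by omega) (by omega)
    omega
  rw [if_neg hne, if_pos (Nat.zero_mod _)] at h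
  omega

theorem kdc_le {J c : ℕ} (h : typc J c ≠ 2) : kdc J c ≤ J := by
  have hne : rel J c ≠ (J + 1) * (2 * lvc J c + 2) := by
    intro hr
    apply h
    unfold typc
    rw [if_pos hr]
  have hle := rel_lt J c
  have hlt : rel J c < (J + 1) * (2 * lvc J c + 2) := lt_of_le_of_ne hle hne
  unfold kdc
  have := Nat.div_lt_of_lt_mul (m := rel J c) (n := 2 * lvc J c + 2) (k := J + 1)
    (by rw [Nat.mul_comm]; exact hlt)
  omega

theorem lvc_at {J i x : ℕ} (hx : x ≤ (J + 1) * (2 * i + 2)) : lvc J (off J i + x) = i := by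
  have h1 := off_succ J i
  unfold bs at h1
  exact lvc_unique (by omega) (by omega)

theorem rel_at {J i x : ℕ} (hx : x ≤ (J + 1) * (2 * i + 2)) : rel J (off J i + x) = x := by
  unfold rel
  rw [lvc_at hx]
  omega

theorem runs (J i κ : ℕ) (hκ : κ ≤ J) : ∃ c0, typc J c0 = 0 ∧
    (∀ d < 2 * i + 2, lvc J (c0 + d) = i ∧ kdc J (c0 + d) = κ ∧
      (0 < d → typc J (c0 + d) = 1)) ∧
    ∀ c < c0, lvc J c = i → kdc J c < κ := by
  have hb : κ * (2 * i + 2) + (2 * i + 2) ≤ (J + 1) * (2 * i + 2) := by
    have : (κ + 1) * (2 * i + 2) ≤ (J + 1) * (2 * i + 2) := Nat.mul_le_mul_right _ (by omega)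
    rw [Nat.add_mul, Nat.one_mul] at this
    exact this
  refine ⟨off J i + κ * (2 * i + 2), ?_, ?_, ?_⟩
  · unfold typc
    rw [rel_at (by omega), lvc_at (by omega), if_neg (by omega), Nat.mul_mod_left, if_pos rfl]
  · intro d hd
    have hle : κ * (2 * i + 2) + d ≤ (J + 1) * (2 * i + 2) := by omega
    rw [Nat.add_assoc]
    refine ⟨lvc_at hle, ?_, ?_⟩
    · unfold kdc
      rw [rel_at hle, lvc_at hle, Nat.add_comm, Nat.add_mul_div_right _ _ (by omega),
        Nat.div_eq_of_lt hd, Nat.zero_add]
    · intro h0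
      unfold typc
      rw [rel_at hle, lvc_at hle, if_neg (by omega), Nat.add_comm, Nat.add_mul_mod_self_right,
        Nat.mod_eq_of_lt hd, if_neg (by omega)]
  · intro c hc hl
    have h1 := off_add_rel J c
    rw [hl] at h1
    unfold kdc
    rw [hl]
    refine Nat.div_lt_of_lt_mul ?_
    rw [Nat.mul_comm]
    omega

end Pool.Agent.LibPP83
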