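import Pool.Agent.LibPP83.Fin
import Pool.Agent.LibNexp55.Main
import Pool.Agent.LibQry85.Main

/-!
Consequences.
-/

namespace Pool.Agent.LibPP83

open Finset Filter Pool.Agent.LibNexp Pool.Agent.LibBHN Pool.Agent.LibNexp55 Pool.Agent.LibQry85
  Pool.Agent.LibDual85

variable {O : List Bool → Bool}

theorem in_ppoly (h : ∀ L ∈ NEXPLang O, ∃ (c : ℕ) (f : ℕ → Str),
    (∀ n, (f n).length ≤ n ^ c + c) ∧
      ∀ x, x ∈ L ↔ O (false :: pair (pair x (f x.length)) []) = true) :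
    ∀ L ∈ NEXPLang O, ∃ c : ℕ, L ∈ WithAdvice (POracle {{s | O s = true}})
      {f | ∀ n, (f n).length ≤ n ^ c + c} := by
  intro L hL
  obtain ⟨c, f, hf, hx⟩ := h L hL
  refine ⟨c, _, one_query O, f, hf, ?_⟩
  ext x
  exact hx x

/-- Every advice short at infinitely many lengths is wrong. -/
theorem no_advice {k : ℕ} (h : ∀ B ∈ NEXPLang O, ∃ᶠ n in atTop, ∀ v : Str,
    2 ^ v.length ≤ (n + 1) ^ k →
      ∃ x : Str, x.length = n ∧ ¬ (x ∉ WitLang O ↔ pair x v ∈ B)) {ℱ : Set (ℕ → Str)}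
    (hℱ : ∀ f ∈ ℱ, ∀ᶠ n in atTop, 2 ^ (f n).length ≤ (n + 1) ^ k) :
    (WitLang O)ᶜ ∉ WithAdvice (NEXPLang O) ℱ := by
  rintro ⟨B, hB, f, hf, he⟩
  obtain ⟨n, hn, hC⟩ := ((h B hB).and_eventually (hℱ f hf)).exists
  obtain ⟨x, hx, hne⟩ := hn (f n) hC
  refine hne ?_
  have := Set.ext_iff.1 he x
  rw [Set.mem_compl_iff, Set.mem_ofPred_eq, hx] at this
  exact this

theorem bh_infinite {k : ℕ} (hk : 1 ≤ k) (h : ∀ B ∈ NEXPLang O, ∃ᶠ n in atTop, ∀ v : Str,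
    2 ^ v.length ≤ (n + 1) ^ k →
      ∃ x : Str, x.length = n ∧ ¬ (x ∉ WitLang O ↔ pair x v ∈ B)) {m : ℕ} (hm : 1 ≤ m) :
    BH O m ≠ BH O (m + 1) := by
  intro hbh
  have h1 := (levels O hm).out 1 4
  refine no_advice h (fun f hf => ?_) (h1.1 hbh.symm (strs m) (by
    rw [card_strs]; exact Nat.lt_two_pow_self.le) (WitLang O) witLang_mem')
  filter_upwards [eventually_ge_atTop (2 ^ m)] with n hn
  rw [mem_strs.1 (hf n)]
  exact le_trans (by omega) (Nat.le_self_pow (by omega) (n + 1))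

theorem log_eventually (C k c : ℕ) (hC : C < k) : ∀ᶠ n : ℕ in atTop, ∀ l : ℕ,
    l ≤ C * Nat.log 2 (n + 1) + c → 2 ^ l ≤ (n + 1) ^ k := by
  filter_upwards [eventually_ge_atTop (2 ^ c)] with n hn l hl
  calc 2 ^ l ≤ 2 ^ (C * Nat.log 2 (n + 1) + c) := Nat.pow_le_pow_right (by norm_num) hl
    _ = (2 ^ Nat.log 2 (n + 1)) ^ C * 2 ^ c := by rw [pow_add, mul_comm C, pow_mul]
    _ ≤ (n + 1) ^ C * (n + 1) := Nat.mul_le_mul
        (Nat.pow_le_pow_left (Nat.pow_log_le_self 2 (by omega)) C) (by omega)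
    _ = (n + 1) ^ (C + 1) := (pow_succ _ _).symm
    _ ≤ (n + 1) ^ k := Nat.pow_le_pow_right (by omega) hC

/-- The seven conditions of `LibQry85.main` fail. -/
theorem log_fail {k : ℕ} (hk : 2 ≤ k) (h : ∀ B ∈ NEXPLang O, ∃ᶠ n in atTop, ∀ v : Str,
    2 ^ v.length ≤ (n + 1) ^ k →
      ∃ x : Str, x.length = n ∧ ¬ (x ∉ WitLang O ↔ pair x v ∈ B)) :
    (∀ C : ℕ, ∃ L ∈ NEXPLang O, ∀ c : ℕ, Lᶜ ∉ WithAdvice (NEXPLang O)
        {f | ∀ n, (f n).length ≤ C * Nat.log 2 (n + 1) + c}) ∧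
      ∀ C : ℕ, ∃ L ∈ POracle (NEXPLang O), ∀ c : ℕ,
        L ∉ PQueryF (NEXPLang O) fun n => C * Nat.log 2 (n + 1) + c := by
  have h1 := LibQry85.main O
  have h6 : ¬ ∀ N : ℕ, 1 ≤ N → ∀ L ∈ NEXPLang O, ∃ c : ℕ, Lᶜ ∈ WithAdvice (NEXPLang O)
      {f | ∀ n, (f n).length ≤ Nat.log 2 (n + 1) / N + c} := by
    intro h2
    obtain ⟨c, hc⟩ := h2 1 le_rfl (WitLang O) witLang_mem'
    refine no_advice h (fun f hf => ?_) hc
    filter_upwards [log_eventually 1 k c (by omega)] with n hn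
    refine hn _ ?_
    have := hf n
    rw [Nat.div_one] at this
    omega
  refine ⟨?_, ?_⟩
  · by_contra hcon
    push Not at hcon
    have h56 := h1.out 5 6
    exact h6 (h56.1 hcon)
  · by_contra hcon
    push Not at hcon
    have h36 := h1.out 3 6
    exact h6 (h36.1 hcon)

end Pool.Agent.LibPP83
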