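import Pool.Agent.LibPP83.Step2

/-!
Tasks which are not rich are dead, and all their terms meet the zeroed strings.
-/

namespace Pool.Agent.LibPP83

open Finset Classical

variable {S T R : Type} {p : Par S T R}

namespace Par

/-- The undecided tasks of a run are halved at each cell. -/
theorem deadl_step (F : Lists S T) {c : ℕ} (hq : c + 1 ≤ p.bp p.q) (ht : p.typ (c + 1) = 1) :
    p.Jc F (c + 1) = p.wn F c (p.Jc F c) := by
  rw [Jc_succ]
  unfold nextJ
  rw [if_neg (by omega), if_neg (by omega), if_pos ht]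

theorem deadl_step_sub (F : Lists S T) {c : ℕ} (ht : p.typ (c + 1) = 1) :
    p.Jc F (c + 1) ⊆ p.wn F c (p.Jc F c) := by
  by_cases hq : c + 1 ≤ p.bp p.q
  · rw [deadl_step F hq ht]
  · rw [Jc_succ]
    unfold nextJ
    rw [if_pos (by omega)]
    exact Finset.empty_subset _

theorem run_card (h : p.Ok) (F : Lists S T) {i κ c0 : ℕ} (hi : p.n ≤ i) (hq : i ≤ p.q)
    (h0 : p.typ c0 = 0) (hrun : ∀ d < p.dep i, p.lv (c0 + d) = i ∧ p.kd (c0 + d) = κ ∧
      (0 < d → p.typ (c0 + d) = 1)) {d : ℕ} (hd : d < p.dep i) :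
    2 ^ d * (p.Jc F (c0 + d)).card ≤ p.nt i := by
  induction d with
  | zero =>
    have h1 := Jc_sub h F (c0 + 0)
    rw [(hrun 0 hd).1] at h1
    rw [pow_zero, one_mul]
    exact (Finset.card_le_card h1).trans (h.hnt i)
  | succ d ih =>
    have h1 := ih (by omega)
    have h2 : p.typ (c0 + d + 1) = 1 := (hrun (d + 1) hd).2.2 (by omega)
    have h3 := Finset.card_le_card (deadl_step_sub (p := p) F h2)
    have h4 := two_wn (p := p) F (c0 + d) (p.Jc F (c0 + d))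
    calc 2 ^ (d + 1) * (p.Jc F (c0 + (d + 1))).card
        ≤ 2 ^ (d + 1) * (p.wn F (c0 + d) (p.Jc F (c0 + d))).card := Nat.mul_le_mul_left _ h3
      _ = 2 ^ d * (2 * (p.wn F (c0 + d) (p.Jc F (c0 + d))).card) := by ring
      _ ≤ 2 ^ d * (p.Jc F (c0 + d)).card := Nat.mul_le_mul_left _ h4
      _ ≤ p.nt i := h1

theorem exists_dead (h : p.Ok) (F : Lists S T) {τ : T} (hτ : τ ∈ p.tasks) {κ : ℕ}
    (hκ : κ ≤ p.J) (hc : ¬ p.cont F κ τ) :
    ∃ c, p.lv c = p.lev τ ∧ p.kd c = κ ∧ τ ∈ p.Dead F c := by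
  obtain ⟨hn, hq⟩ := h.hlev τ hτ
  obtain ⟨c0, h0, hrun, hbefore⟩ := h.runs (p.lev τ) κ hn hq hκ
  have htl : τ ∈ p.tl (p.lev τ) := by
    unfold tl
    rw [mem_filter]
    exact ⟨hτ, rfl⟩
  have hcard : 1 ≤ (p.tl (p.lev τ)).card := Finset.card_pos.mpr ⟨τ, htl⟩
  have hnt := h.hnt (p.lev τ)
  have hdep := h.hdep (p.lev τ)
  have hdep1 : 1 ≤ p.dep (p.lev τ) := by
    by_contra hcon
    have h1 : p.dep (p.lev τ) = 0 := by omega
    rw [h1, pow_zero] at hdep
    omega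
  have hnorich : ∀ d < p.dep (p.lev τ), τ ∉ p.Rich F (c0 + d) := by
    intro d hd hr
    apply hc
    refine ⟨c0 + d, ?_, ?_, hr⟩
    · rw [← h.bp_spec, (hrun d hd).1]
    · exact (hrun d hd).2.1.le
  have hbq : ∀ d < p.dep (p.lev τ), c0 + d ≤ p.bp p.q := by
    intro d hd
    rw [← h.bp_spec, (hrun d hd).1]
    exact hq
  have hJ0 : τ ∈ p.Jc F c0 := by
    rw [Jc_zero F h0 (hbq 0 hdep1), Finset.mem_sdiff]
    have h1 := (hrun 0 hdep1).1
    rw [add_zero] at h1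
    rw [h1]
    refine ⟨htl, ?_⟩
    intro hr
    rw [Finset.mem_biUnion] at hr
    obtain ⟨c', hc', hr⟩ := hr
    rw [Finset.mem_range] at hc'
    have h2 := Jc_facts h F (Rich_sub F c' hr)
    apply hc
    refine ⟨c', ?_, ?_, hr⟩
    · rw [← h.bp_spec, ← h2.2.1]
    · exact (hbefore c' hc' h2.2.1.symm).le
  have key : ∀ d < p.dep (p.lev τ), (∃ d' ≤ d, τ ∈ p.Dead F (c0 + d')) ∨
      τ ∈ p.wn F (c0 + d) (p.Jc F (c0 + d)) := by
    intro d
    induction d with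
    | zero =>
      intro hd
      rcases three_cases (p := p) F (c := c0 + 0) hJ0 with h1 | h1 | h1
      · exact Or.inl ⟨0, le_rfl, h1⟩
      · exact Or.inr h1
      · exact absurd h1 (hnorich 0 hd)
    | succ d ih =>
      intro hd
      rcases ih (by omega) with ⟨d', hd', h1⟩ | h1
      · exact Or.inl ⟨d', by omega, h1⟩
      · have h2 : p.typ (c0 + d + 1) = 1 := (hrun (d + 1) hd).2.2 (by omega)
        have h3 : τ ∈ p.Jc F (c0 + d + 1) := by
          rw [deadl_step (c := c0 + d) F (hbq (d + 1) hd) h2]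
          exact h1
        rcases three_cases (p := p) F h3 with h4 | h4 | h4
        · exact Or.inl ⟨d + 1, le_rfl, h4⟩
        · exact Or.inr h4
        · exact absurd h4 (hnorich (d + 1) hd)
  obtain ⟨e, he⟩ : ∃ e, p.dep (p.lev τ) = e + 1 := ⟨p.dep (p.lev τ) - 1, by omega⟩
  rcases key e (by omega) with ⟨d', hd', h1⟩ | h1
  · have h2 := hrun d' (by omega)
    exact ⟨c0 + d', h2.1, h2.2.1, h1⟩
  · exfalso
    have h2 := run_card h F hn hq h0 hrun (d := e) (by omega)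
    have h3 := two_wn (p := p) F (c0 + e) (p.Jc F (c0 + e))
    have h4 : 1 ≤ (p.wn F (c0 + e) (p.Jc F (c0 + e))).card := Finset.card_pos.mpr ⟨τ, h1⟩
    have h5 : 2 ^ e * 2 ≤ 2 ^ e * (p.Jc F (c0 + e)).card := Nat.mul_le_mul_left _ (by omega)
    rw [he, pow_succ] at hdep
    omega

theorem deadl_un_take (k : ℕ) (l : List (Term S)) : p.un (l.take k) ⊆ p.un l := by
  intro z hz
  unfold un at *
  rw [Finset.mem_biUnion] at hz ⊢
  obtain ⟨t, ht, hz⟩ := hz
  rw [List.mem_toFinset] at ht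
  exact ⟨t, List.mem_toFinset.mpr (List.mem_of_mem_take ht), hz⟩

theorem Z_sub_Zf {F : Lists S T} {c : ℕ} (hc : c ≤ p.bp p.q + 1) : p.Z F c ⊆ p.Zf F := by
  unfold Z Zf
  intro z hz
  rw [Finset.mem_biUnion] at hz ⊢
  obtain ⟨c', hc', hz⟩ := hz
  rw [Finset.mem_range] at hc'
  refine ⟨c', Finset.mem_range.mpr (by omega), ?_⟩
  unfold zz at hz
  rw [Finset.mem_union] at hz ⊢
  rcases hz with hz | hz
  · left
    rw [Finset.mem_biUnion] at hz ⊢
    obtain ⟨τ, hτ, hz⟩ := hz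
    exact ⟨τ, hτ, deadl_un_take _ _ hz⟩
  · exact Or.inr hz

theorem dead_hit (h : p.Ok) {s : State S T R} (hmax : ∀ c τ t, ¬ p.Add s c τ t) {τ : T}
    (hτ : τ ∈ p.tasks) {κ : ℕ} (hκ : κ ≤ p.J) (hc : ¬ p.cont s.F κ τ) {t : Term S}
    (ht : t ∈ p.D τ) (hk : p.Kd κ t) (hcon : p.Con s.E t) : ¬ Disjoint (p.PX t) (p.Zf s.F) := by
  obtain ⟨c, -, hkd, hdead⟩ := exists_dead h s.F hτ hκ hc
  intro hdis
  have hJ := Dead_sub (p := p) s.F c hdead
  have hcq := (Jc_le (p := p) s.F hJ).1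
  refine hmax c τ t ⟨hJ, (Dead_len h s.F hdead).2, ht, ?_, hcon, ?_, ?_⟩
  · rw [hkd]
    exact hk
  · exact hdis.mono_right (Z_sub_Zf (by omega))
  · intro t' ht'
    refine hdis.mono_right ?_
    intro z hz
    unfold Zf
    rw [Finset.mem_biUnion]
    refine ⟨c, Finset.mem_range.mpr (by omega), ?_⟩
    rw [Finset.mem_union]
    left
    rw [Finset.mem_biUnion]
    refine ⟨τ, hdead, ?_⟩
    unfold un
    rw [Finset.mem_biUnion]
    exact ⟨t', List.mem_toFinset.mpr ht', hz⟩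

end Par

end Pool.Agent.LibPP83
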