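import Pool.Agent.LibPP83.Step2

/-!
The ranks after a step of the first kind.
-/

namespace Pool.Agent.LibPP83

open Finset Classical

variable {S T R : Type} {p : Par S T R}

namespace Par

theorem Inv.small {s : State S T R} (hs : p.Inv s) : p.Small s.F := ⟨hs.nil, hs.cap⟩

theorem rk_st2_eq (h : p.Ok) {s : State S T R} (hs : p.Inv s) {c : ℕ} {τ : T} {t : Term S}
    (ha : p.Add s c τ t) {j : ℕ} (hj : j ≤ p.q)
    (hc : ¬ (c ≤ p.bp j ∧ p.u j ∣ (s.F c τ).length + 1)) :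
    p.rk (p.st2 s c τ t) j = p.rk s j := by
  have hA : p.Agree s.F (p.st2 s c τ t).F (p.bp j + 1) j := by
    by_cases h1 : c ≤ p.bp j
    · exact step2_agree h s.F c τ t (fun h2 => hc ⟨h1, h2⟩)
    · exact (step2_agree_lt s.F c τ t j).mono (by omega)
  rw [rk_eq, rk_eq]
  apply digits_congr
  intro x hx
  exact (dgt_congr h hj le_rfl hA (fun i _ => rfl) (fun i _ r _ κ _ τ' _ => Iff.rfl)
    (Nat.lt_succ_iff.2 hx)).symm

theorem rk_st2_lt (h : p.Ok) {s : State S T R} (hs : p.Inv s) {c : ℕ} {τ : T} {t : Term S}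
    (ha : p.Add s c τ t) {j : ℕ} (hj : j ≤ p.q) (hc : c ≤ p.bp j)
    (hd : p.u j ∣ (s.F c τ).length + 1) : p.rk s j + 1 ≤ p.rk (p.st2 s c τ t) j := by
  rw [rk_eq, rk_eq]
  apply digits_step (h.hβ1 j) (fun x hx => dgt_lt h hs.small hj hx) hc
  · intro x hx
    have hA : p.Agree s.F (p.st2 s c τ t).F c j := step2_agree_lt s.F c τ t j
    exact dgt_congr h hj (by omega) hA (fun i _ => rfl) (fun i _ r _ κ _ τ' _ => Iff.rfl) hx
  · obtain ⟨-, hty⟩ := Jc_le s.F ha.mem
    obtain ⟨hτ, -⟩ := Jc_facts h s.F ha.mem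
    unfold dgt
    rw [if_neg hty, if_neg hty]
    have hF : ∀ τ', (p.st2 s c τ t).F c τ' = if τ' = τ then s.F c τ ++ [t] else s.F c τ' := by
      intro τ'
      change p.step2 s.F c τ t c τ' = _
      unfold step2
      rw [if_neg (lt_irrefl c), if_pos rfl]
    apply Nat.succ_le_of_lt
    apply Finset.sum_lt_sum
    · intro τ' _
      rw [hF τ']
      by_cases he : τ' = τ
      · rw [if_pos he, he]
        apply Nat.div_le_div_right
        simp
      · rw [if_neg he]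
    · refine ⟨τ, hτ, ?_⟩
      rw [hF τ, if_pos rfl, List.length_append, List.length_singleton, Nat.succ_div, if_pos hd]
      exact Nat.lt_succ_self _

theorem rk_st2_le (h : p.Ok) {s : State S T R} (hs : p.Inv s) {c : ℕ} {τ : T} {t : Term S}
    (ha : p.Add s c τ t) {j : ℕ} (hj : j ≤ p.q) : p.rk s j ≤ p.rk (p.st2 s c τ t) j := by
  by_cases hc : c ≤ p.bp j ∧ p.u j ∣ (s.F c τ).length + 1
  · exact (Nat.le_succ _).trans (rk_st2_lt h hs ha hj hc.1 hc.2)
  · exact (rk_st2_eq h hs ha hj hc).ge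

end Par

end Pool.Agent.LibPP83
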