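import Pool.Agent.LibPP83.ZCard
import Pool.Agent.LibPP83.Step2R

/-!
The families of terms of the rich tasks.
-/

namespace Pool.Agent.LibPP83

open Finset Classical

variable {S T R : Type} {p : Par S T R}

namespace Par

theorem richl_or {α : Type} (l : List α) (P Q : α → Prop) [DecidablePred P] [DecidablePred Q] :
    (l.filter fun t => P t ∨ Q t).length ≤
      (l.filter fun t => P t).length + (l.filter fun t => Q t).length := by
  induction l with
  | nil => exact Nat.zero_le _
  | cons a l ih =>
    rw [List.filter_cons, List.filter_cons, List.filter_cons]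
    by_cases hP : P a
    · rw [if_pos (decide_eq_true (Or.inl hP)), if_pos (decide_eq_true hP)]
      by_cases hQ : Q a
      · rw [if_pos (decide_eq_true hQ)]
        simp only [List.length_cons]
        omega
      · rw [if_neg (by simp [hQ])]
        simp only [List.length_cons]
        omega
    · rw [if_neg (show ¬ (decide (P a) = true) by simp [hP])]
      by_cases hQ : Q a
      · rw [if_pos (decide_eq_true (Or.inr hQ)), if_pos (decide_eq_true hQ)]
        simp only [List.length_cons]
        omega
      · rw [if_neg (show ¬ (decide (P a ∨ Q a) = true) by simp [hP, hQ]),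
          if_neg (show ¬ (decide (Q a) = true) by simp [hQ])]
        exact ih

/-- In a list of terms with pairwise disjoint positive parts, a set of strings meets at most as
many terms as it has elements. -/
theorem card_meets {l : List (Term S)} (hl : l.Pairwise fun t t' => Disjoint (p.PX t) (p.PX t'))
    (X : Finset S) : (l.filter fun t => ¬ Disjoint (p.PX t) X).length ≤ X.card := by
  induction l generalizing X with
  | nil => exact Nat.zero_le _
  | cons t l ih =>
    rw [List.pairwise_cons] at hl
    rw [List.filter_cons]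
    by_cases hd : Disjoint (p.PX t) X
    · rw [if_neg (show ¬ (decide (¬ Disjoint (p.PX t) X) = true) by simp [hd])]
      exact ih hl.2 X
    · rw [if_pos (decide_eq_true hd)]
      obtain ⟨z, hz1, hz2⟩ := Finset.not_disjoint_iff.mp hd
      have h1 : (l.filter fun t' => ¬ Disjoint (p.PX t') X) =
          l.filter fun t' => ¬ Disjoint (p.PX t') (X.erase z) := by
        refine List.filter_congr fun t' ht' => ?_
        rw [decide_eq_decide, not_iff_not]
        constructor
        · intro h2
          exact h2.mono_right (Finset.erase_subset _ _)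
        · intro h2
          rw [Finset.disjoint_left] at h2 ⊢
          intro w hw1 hw2
          refine h2 hw1 (Finset.mem_erase.mpr ⟨?_, hw2⟩)
          rintro rfl
          exact Finset.disjoint_left.mp (hl.1 t' ht') hz1 hw1
      rw [h1, List.length_cons]
      have h2 := ih hl.2 (X.erase z)
      rw [Finset.card_erase_of_mem hz2] at h2
      have h3 : 0 < X.card := Finset.card_pos.mpr ⟨z, hz2⟩
      omega

theorem rich_bad (h : p.Ok) {s : State S T R} (hs : p.Inv s) {c : ℕ} {τ : T}
    (hτ : τ ∈ p.Rich s.F c) :
    4 * (((s.F c τ).take (p.K s.F c)).filter fun t => ¬ p.Con s.E t ∨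
      ¬ Disjoint (p.PX t) (p.Zf s.F)).length ≤ p.K s.F c := by
  have hJ := Rich_sub (p := p) s.F c hτ
  have hcq := (Jc_le (p := p) s.F hJ).1
  obtain ⟨-, -, hn, hq, -⟩ := Jc_facts h s.F hJ
  have hK := K_bounds h s.F c
  have ha : 8 * ((s.F c τ).filter fun t => ¬ p.Con s.E t).length ≤ p.K s.F c := by
    refine (Nat.mul_le_mul_left 8 (hs.live c τ)).trans ?_
    refine le_trans ?_ ((h.loss c hn hq).trans hK.1)
    refine Nat.mul_le_mul_left 8 (Finset.sum_le_sum fun j hj => ?_)
    rw [Finset.mem_Icc] at hj
    exact Nat.mul_le_mul_right _ ((hs.budget j).trans (rk_lt h hs.small hj.2).le)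
  have hb : 8 * ((s.F c τ).filter fun t => ¬ Disjoint (p.PX t) (p.Zf s.F)).length ≤ p.K s.F c := by
    have h1 : ((s.F c τ).filter fun t => ¬ Disjoint (p.PX t) (p.Zf s.F)) =
        (s.F c τ).filter fun t => ¬ Disjoint (p.PX t) (p.Zf s.F \ p.Z s.F c) := by
      refine List.filter_congr fun t ht => ?_
      rw [decide_eq_decide, not_iff_not]
      constructor
      · intro h2
        exact h2.mono_right Finset.sdiff_subset
      · intro h2
        have h3 := (hs.mem c τ t ht).2.2
        rw [Finset.disjoint_left] at h2 h3 ⊢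
        intro w hw1 hw2
        exact h2 hw1 (Finset.mem_sdiff.mpr ⟨hw2, h3 hw1⟩)
    rw [h1]
    refine (Nat.mul_le_mul_left 8 ((card_meets (hs.pw c τ) _).trans (card_diff h hs hcq))).trans ?_
    exact h.zero c hn hq _ (sel_cases (p := p) s.F c (p.Jc s.F c))
  have h1 : (((s.F c τ).take (p.K s.F c)).filter fun t => ¬ p.Con s.E t ∨
      ¬ Disjoint (p.PX t) (p.Zf s.F)).length ≤
      ((s.F c τ).filter fun t => ¬ p.Con s.E t ∨ ¬ Disjoint (p.PX t) (p.Zf s.F)).length :=
    ((List.take_sublist _ _).filter _).length_le
  have h2 := richl_or (s.F c τ) (fun t => ¬ p.Con s.E t)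
    (fun t => ¬ Disjoint (p.PX t) (p.Zf s.F))
  have h3 := h1.trans h2
  omega

theorem rich_pop {s : State S T R} {c : ℕ} {τ : T} (hc : c ≤ p.bp p.q)
    (hτ : τ ∈ p.Rich s.F c) {z : S} (hz : z ∈ p.Free) (hzf : z ∉ p.Zf s.F) :
    p.θ * (((s.F c τ).take (p.K s.F c)).filter fun t => z ∈ t.2).length ≤ p.K s.F c := by
  by_contra hcon
  apply hzf
  unfold Zf
  rw [Finset.mem_biUnion]
  refine ⟨c, Finset.mem_range.mpr (by omega), ?_⟩
  rw [Finset.mem_union]
  right
  rw [Finset.mem_biUnion]
  refine ⟨τ, hτ, ?_⟩
  unfold pop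
  rw [Finset.mem_filter]
  refine ⟨?_, hz, by omega⟩
  have h1 : 0 < (((s.F c τ).take (p.K s.F c)).filter fun t => z ∈ t.2).length := by
    by_contra h0
    have h2 : (((s.F c τ).take (p.K s.F c)).filter fun t => z ∈ t.2).length = 0 := by omega
    rw [h2, mul_zero] at hcon
    omega
  obtain ⟨t, ht⟩ := List.exists_mem_of_length_pos h1
  rw [List.mem_filter] at ht
  rw [Finset.mem_biUnion]
  exact ⟨t, List.mem_toFinset.mpr ht.1, of_decide_eq_true ht.2⟩

end Par

end Pool.Agent.LibPP83
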