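import Pool.Agent.LibPP83.Max
import Pool.Agent.LibPP83.DeadL
import Pool.Agent.LibPP83.RichL

/-!
The construction of a window.
-/

namespace Pool.Agent.LibPP83

open Finset Classical

variable {S T R : Type} {p : Par S T R}

namespace Par

theorem cont_mono {F : Lists S T} {κ κ' : ℕ} {τ : T} (hκ : κ ≤ κ') (hc : p.cont F κ τ) :
    p.cont F κ' τ := by
  obtain ⟨c, h1, h2, h3⟩ := hc
  exact ⟨c, h1, h2.trans hκ, h3⟩

/-- The status of a task. -/
noncomputable def status (p : Par S T R) (F : Lists S T) (τ : T) : ℕ :=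
  if hc : ∃ κ ≤ p.J, p.cont F κ τ then Nat.find hc else p.J + 1

theorem status_le {F : Lists S T} {τ : T} {κ : ℕ} (hκ : κ ≤ p.J) :
    p.status F τ ≤ κ ↔ p.cont F κ τ := by
  unfold status
  by_cases hc : ∃ κ ≤ p.J, p.cont F κ τ
  · rw [dif_pos hc]
    constructor
    · intro h1
      exact cont_mono h1 (Nat.find_spec hc).2
    · intro h1
      exact Nat.find_min' hc ⟨hκ, h1⟩
  · rw [dif_neg hc]
    constructor
    · intro h1
      omega
    · intro h1
      exact absurd ⟨κ, hκ, h1⟩ hc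

theorem Zf_mem (h : p.Ok) {s : State S T R} (hs : p.Inv s) {z : S} (hz : z ∈ p.Zf s.F) :
    z ∈ p.Free ∧ ∃ τ ∈ p.tasks, ∃ t ∈ p.D τ, z ∈ t.1 ∨ z ∈ t.2 := by
  unfold Zf at hz
  obtain ⟨c, _, hc⟩ := Finset.mem_biUnion.1 hz
  rcases Finset.mem_union.1 hc with h1 | h1
  · obtain ⟨τ, hτ, h2⟩ := Finset.mem_biUnion.1 h1
    unfold un at h2
    obtain ⟨t, ht, h3⟩ := Finset.mem_biUnion.1 h2
    unfold PX at h3
    have h4 := Finset.mem_filter.1 h3
    exact ⟨h4.2, τ, (Jc_facts h s.F (Dead_sub s.F c hτ)).1, t,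
      (hs.mem c τ t (List.mem_toFinset.1 ht)).1, Or.inl h4.1⟩
  · obtain ⟨τ, hτ, h2⟩ := Finset.mem_biUnion.1 h1
    unfold pop at h2
    have h3 := Finset.mem_filter.1 h2
    obtain ⟨t, ht, h4⟩ := Finset.mem_biUnion.1 h3.1
    exact ⟨h3.2.1, τ, (Jc_facts h s.F (Rich_sub s.F c hτ)).1, t,
      (hs.mem c τ t (List.mem_of_mem_take (List.mem_toFinset.1 ht))).1, Or.inr h4⟩

theorem core (h : p.Ok) : ∃ (E : Set S) (σ : T → ℕ) (Z : Finset S) (fam : T → List (Term S)),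
    p.Out E σ Z fam := by
  obtain ⟨s, hs, hR, hmax⟩ := exists_max h
  have hex : ∀ τ, ∃ l : List (Term S), p.cont s.F (p.status s.F τ) τ →
      ∃ c, p.kd c ≤ p.status s.F τ ∧ τ ∈ p.Rich s.F c ∧
        l = (s.F c τ).take (p.K s.F c) := by
    intro τ
    by_cases hc : p.cont s.F (p.status s.F τ) τ
    · obtain ⟨c, _, h2, h3⟩ := hc
      exact ⟨_, fun _ => ⟨c, h2, h3, rfl⟩⟩
    · exact ⟨[], fun h1 => absurd h1 hc⟩
  choose fam hfam using hex
  have hf : ∀ τ, p.status s.F τ ≤ p.J → ∃ c, p.kd c ≤ p.status s.F τ ∧ τ ∈ p.Rich s.F c ∧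
      fam τ = (s.F c τ).take (p.K s.F c) := fun τ hτ => hfam τ ((status_le hτ).1 le_rfl)
  have hlen : ∀ {τ c}, τ ∈ p.Rich s.F c →
      ((s.F c τ).take (p.K s.F c)).length = p.K s.F c := by
    intro τ c hτ
    rw [List.length_take]
    exact min_eq_left (Rich_len s.F hτ)
  refine ⟨s.E, p.status s.F, p.Zf s.F, fam, ?_⟩
  refine
    { ones := ?_
      pages := ?_
      zfree := fun z hz => (Zf_mem h hs hz).1
      zterm := fun z hz => (Zf_mem h hs hz).2
      zcard := Zf_card h hs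
      dead := ?_
      fam_mem := ?_
      fam_len := ?_
      fam_pw := ?_
      fam_bad := ?_
      fam_pop := ?_ }
  · intro z hz
    obtain ⟨r, κ, τ, h1, h2, h3, h4⟩ := hs.ones z hz
    exact ⟨r, κ, τ, h1, h2, hs.used _ h3, h4⟩
  · intro i hn hq
    obtain ⟨r, hr, h1⟩ := hR i hn hq
    exact ⟨r, hs.used i hr, fun κ hκ τ hτ => (h1 κ hκ τ hτ).trans (status_le hκ).symm⟩
  · intro τ hτ κ hκ hlt t ht hk hcon
    refine dead_hit h hmax hτ hκ ?_ ht hk hcon
    intro hc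
    have := (status_le hκ).2 hc
    omega
  · intro τ _ hσ t ht
    obtain ⟨c, h1, _, h3⟩ := hf τ hσ
    rw [h3] at ht
    obtain ⟨h4, h5, _⟩ := hs.mem c τ t (List.mem_of_mem_take ht)
    exact ⟨h4, fun z hz => (h5 z hz).trans h1⟩
  · intro τ _ hσ
    obtain ⟨c, _, h2, h3⟩ := hf τ hσ
    rw [h3, hlen h2]
    have h4 : p.lv c ≤ p.q := (h.bp_spec c p.q).2 (Jc_le s.F (Rich_sub s.F c h2)).1
    exact (h.big c h4).trans (K_bounds h s.F c).1
  · intro τ _ hσ
    obtain ⟨c, _, _, h3⟩ := hf τ hσ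
    rw [h3]
    exact (hs.pw c τ).sublist (List.take_sublist _ _)
  · intro τ _ hσ
    obtain ⟨c, _, h2, h3⟩ := hf τ hσ
    have h4 := rich_bad h hs h2
    rw [h3, hlen h2]
    exact h4
  · intro τ _ hσ z hz hzf
    obtain ⟨c, _, h2, h3⟩ := hf τ hσ
    have h4 := rich_pop (Jc_le s.F (Rich_sub s.F c h2)).1 h2 hz hzf
    rw [h3, hlen h2]
    exact h4

end Par

end Pool.Agent.LibPP83
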