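import Mathlib

/-!
Abstract core: the lists of terms (certificates), the cells, and the ranks, for the
construction of an oracle relative to which nondeterministic exponential time has polynomial
size circuits.
-/

namespace Pool.Agent.LibPP83

open Finset Classical

/-- A term: strings required to be in the oracle, strings required not to be in it. -/
abbrev Term (S : Type) := Finset S × Finset S

/-- The data of a window. `S`: strings, `T`: tasks, `R`: page locations. -/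
structure Par (S T R : Type) where
  /-- first level -/
  n : ℕ
  /-- last level -/
  q : ℕ
  /-- last kind -/
  J : ℕ
  /-- the tasks of the window -/
  tasks : Finset T
  /-- level of a task -/
  lev : T → ℕ
  /-- the terms of a task -/
  D : T → Set (Term S)
  /-- size bound for the terms of the tasks of a level -/
  sz : ℕ → ℕ
  /-- bound for the number of tasks of a level -/
  nt : ℕ → ℕ
  /-- the string of a page: location, kind, task -/
  pg : R → ℕ → T → S
  /-- available locations of a level -/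
  Av : ℕ → Finset R
  /-- free variables -/
  Free : Set S
  /-- kind of a free variable -/
  kv : S → ℕ
  /-- fixed ones -/
  Y : Set S
  /-- level of a cell -/
  lv : ℕ → ℕ
  /-- kind of a cell -/
  kd : ℕ → ℕ
  /-- type of a cell: `0` first of a run, `1` continuation of a run, `2` page cell -/
  typ : ℕ → ℕ
  /-- the page cell of a level, the last cell of that level -/
  bp : ℕ → ℕ
  /-- the three thresholds of a cell -/
  A : ℕ → ℕ → ℕ
  /-- the unit of a level -/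
  u : ℕ → ℕ
  /-- number of terms of a list which a new page of the level may destroy -/
  lam : ℕ → ℕ
  /-- base of the rank of a level -/
  β : ℕ → ℕ
  /-- popularity -/
  θ : ℕ
  /-- length of the runs -/
  dep : ℕ → ℕ
  /-- least number of terms kept for a rich task -/
  M : ℕ

variable {S T R : Type}

namespace Par

/-- The tasks of a level. -/
noncomputable def tl (p : Par S T R) (i : ℕ) : Finset T := p.tasks.filter fun τ => p.lev τ = i

/-- The free positive part of a term. -/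
noncomputable def PX (p : Par S T R) (t : Term S) : Finset S := t.1.filter fun z => z ∈ p.Free

/-- The term has kind at most `κ`. -/
def Kd (p : Par S T R) (κ : ℕ) (t : Term S) : Prop := ∀ z ∈ p.PX t, p.kv z ≤ κ

/-- The term agrees with the fixed ones `Y` and the ones `E` on pages. -/
def Con (p : Par S T R) (E : Set S) (t : Term S) : Prop :=
  (∀ z ∈ t.1, z ∉ p.Free → z ∈ p.Y ∪ E) ∧ ∀ z ∈ t.2, z ∉ p.Free → z ∉ p.Y ∪ E

/-- The term asks a string of the page of level `i` at the location `r`. -/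
def Reads (p : Par S T R) (i : ℕ) (r : R) (t : Term S) : Prop :=
  ∃ κ τ, p.lev τ = i ∧ p.pg r κ τ ∈ t.1 ∪ t.2

/-- The lists of terms of the cells. -/
abbrev Lists (S T : Type) := ℕ → T → List (Term S)

/-- Number of the window used at the cell `c`: `1` if it contains at most half of the tasks in
`J`, else `2`. -/
noncomputable def sel (p : Par S T R) (F : Lists S T) (c : ℕ) (J : Finset T) : ℕ :=
  if 2 * (J.filter fun τ => p.A c 1 ≤ (F c τ).length ∧ (F c τ).length < p.A c 2).card ≤ J.card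
  then 1 else 2

/-- The undecided tasks. -/
noncomputable def wn (p : Par S T R) (F : Lists S T) (c : ℕ) (J : Finset T) : Finset T :=
  J.filter fun τ => p.A c (p.sel F c J) ≤ (F c τ).length ∧
    (F c τ).length < p.A c (p.sel F c J + 1)

/-- The rich tasks. -/
noncomputable def ri (p : Par S T R) (F : Lists S T) (c : ℕ) (J : Finset T) : Finset T :=
  J.filter fun τ => p.A c (p.sel F c J + 1) ≤ (F c τ).length

/-- The dead tasks. -/
noncomputable def de (p : Par S T R) (F : Lists S T) (c : ℕ) (J : Finset T) : Finset T :=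
  J.filter fun τ => (F c τ).length < p.A c (p.sel F c J)

/-- The tasks treated at the cell `c`, given those of the previous cell and all tasks which
are rich at a previous cell. -/
noncomputable def nextJ (p : Par S T R) (c : ℕ) (W RS : Finset T) : Finset T :=
  if p.bp p.q < c then ∅ else
  if p.typ c = 0 then p.tl (p.lv c) \ RS else if p.typ c = 1 then W else ∅

/-- Recursion over the cells: tasks treated at `c`, tasks rich at a previous cell. -/
noncomputable def JR (p : Par S T R) (F : Lists S T) : ℕ → Finset T × Finset T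
  | 0 => (p.nextJ 0 ∅ ∅, ∅)
  | c + 1 => (p.nextJ (c + 1) (p.wn F c (JR p F c).1) ((JR p F c).2 ∪ p.ri F c (JR p F c).1),
      (JR p F c).2 ∪ p.ri F c (JR p F c).1)

/-- The tasks treated at the cell `c`. -/
noncomputable def Jc (p : Par S T R) (F : Lists S T) (c : ℕ) : Finset T := (p.JR F c).1

/-- The tasks rich at the cell `c`. -/
noncomputable def Rich (p : Par S T R) (F : Lists S T) (c : ℕ) : Finset T :=
  p.ri F c (p.Jc F c)

/-- The tasks dead at the cell `c`. -/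
noncomputable def Dead (p : Par S T R) (F : Lists S T) (c : ℕ) : Finset T :=
  p.de F c (p.Jc F c)

/-- The number of terms kept for rich tasks. -/
noncomputable def K (p : Par S T R) (F : Lists S T) (c : ℕ) : ℕ :=
  p.A c (p.sel F c (p.Jc F c) + 1)

/-- The list of a task, truncated to a multiple of the unit of level `j`. -/
def tr (p : Par S T R) (j : ℕ) (l : List (Term S)) : List (Term S) :=
  l.take (p.u j * (l.length / p.u j))

/-- Popular strings: asked negatively by more than the fraction `1 / θ` of the first `k` terms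
of the list. -/
noncomputable def pop (p : Par S T R) (k : ℕ) (l : List (Term S)) : Finset S :=
  ((l.take k).toFinset.biUnion fun t => t.2).filter fun z =>
    z ∈ p.Free ∧ k < p.θ * ((l.take k).filter fun t => z ∈ t.2).length

/-- All free strings asked positively in the list. -/
noncomputable def un (p : Par S T R) (l : List (Term S)) : Finset S :=
  l.toFinset.biUnion fun t => p.PX t

/-- The strings zeroed at the cell `c`, as seen at the resolution of level `j`. -/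
noncomputable def zz (p : Par S T R) (F : Lists S T) (j c : ℕ) : Finset S :=
  ((p.Dead F c).biUnion fun τ => p.un (p.tr j (F c τ))) ∪
    (p.Rich F c).biUnion fun τ => p.pop (p.K F c) (F c τ)

/-- The strings zeroed before the cell `c`, as seen at the resolution of the level of `c`. -/
noncomputable def Z (p : Par S T R) (F : Lists S T) (c : ℕ) : Finset S :=
  (range c).biUnion fun c' => p.zz F (p.lv c) c'

/-- The contents which a page of level `lev τ` should have. -/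
def cont (p : Par S T R) (F : Lists S T) (κ : ℕ) (τ : T) : Prop :=
  ∃ c ≤ p.bp (p.lev τ), p.kd c ≤ κ ∧ τ ∈ p.Rich F c

/-- A state: used locations, ones on the pages, lists. -/
structure State (S T R : Type) where
  U : ℕ → Finset R
  E : Set S
  F : Lists S T

/-- Some used page of level `i` is right. -/
def Right (p : Par S T R) (s : State S T R) (i : ℕ) : Prop :=
  ∃ r ∈ s.U i, ∀ κ ≤ p.J, ∀ τ ∈ p.tl i, (p.pg r κ τ ∈ s.E ↔ p.cont s.F κ τ)

/-- The digit of the cell `c` at the resolution of level `j`. -/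
noncomputable def dgt (p : Par S T R) (s : State S T R) (j c : ℕ) : ℕ :=
  if p.typ c = 2 then (if p.Right s (p.lv c) then 1 else 0)
  else ∑ τ ∈ p.tasks, (s.F c τ).length / p.u j

/-- The rank at the resolution of level `j`. -/
noncomputable def rk (p : Par S T R) (s : State S T R) (j : ℕ) : ℕ :=
  ∑ c ∈ range (p.bp j + 1), p.dgt s j c * p.β j ^ (p.bp j - c)

/-- The invariants of the states. -/
structure Inv (p : Par S T R) (s : State S T R) : Prop where
  ones : ∀ z ∈ s.E, ∃ r κ τ, κ ≤ p.J ∧ τ ∈ p.tasks ∧ r ∈ s.U (p.lev τ) ∧ z = p.pg r κ τ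
  used : ∀ j, s.U j ⊆ p.Av j
  usedOut : ∀ j, (j < p.n ∨ p.q < j) → s.U j = ∅
  nil : ∀ c τ, τ ∉ p.Jc s.F c → s.F c τ = []
  mem : ∀ c τ, ∀ t ∈ s.F c τ, t ∈ p.D τ ∧ p.Kd (p.kd c) t ∧ Disjoint (p.PX t) (p.Z s.F c)
  pw : ∀ c τ, (s.F c τ).Pairwise fun t t' => Disjoint (p.PX t) (p.PX t')
  cap : ∀ c τ, (s.F c τ).length ≤ p.A c 3
  live : ∀ c τ, ((s.F c τ).filter fun t => ¬ p.Con s.E t).length ≤
    ∑ j ∈ Icc (p.lv c) p.q, (s.U j).card * p.lam j
  budget : ∀ j, (s.U j).card ≤ p.rk s j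

/-- The hypotheses on the data. -/
structure Ok (p : Par S T R) : Prop where
  nq : p.n ≤ p.q
  hlev : ∀ τ ∈ p.tasks, p.n ≤ p.lev τ ∧ p.lev τ ≤ p.q
  hnt : ∀ i, (p.tl i).card ≤ p.nt i
  hD : ∀ τ ∈ p.tasks, ∀ t ∈ p.D τ, t.1.card + t.2.card ≤ p.sz (p.lev τ)
  hDd : ∀ τ ∈ p.tasks, ∀ t ∈ p.D τ, Disjoint t.1 t.2
  hsz : Monotone p.sz
  pg_inj : ∀ {r κ τ r' κ' τ'}, p.pg r κ τ = p.pg r' κ' τ' → r = r' ∧ κ = κ' ∧ τ = τ'
  pg_free : ∀ r κ τ, κ ≤ p.J → τ ∈ p.tasks → r ∈ p.Av (p.lev τ) → p.pg r κ τ ∉ p.Free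
  pg_Y : ∀ r κ τ, κ ≤ p.J → τ ∈ p.tasks → r ∈ p.Av (p.lev τ) → p.pg r κ τ ∉ p.Y
  bp_spec : ∀ c j, p.lv c ≤ j ↔ c ≤ p.bp j
  lv_bp : ∀ j, p.lv (p.bp j) = j
  typ_bp : ∀ j, p.typ (p.bp j) = 2
  typ_two : ∀ c, p.typ c = 2 → c = p.bp (p.lv c)
  typ_one : ∀ c, p.typ (c + 1) = 1 → p.lv c = p.lv (c + 1) ∧ p.kd c = p.kd (c + 1) ∧
    p.typ c ≠ 2
  typ_zero : p.typ 0 ≠ 1
  kd_le : ∀ c, p.typ c ≠ 2 → p.kd c ≤ p.J
  runs : ∀ i κ, p.n ≤ i → i ≤ p.q → κ ≤ p.J → ∃ c0, p.typ c0 = 0 ∧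
    (∀ d < p.dep i, p.lv (c0 + d) = i ∧ p.kd (c0 + d) = κ ∧ (0 < d → p.typ (c0 + d) = 1)) ∧
    ∀ c < c0, p.lv c = i → p.kd c < κ
  hdep : ∀ i, p.nt i < 2 ^ p.dep i
  u_pos : ∀ j, 0 < p.u j
  u_dvd : ∀ j, p.u (j + 1) ∣ p.u j
  A_dvd : ∀ c, p.lv c ≤ p.q → ∀ s, p.u (p.lv c) ∣ p.A c s
  A_pos : ∀ c, 0 < p.A c 1
  A_le : ∀ c, p.A c 1 ≤ p.A c 2 ∧ p.A c 2 ≤ p.A c 3
  big : ∀ c, p.lv c ≤ p.q → p.M ≤ p.A c 1
  hβ1 : ∀ j, 1 < p.β j
  hβ : ∀ j ≤ p.q, ∀ c ≤ p.bp j, p.nt (p.lv c) * (p.A c 3 / p.u j) < p.β j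
  loc : ∀ i, p.n ≤ i → i ≤ p.q → p.β i ^ (p.bp i + 1) +
    ∑ c ∈ range (p.bp i + 1), p.nt (p.lv c) * (p.A c 3 * p.sz i / (p.lam i + 1)) < (p.Av i).card
  loss : ∀ c, p.n ≤ p.lv c → p.lv c ≤ p.q →
    8 * ∑ j ∈ Icc (p.lv c) p.q, p.β j ^ (p.bp j + 1) * p.lam j ≤ p.A c 1
  zero : ∀ c, p.n ≤ p.lv c → p.lv c ≤ p.q → ∀ s, (s = 1 ∨ s = 2) →
    8 * (∑ c' ∈ range c, p.nt (p.lv c') * (p.u (p.lv c) * p.sz (p.lv c')) +
      p.nt (p.lv c) * (p.A c s * p.sz (p.lv c)) +
      ∑ c' ∈ Ioc c (p.bp p.q), p.nt (p.lv c') * (p.A c' 3 * p.sz (p.lv c')) +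
      ∑ c' ∈ Icc c (p.bp p.q), p.nt (p.lv c') * (p.θ * p.sz (p.lv c'))) ≤ p.A c (s + 1)

/-- All strings zeroed in a state. -/
noncomputable def Zf (p : Par S T R) (F : Lists S T) : Finset S :=
  (range (p.bp p.q + 1)).biUnion fun c => ((p.Dead F c).biUnion fun τ => p.un (F c τ)) ∪
    (p.Rich F c).biUnion fun τ => p.pop (p.K F c) (F c τ)

/-- The outcome of the construction of a window: `E` the ones on the pages, `σ` the statuses,
`Z` the zeroed strings, `fam` the families of terms of the rich tasks. -/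
structure Out (p : Par S T R) (E : Set S) (σ : T → ℕ) (Z : Finset S) (fam : T → List (Term S)) :
    Prop where
  ones : ∀ z ∈ E, ∃ r κ τ, κ ≤ p.J ∧ τ ∈ p.tasks ∧ r ∈ p.Av (p.lev τ) ∧ z = p.pg r κ τ
  pages : ∀ i, p.n ≤ i → i ≤ p.q → ∃ r ∈ p.Av i, ∀ κ ≤ p.J, ∀ τ ∈ p.tl i,
    (p.pg r κ τ ∈ E ↔ σ τ ≤ κ)
  zfree : ∀ z ∈ Z, z ∈ p.Free
  zterm : ∀ z ∈ Z, ∃ τ ∈ p.tasks, ∃ t ∈ p.D τ, z ∈ t.1 ∨ z ∈ t.2
  zcard : Z.card ≤ ∑ c ∈ range (p.bp p.q + 1), p.nt (p.lv c) * ((p.A c 3 + p.θ) * p.sz (p.lv c))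
  dead : ∀ τ ∈ p.tasks, ∀ κ ≤ p.J, κ < σ τ → ∀ t ∈ p.D τ, p.Kd κ t → p.Con E t →
    ¬ Disjoint (p.PX t) Z
  fam_mem : ∀ τ ∈ p.tasks, σ τ ≤ p.J → ∀ t ∈ fam τ, t ∈ p.D τ ∧ p.Kd (σ τ) t
  fam_len : ∀ τ ∈ p.tasks, σ τ ≤ p.J → p.M ≤ (fam τ).length
  fam_pw : ∀ τ ∈ p.tasks, σ τ ≤ p.J →
    (fam τ).Pairwise fun t t' => Disjoint (p.PX t) (p.PX t')
  fam_bad : ∀ τ ∈ p.tasks, σ τ ≤ p.J →
    4 * ((fam τ).filter fun t => ¬ p.Con E t ∨ ¬ Disjoint (p.PX t) Z).length ≤ (fam τ).length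
  fam_pop : ∀ τ ∈ p.tasks, σ τ ≤ p.J → ∀ z ∈ p.Free, z ∉ Z →
    p.θ * ((fam τ).filter fun t => z ∈ t.2).length ≤ (fam τ).length

end Par

end Pool.Agent.LibPP83
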