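import Pool.Agent.LibPP83.Diag1

/-!
Every program errs on the complement of the test language, with any short advice.
-/

namespace Pool.Agent.LibPP83

open Finset Filter Classical Pool.Agent.LibNexp Pool.Agent.LibSpec4

variable {en : ℕ → Prog × ℕ} {k : ℕ} {φ : Part} {n : ℕ}

theorem diag (hV : Valid en k φ n) (N : ℕ) (h1 : 1 ≤ n)
    (h2 : 2 * (n + 1) ^ k ≤ 2 ^ (n - 1))
    (h3 : pz (2 * (n + 1) ^ k) (qN en k N n) < 2 ^ n) :
    ∃ (ψ : Part) (m : ℕ), φ.Le ψ ∧ n < m ∧ Valid en k ψ m ∧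
      ∀ O : Str → Bool, ψ.Ext O → Met en k N n O := by
  obtain ⟨σ, hσ⟩ := window hV (le_qN (en := en) (k := k) N) (le_refl (2 * (n + 1) ^ k))
    (Or.inr ⟨h1, h2, h3⟩)
  obtain ⟨κ, hκ, hw⟩ := exists_world (M := (n + 1) ^ k) (Nat.one_le_pow _ _ (by omega))
    (fun κ' v => σ (N, pair (xs n (κ' - 1)) v))
  obtain ⟨ψ, hle, hval, hO⟩ := hσ κ hκ
  refine ⟨ψ, qN en k N n + 1, hle, Nat.lt_succ_of_le (le_qN N), hval, fun O hext =>
    ⟨n, le_rfl, fun v hv => ?_⟩⟩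
  obtain ⟨κ', h1', h2', hne⟩ := hw v hv
  obtain ⟨hacc, hwit⟩ := hO O hext
  have hlx : (xs n (κ' - 1)).length = n := length_xs h1
  obtain ⟨hl1, hl2⟩ := lvl_le (en := en) (N := N) hlx hv
  refine ⟨xs n (κ' - 1), hlx, fun hiff => hne ?_⟩
  have ha := hacc (N, pair (xs n (κ' - 1)) v) hl1 hl2
  have hb := hwit κ' h1' h2'
  rw [← ha, ← hiff, hb]
  omega

theorem idle_iter (hV : Valid en k φ n) : ∀ d : ℕ, ∃ ψ : Part, φ.Le ψ ∧ Valid en k ψ (n + d) := by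
  intro d
  induction d with
  | zero => exact ⟨φ, ⟨Finset.Subset.refl _, fun z _ => Iff.rfl⟩, hV⟩
  | succ d ih =>
    obtain ⟨ψ, h1, h2⟩ := ih
    obtain ⟨χ, h3, h4⟩ := idle h2
    exact ⟨χ, h1.trans h3, h4⟩

theorem step_req (hV : Valid en k φ n) (N : ℕ) :
    ∃ (ψ : Part) (m : ℕ), φ.Le ψ ∧ n < m ∧ Valid en k ψ m ∧
      ∀ O : Str → Bool, ψ.Ext O → Met en k N n O := by
  have hJ : PolyB fun m => 2 * (m + 1) ^ k :=
    (PolyB.const 2).mul ((PolyB.id.add (PolyB.const 1)).pow k)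
  have e1 := PolyB.eventually_lt hJ
  have e2 := PolyB.eventually_lt (polyB_pz hJ (polyB_qN en k N))
  obtain ⟨m, hm1, hm2, hm3, hm4⟩ := (e1.and (e2.and ((eventually_ge_atTop n).and
    (eventually_ge_atTop 1)))).exists
  obtain ⟨ψ, hψ1, hψ2⟩ := idle_iter hV (m - n)
  have hmn : n + (m - n) = m := by omega
  rw [hmn] at hψ2
  obtain ⟨χ, m', h1, h2, h3, h4⟩ := diag hψ2 N hm4 hm1.le (lt_of_lt_of_le hm2
    (Nat.pow_le_pow_right (by norm_num) (by omega)))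
  refine ⟨χ, m', hψ1.trans h1, by omega, h3, fun O hO => ?_⟩
  obtain ⟨l, hl, hl'⟩ := h4 O hO
  exact ⟨l, hm3.trans hl, hl'⟩

end Pool.Agent.LibPP83
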