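import Pool.Agent.LibPP83.Num1

/-!
The thresholds, units and bases: exponents.
-/

namespace Pool.Agent.LibPP83

open Finset

theorem sum_pow_le {e : ℕ → ℕ} {a b : ℕ} (he : ∀ x, a ≤ x → x < b → e (x + 1) + 1 ≤ e x) :
    ∑ x ∈ Icc a b, 2 ^ e x ≤ 2 ^ (e a + 1) := by
  rcases Nat.lt_or_ge b a with hba | hab
  · rw [Finset.Icc_eq_empty (by omega), Finset.sum_empty]
    exact Nat.zero_le _
  · obtain ⟨n, rfl⟩ : ∃ n, b = a + n := ⟨b - a, by omega⟩
    clear hab
    induction n generalizing a with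
    | zero =>
      rw [Nat.add_zero, Finset.Icc_self, Finset.sum_singleton, Nat.pow_succ]
      omega
    | succ n ih =>
      have h1 : Icc a (a + (n + 1)) = insert a (Icc (a + 1) (a + 1 + n)) := by
        ext x
        rw [Finset.mem_insert, Finset.mem_Icc, Finset.mem_Icc]
        omega
      have h2 : a ∉ Icc (a + 1) (a + 1 + n) := by
        rw [Finset.mem_Icc]
        omega
      rw [h1, Finset.sum_insert h2]
      have h3 := ih (a := a + 1) (fun x hx hx' => he x (by omega) (by omega))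
      have h4 := he a (le_refl _) (by omega)
      have h5 : 2 ^ (e (a + 1) + 1) ≤ 2 ^ e a := Nat.pow_le_pow_right (by omega) h4
      rw [Nat.pow_succ 2 (e a)]
      omega

theorem num_beta {J q j c : ℕ} (hj : j ≤ q) (hc : c ≤ off J (j + 1) - 1) :
    2 ^ (2 * lvc J c + 1) * (AA J q c 3 / uu J q j) < be J j := by
  have hl : lvc J c ≤ j := lvc_le.mpr hc
  have h1 : AA J q c 3 ≤ 2 ^ gam J q (off J (j + 1)) * 2 ^ Gam J j := by
    rw [← Nat.pow_add]
    exact le_trans (AA_le (by omega)) (Nat.pow_le_pow_right (by omega) (gam_zero_le hj))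
  have h2 : AA J q c 3 / uu J q j ≤ 2 ^ Gam J j := by
    unfold uu
    exact Nat.div_le_of_le_mul h1
  have h3 : 2 ^ (2 * lvc J c + 1) * (AA J q c 3 / uu J q j) ≤ 2 ^ (2 * j + 1) * 2 ^ Gam J j :=
    Nat.mul_le_mul (Nat.pow_le_pow_right (by omega) (by omega)) h2
  refine lt_of_le_of_lt h3 ?_
  rw [← Nat.pow_add]
  unfold be
  exact Nat.pow_lt_pow_right (by omega) (by omega)

theorem num_dvd {J q c : ℕ} (hc : lvc J c ≤ q) (s : ℕ) : uu J q (lvc J c) ∣ AA J q c s := by
  unfold uu AA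
  refine Nat.pow_dvd_pow 2 ?_
  have h1 := lvc_spec J c
  have h2 := gam_anti J q (show c + 1 ≤ off J (lvc J c + 1) by omega)
  omega

theorem be_pow {J q j : ℕ} (hj : j ≤ q) :
    be J j ^ (off J (j + 1) - 1 + 1) * lm J q j = uu J q j := by
  have h1 := off_succ_pos J j
  have h2 := la_le (J := J) hj
  unfold be lm uu
  rw [Nat.sub_add_cancel h1, ← Nat.pow_mul, ← Nat.pow_add]
  congr 1
  change la J j + _ = _
  omega

end Pool.Agent.LibPP83
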