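import Pool.Agent.LibNexp.Growth
import Pool.Agent.LibPP83.Num

/-!
The lengths are polynomially bounded.
-/

namespace Pool.Agent.LibPP83

open Finset Filter Pool.Agent.LibNexp

theorem off_le (J i : ℕ) : off J i ≤ i * ((J + 1) * (2 * i + 2) + 1) := by
  unfold off
  calc ∑ l ∈ range i, bs J l ≤ ∑ _l ∈ range i, ((J + 1) * (2 * i + 2) + 1) := by
        refine Finset.sum_le_sum fun l hl => ?_
        have hl' : l < i := mem_range.1 hl
        unfold bs
        have h1 : (J + 1) * (2 * l + 2) ≤ (J + 1) * (2 * i + 2) :=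
          Nat.mul_le_mul_left _ (by omega)
        omega
    _ = i * ((J + 1) * (2 * i + 2) + 1) := by
        rw [Finset.sum_const, card_range, smul_eq_mul]

theorem polyB_off {J : ℕ → ℕ} (hJ : PolyB J) {g : ℕ → ℕ} (hg : PolyB g) :
    PolyB fun i => off (J i) (g i) := by
  refine (hg.mul ((hJ.succ.mul (((PolyB.const 2).mul hg).add (PolyB.const 2))).add
    (PolyB.const 1))).mono fun n => ?_
  exact off_le (J n) (g n)

theorem poly_gg {J : ℕ → ℕ} (hJ : PolyB J) {g : ℕ → ℕ} (hg : PolyB g) :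
    PolyB fun i => gg (J i) (g i) :=
  ((polyB_off hJ hg.succ).add ((PolyB.const 3).mul hg)).add (PolyB.const 10)

theorem poly_Gam {J : ℕ → ℕ} (hJ : PolyB J) {g : ℕ → ℕ} (hg : PolyB g) :
    PolyB fun i => Gam (J i) (g i) :=
  (PolyB.const 4).mul ((polyB_off hJ hg.succ).mul (poly_gg hJ hg))

theorem poly_la {J : ℕ → ℕ} (hJ : PolyB J) {g : ℕ → ℕ} (hg : PolyB g) :
    PolyB fun i => la (J i) (g i) :=
  (((poly_Gam hJ hg).add ((PolyB.const 2).mul hg)).add (PolyB.const 3)).mul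
    (polyB_off hJ hg.succ)

theorem poly_vs {J : ℕ → ℕ} (hJ : PolyB J) {g : ℕ → ℕ} (hg : PolyB g) :
    PolyB fun i => vs (J i) (g i) :=
  (((polyB_off hJ hg.succ).add ((PolyB.const 6).mul hg)).add (PolyB.const 12)).add
    (poly_la hJ hg)

theorem poly_hh {J : ℕ → ℕ} (hJ : PolyB J) {g : ℕ → ℕ} (hg : PolyB g) :
    PolyB fun i => hh (J i) (g i) :=
  ((((poly_la hJ hg).add (poly_Gam hJ hg)).add (polyB_off hJ hg.succ)).add
    ((PolyB.const 5).mul hg)).add (PolyB.const 10)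

theorem polyB_pz {J : ℕ → ℕ} (hJ : PolyB J) {g : ℕ → ℕ} (hg : PolyB g) :
    PolyB fun i => pz (J i) (g i) := by
  exact ((((poly_vs hJ hg).add (poly_Gam hJ hg)).add (polyB_off hJ hg.succ)).add
    ((PolyB.const 4).mul hg)).add (PolyB.const 8)

theorem polyB_ell (k : ℕ) : PolyB (ell k) := by
  have hJ : PolyB fun i : ℕ => 2 * (i + 1) ^ k :=
    (PolyB.const 2).mul (PolyB.id.succ.pow k)
  exact ((poly_hh hJ PolyB.id).add ((polyB_pz hJ PolyB.id).add PolyB.id)).add (PolyB.const 3)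

/-- A polynomial is eventually smaller than `2 ^ (n - 1)`. -/
theorem PolyB.eventually_lt {f : ℕ → ℕ} (hf : PolyB f) : ∀ᶠ n : ℕ in atTop, f n < 2 ^ (n - 1) := by
  obtain ⟨c, hc⟩ := hf
  have h1 := (isLittleO_pow_const_const_pow_of_one_lt (R := ℝ) (c + 1) (r := 2)
    (by norm_num)).def (c := 1 / (2 * (c : ℝ) + 3)) (by positivity)
  filter_upwards [h1, eventually_ge_atTop 1] with n h2 h3
  have h4 : (n : ℝ) ^ (c + 1) ≤ 1 / (2 * (c : ℝ) + 3) * 2 ^ n := by
    have := h2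
    rw [Real.norm_of_nonneg (by positivity), Real.norm_of_nonneg (by positivity)] at this
    exact this
  have h5 : (2 * (c : ℝ) + 3) * (n : ℝ) ^ (c + 1) ≤ 2 ^ n := by
    rw [one_div, inv_mul_eq_div, le_div_iff₀ (by positivity)] at h4
    linarith
  have h6 : (2 * c + 3) * n ^ (c + 1) ≤ 2 ^ n := by exact_mod_cast h5
  have h7 : n ^ c ≤ n ^ (c + 1) := Nat.pow_le_pow_right (by omega) (by omega)
  have h8 : 1 ≤ n ^ (c + 1) := Nat.one_le_pow _ _ (by omega)
  have h9 : c ≤ c * n ^ (c + 1) := Nat.le_mul_of_pos_right c (by omega)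
  have h10 : (2 * c + 3) * n ^ (c + 1) = 2 * (c * n ^ (c + 1)) + 3 * n ^ (c + 1) := by ring
  have h11 : 2 ^ n = 2 * 2 ^ (n - 1) := by
    rw [← pow_succ', show n - 1 + 1 = n from by omega]
  have h12 := hc n
  omega

/-- `g` of a polynomial is a polynomial, for `g` monotone and polynomially bounded. -/
theorem PolyB.comp' {f g : ℕ → ℕ} (hf : PolyB f) (hg : PolyB g) : PolyB fun n => f (g n) := by
  obtain ⟨c, hc⟩ := hf
  exact (hg.comp_pow c).mono fun n => hc (g n)

end Pool.Agent.LibPP83
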