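import Pool.Agent.LibPP83.Window
import Pool.Agent.LibPP83.Poly

/-!
Every program errs on the complement of the test language, with any short advice.
-/

namespace Pool.Agent.LibPP83

open Finset Filter Classical Pool.Agent.LibNexp Pool.Agent.LibSpec4

variable {en : ℕ → Prog × ℕ} {k : ℕ} {φ : Part} {n : ℕ}

/-- At some length `n ≥ n0`, every short advice is wrong for the program number `N`. -/
def Met (en : ℕ → Prog × ℕ) (k N n0 : ℕ) (O : Str → Bool) : Prop :=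
  ∃ n, n0 ≤ n ∧ ∀ v : Str, 2 ^ v.length ≤ (n + 1) ^ k →
    ∃ x : Str, x.length = n ∧ ¬ (x ∉ WitLang O ↔ AccN en O N (pair x v))

/-- Bound for the lengths of the inputs with advice. -/
def bN (k n : ℕ) : ℕ := 2 * n + 2 + (n + 1) ^ k

/-- The last level of the window for program number `N`. -/
def qN (en : ℕ → Prog × ℕ) (k N n : ℕ) : ℕ := bN k n ^ (en N).2 + (en N).2 + N + bN k n

theorem lvl_le {N : ℕ} {x v : Str} (hx : x.length = n) (hv : 2 ^ v.length ≤ (n + 1) ^ k) :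
    n ≤ lvl en (N, pair x v) ∧ lvl en (N, pair x v) ≤ qN en k N n := by
  have h1 : v.length < 2 ^ v.length := Nat.lt_two_pow_self
  have h2 : (pair x v).length = 2 * n + v.length + 2 := by
    rw [length_pair, hx]
  have h3 : (pair x v).length ≤ bN k n := by
    unfold bN
    omega
  constructor
  · unfold lvl
    simp only
    omega
  · unfold lvl qN
    simp only
    have h4 : (pair x v).length ^ (en N).2 ≤ bN k n ^ (en N).2 := Nat.pow_le_pow_left h3 _
    omega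

theorem le_qN (N : ℕ) : n ≤ qN en k N n := by
  unfold qN
  have h : n ≤ bN k n := by
    unfold bN
    omega
  omega

theorem diag1_geom (m : ℕ) : ∑ i ∈ range m, 2 ^ i + 1 = 2 ^ m := by
  induction m with
  | zero => simp
  | succ m ih =>
    rw [Finset.sum_range_succ, pow_succ]
    omega

/-- The number of short advice strings. -/
theorem card_short {M : ℕ} (hM : 1 ≤ M) : ∃ V : Finset Str, V.card < 2 * M ∧
    ∀ v : Str, 2 ^ v.length ≤ M → v ∈ V := by
  refine ⟨(range (Nat.log 2 M + 1)).biUnion strs, ?_, fun v hv => ?_⟩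
  · have h1 : ((range (Nat.log 2 M + 1)).biUnion strs).card ≤
        ∑ i ∈ range (Nat.log 2 M + 1), 2 ^ i := by
      refine Finset.card_biUnion_le.trans (Finset.sum_le_sum fun i _ => ?_)
      rw [card_strs]
    have h2 := diag1_geom (Nat.log 2 M + 1)
    have h3 : 2 ^ Nat.log 2 M ≤ M := Nat.pow_log_le_self 2 (by omega)
    rw [pow_succ] at h2
    omega
  · have h1 : v.length ≤ Nat.log 2 M := Nat.le_log_of_pow_le (by norm_num) hv
    exact Finset.mem_biUnion.2 ⟨v.length, Finset.mem_range.2 (by omega), mem_strs.2 rfl⟩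

/-- Pigeonhole: in some world no advice is right. -/
theorem exists_world {M : ℕ} (hM : 1 ≤ M) (s : ℕ → Str → ℕ) :
    ∃ κ ≤ 2 * M, ∀ v : Str, 2 ^ v.length ≤ M →
      ∃ κ', 1 ≤ κ' ∧ κ' ≤ 2 * M ∧ ¬ (κ < κ' ↔ s κ' v ≤ κ) := by
  obtain ⟨V, hV, hVm⟩ := card_short hM
  by_contra hcon
  have h0 : ∀ κ : ℕ, κ ≤ 2 * M → ∃ v : Str, 2 ^ v.length ≤ M ∧
      ∀ κ', 1 ≤ κ' → κ' ≤ 2 * M → (κ < κ' ↔ s κ' v ≤ κ) := by
    intro κ hκ
    by_contra h1
    apply hcon
    refine ⟨κ, hκ, fun v hv => ?_⟩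
    by_contra h2
    apply h1
    refine ⟨v, hv, fun κ' h3 h4 => ?_⟩
    by_contra h5
    exact h2 ⟨κ', h3, h4, h5⟩
  have key : ∀ κ₁ κ₂ : ℕ, κ₁ < κ₂ → κ₂ ≤ 2 * M → ∀ v : Str,
      (∀ κ', 1 ≤ κ' → κ' ≤ 2 * M → (κ₁ < κ' ↔ s κ' v ≤ κ₁)) →
      (∀ κ', 1 ≤ κ' → κ' ≤ 2 * M → (κ₂ < κ' ↔ s κ' v ≤ κ₂)) → False := by
    intro κ₁ κ₂ h12 h2 v h3 h4
    have h5 := (h3 (κ₁ + 1) (by omega) (by omega)).1 (by omega)
    have h6 := (h4 (κ₁ + 1) (by omega) (by omega)).2 (by omega)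
    omega
  choose f hf1 hf2 using h0
  let g : ℕ → Str := fun κ => if h : κ ≤ 2 * M then f κ h else []
  have hg : ∀ κ (h : κ ≤ 2 * M), g κ = f κ h := fun κ h => dif_pos h
  have hmap : ∀ κ ∈ range (2 * M + 1), g κ ∈ V := by
    intro κ hκ
    have h1 : κ ≤ 2 * M := by
      have := Finset.mem_range.1 hκ
      omega
    rw [hg κ h1]
    exact hVm _ (hf1 κ h1)
  obtain ⟨κ₁, h1, κ₂, h2, hne, heq⟩ := Finset.exists_ne_map_eq_of_card_lt_of_maps_to
    (s := range (2 * M + 1)) (t := V) (by rw [Finset.card_range]; omega) hmap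
  have h1' : κ₁ ≤ 2 * M := by
    have := Finset.mem_range.1 h1
    omega
  have h2' : κ₂ ≤ 2 * M := by
    have := Finset.mem_range.1 h2
    omega
  rw [hg κ₁ h1', hg κ₂ h2'] at heq
  have e1 := hf2 κ₁ h1'
  have e2 := hf2 κ₂ h2'
  rcases lt_or_gt_of_ne hne with h | h
  · rw [heq] at e1
    exact key κ₁ κ₂ h h2' _ e1 e2
  · rw [heq] at e1
    exact key κ₂ κ₁ h h1' _ e2 e1

theorem polyB_qN (en : ℕ → Prog × ℕ) (k N : ℕ) : PolyB (qN en k N) := by
  have h1 : PolyB (bN k) :=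
    (((PolyB.const 2).mul PolyB.id).add (PolyB.const 2)).add (PolyB.id.succ.pow k)
  exact ((h1.comp_pow (en N).2).add (PolyB.const N)).add h1

end Pool.Agent.LibPP83
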