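import Pool.Agent.LibPP83.Fin1

/-!
An oracle relative to which nondeterministic exponential time has polynomial size circuits, but
is not closed under complement, not even with logarithmic advice.
-/

namespace Pool.Agent.LibPP83

open Finset Filter Classical Pool.Agent.LibNexp Pool.Agent.LibSpec4 Pool.Agent.LibBHN

theorem main (k : ℕ) : ∃ O : Str → Bool,
    (∀ L ∈ NEXPLang O, ∃ (c : ℕ) (f : ℕ → Str), (∀ n, (f n).length ≤ n ^ c + c) ∧
      ∀ x, x ∈ L ↔ O (false :: pair (pair x (f x.length)) []) = true) ∧
    ∀ B ∈ NEXPLang O, ∃ᶠ n in atTop, ∀ v : Str, 2 ^ v.length ≤ (n + 1) ^ k →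
      ∃ x : Str, x.length = n ∧ ¬ (x ∉ WitLang O ↔ pair x v ∈ B) := by
  obtain ⟨en, hen⟩ := exists_en
  obtain ⟨O, hO, hM⟩ := exists_oracle en k
  choose κ hκ r hr hpg using hO
  refine ⟨O, fun L hL => ?_, ?_⟩
  · obtain ⟨p, c, hp⟩ := exists_prog hL
    obtain ⟨N, hN⟩ := hen (p, c)
    have hlev : PolyB fun m : ℕ => m ^ c + c + N + m :=
      (((PolyB.id.comp_pow c).add (PolyB.const N)).add PolyB.id)
    have hf : PolyB fun m : ℕ => (List.replicate N true ++ false ::
        (List.replicate (κ (m ^ c + c + N + m)) true ++ false :: r (m ^ c + c + N + m))).length := by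
      have h1 : PolyB fun m : ℕ => N + 1 + 2 * (m ^ c + c + N + m + 1) ^ k + 1 +
          ell k (m ^ c + c + N + m) :=
        ((((PolyB.const N).add (PolyB.const 1)).add
          ((PolyB.const 2).mul ((hlev.add (PolyB.const 1)).pow k))).add (PolyB.const 1)).add
          (PolyB.comp' (polyB_ell k) hlev)
      refine h1.mono fun m => ?_
      have h2 := hκ (m ^ c + c + N + m)
      have h3 := hr (m ^ c + c + N + m)
      rw [List.length_append, List.length_cons, List.length_append, List.length_cons,
        List.length_replicate, List.length_replicate, h3]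
      omega
    obtain ⟨d, hd⟩ := hf
    refine ⟨d, fun m => List.replicate N true ++ false ::
        (List.replicate (κ (m ^ c + c + N + m)) true ++ false :: r (m ^ c + c + N + m)), hd,
      fun x => ?_⟩
    have hl : lvl en (N, x) = x.length ^ c + c + N + x.length := by
      unfold lvl
      simp only [hN]
    have h1 := hpg _ (N, x) hl
    unfold AccN at h1
    simp only [hN] at h1
    rw [hp x]
    exact h1.symm
  · intro B hB
    obtain ⟨p, c, hp⟩ := exists_prog hB
    obtain ⟨N, hN⟩ := hen (p, c)
    rw [frequently_atTop]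
    intro n0
    obtain ⟨n, hn0, hn⟩ := hM N n0
    refine ⟨n, hn0, fun v hv => ?_⟩
    obtain ⟨x, hx, hne⟩ := hn v hv
    refine ⟨x, hx, fun h1 => hne ?_⟩
    have h2 : AccN en O N (pair x v) ↔ pair x v ∈ B := by
      unfold AccN
      simp only [hN]
      exact (hp _).symm
    exact h1.trans h2.symm

end Pool.Agent.LibPP83
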