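import Pool.Agent.LibPP83.Limit
import Pool.Agent.LibBHN.MachBasic

/-!
An oracle relative to which nondeterministic exponential time has polynomial size circuits, but
is not closed under complement, not even with logarithmic advice.
-/

namespace Pool.Agent.LibPP83

open Finset Filter Classical Pool.Agent.LibNexp Pool.Agent.LibSpec4 Pool.Agent.LibBHN

theorem cons_false_mem : (fun x : List Bool => false :: x) ∈ FPTime := by
  refine ⟨[.push false false 1, .halt true], 1, fun x => ⟨1, Nat.le_add_left _ _, true, ?_, ?_⟩⟩
  · rfl
  · rfl

/-- One query to the oracle. -/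
theorem one_query (O : Str → Bool) :
    {z : Str | O (false :: pair z []) = true} ∈ POracle {{s | O s = true}} := by
  refine ⟨{s | O s = true}, rfl, fun x => false :: x, cons_false_mem,
    {x : List Bool | x.getLast? = some true}, last_mem, 0, fun x => ?_⟩
  rw [pow_zero, Nat.add_zero]
  have h1 : answers (fun x => false :: x) {s | O s = true} x 1 =
      [decide (O (false :: pair x []) = true)] := by
    unfold answers answers
    rw [List.nil_append]
    exact congrArg (fun b => [b]) (decide_eq_decide.2 Iff.rfl)
  rw [h1, Set.mem_ofPred_eq, Set.mem_ofPred_eq]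
  unfold pair
  rw [List.getLast?_append_cons]
  simp

theorem exists_en : ∃ en : ℕ → Prog × ℕ, Function.Surjective en := by
  have : Nonempty (Prog × ℕ) := ⟨(Prog.push 0 true, 0)⟩
  exact exists_surjective_nat (Prog × ℕ)

end Pool.Agent.LibPP83
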