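import Mathlib

/-!
Numbers given by their digits.
-/

namespace Pool.Agent.LibPP83

open Finset

/-- The first digit is the leading one. -/
def digits (β m : ℕ) (d : ℕ → ℕ) : ℕ := ∑ c ∈ range (m + 1), d c * β ^ (m - c)

theorem digits_zero (β : ℕ) (d : ℕ → ℕ) : digits β 0 d = d 0 := by
  simp [digits]

theorem digits_succ (β m : ℕ) (d : ℕ → ℕ) :
    digits β (m + 1) d = β * digits β m d + d (m + 1) := by
  unfold digits
  rw [sum_range_succ, Nat.sub_self, pow_zero, mul_one, mul_sum]
  congr 1
  refine sum_congr rfl (fun c hc => ?_)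
  have h1 : m + 1 - c = m - c + 1 := by
    have := mem_range.1 hc
    omega
  rw [h1, pow_succ]
  ring

theorem digits_lt {β m : ℕ} {d : ℕ → ℕ} (_hβ : 1 < β) (hd : ∀ c ≤ m, d c < β) :
    digits β m d < β ^ (m + 1) := by
  induction m with
  | zero =>
    rw [digits_zero, zero_add, pow_one]
    exact hd 0 le_rfl
  | succ m ih =>
    rw [digits_succ, pow_succ β (m + 1), mul_comm (β ^ (m + 1))]
    have h1 := ih (fun c hc => hd c (by omega))
    have h2 := hd (m + 1) le_rfl
    calc β * digits β m d + d (m + 1) < β * digits β m d + β := by omega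
      _ = β * (digits β m d + 1) := by ring
      _ ≤ β * β ^ (m + 1) := Nat.mul_le_mul_left β h1

theorem digits_congr {β m : ℕ} {d d' : ℕ → ℕ} (hd : ∀ c ≤ m, d c = d' c) :
    digits β m d = digits β m d' := by
  unfold digits
  refine sum_congr rfl (fun c hc => ?_)
  rw [hd c (Nat.lt_succ_iff.1 (mem_range.1 hc))]

/-- If the first changed digit increases then the number increases. -/
theorem digits_step {β m c : ℕ} {d d' : ℕ → ℕ} (_hβ : 1 < β) (hd : ∀ x ≤ m, d x < β)
    (hc : c ≤ m) (h1 : ∀ x < c, d x = d' x) (h2 : d c + 1 ≤ d' c) :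
    digits β m d + 1 ≤ digits β m d' := by
  induction m with
  | zero =>
    obtain rfl : c = 0 := by omega
    rw [digits_zero, digits_zero]
    exact h2
  | succ m ih =>
    rw [digits_succ, digits_succ]
    rcases Nat.lt_or_ge m c with h3 | h3
    · obtain rfl : c = m + 1 := by omega
      have h4 : digits β m d = digits β m d' := digits_congr (fun x hx => h1 x (by omega))
      rw [h4]
      omega
    · have h4 := ih (fun x hx => hd x (by omega)) h3
      have h5 := hd (m + 1) le_rfl
      have h6 : β * (digits β m d + 1) ≤ β * digits β m d' := Nat.mul_le_mul_left β h4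
      have h7 : β * (digits β m d + 1) = β * digits β m d + β := by ring
      omega

end Pool.Agent.LibPP83
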