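import Pool.Agent.LibPP83.Step1

/-!
A location for a page which few terms read.
-/

namespace Pool.Agent.LibPP83

open Finset Classical

variable {S T R : Type} {p : Par S T R}

namespace Par

theorem loc_mem_tl {i : ℕ} {τ : T} : τ ∈ p.tl i ↔ τ ∈ p.tasks ∧ p.lev τ = i := by
  unfold tl
  rw [mem_filter]

/-- One term reads few locations. -/
theorem loc_one (h : p.Ok) (i : ℕ) (t : Term S) (B : Finset R) :
    (B.filter fun r => p.Reads i r t).card ≤ t.1.card + t.2.card := by
  refine le_trans ?_ (card_union_le t.1 t.2)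
  refine card_le_card_of_forall_subsingleton (fun r z => ∃ κ τ, z = p.pg r κ τ) ?_ ?_
  · intro r hr
    rw [mem_filter] at hr
    obtain ⟨-, κ, τ, -, h2⟩ := hr
    exact ⟨p.pg r κ τ, h2, κ, τ, rfl⟩
  · intro z _ r hr r' hr'
    obtain ⟨-, κ, τ, h2⟩ := hr
    obtain ⟨-, κ', τ', h3⟩ := hr'
    exact (h.pg_inj (h2.symm.trans h3)).1

/-- Double counting. -/
theorem loc_double (i : ℕ) (l : List (Term S)) (B : Finset R) :
    ∑ r ∈ B, (l.filter fun t => p.Reads i r t).length =
      (l.map fun t => (B.filter fun r => p.Reads i r t).card).sum := by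
  induction l with
  | nil => simp
  | cons t l ih =>
    rw [List.map_cons, List.sum_cons, ← ih, card_filter, ← sum_add_distrib]
    refine sum_congr rfl fun r _ => ?_
    rw [List.filter_cons]
    by_cases hr : p.Reads i r t
    · rw [if_pos (by simpa using hr), if_pos hr, List.length_cons, add_comm]
    · rw [if_neg (by simpa using hr), if_neg hr, zero_add]

/-- Few locations are read by many terms of a list. -/
theorem card_loc (h : p.Ok) (i : ℕ) (l : List (Term S)) {a m : ℕ}
    (hl : ∀ t ∈ l, t.1.card + t.2.card ≤ m) (hlen : l.length ≤ a) (B : Finset R) (k : ℕ)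
    (hB : ∀ r ∈ B, k < (l.filter fun t => p.Reads i r t).length) :
    B.card ≤ a * m / (k + 1) := by
  rw [Nat.le_div_iff_mul_le (Nat.succ_pos k)]
  have h1 : B.card * (k + 1) ≤ ∑ r ∈ B, (l.filter fun t => p.Reads i r t).length := by
    rw [← smul_eq_mul]
    exact card_nsmul_le_sum B _ _ fun r hr => hB r hr
  refine h1.trans ?_
  rw [loc_double]
  have h2 : (l.map fun t => (B.filter fun r => p.Reads i r t).card).sum ≤ l.length * m := by
    have h3 : ∀ x ∈ l.map fun t => (B.filter fun r => p.Reads i r t).card, x ≤ m := by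
      intro x hx
      obtain ⟨t, ht, rfl⟩ := List.mem_map.1 hx
      exact (loc_one h i t B).trans (hl t ht)
    have h4 := List.sum_le_card_nsmul _ m h3
    rwa [List.length_map, smul_eq_mul] at h4
  exact h2.trans (Nat.mul_le_mul_right m hlen)

/-- The locations read by many terms of the list of a task at a cell. -/
noncomputable def locBad (p : Par S T R) (s : State S T R) (i c : ℕ) (τ : T) : Finset R :=
  (p.Av i).filter fun r => p.lam i < ((s.F c τ).filter fun t => p.Reads i r t).length

theorem exists_place (h : p.Ok) {s : State S T R} (hs : p.Inv s) {i : ℕ} (hn : p.n ≤ i)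
    (hq : i ≤ p.q) (hw : ¬ p.Right s i) : ∃ r, p.Place s i r := by
  by_contra hcon
  have hcov : p.Av i ⊆ s.U i ∪ (range (p.bp i + 1)).biUnion fun c =>
      (p.tl (p.lv c)).biUnion fun τ => locBad p s i c τ := by
    intro r hr
    rw [mem_union]
    by_cases hu : r ∈ s.U i
    · exact Or.inl hu
    right
    have h1 : ¬ ∀ c ≤ p.bp i, ∀ τ, ((s.F c τ).filter fun t => p.Reads i r t).length ≤ p.lam i :=
      fun h2 => hcon ⟨r, hn, hq, hw, hr, hu, h2⟩
    push Not at h1
    obtain ⟨c, hc, τ, h2⟩ := h1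
    rw [mem_biUnion]
    refine ⟨c, mem_range.2 (by omega), ?_⟩
    rw [mem_biUnion]
    have hτ : τ ∈ p.tl (p.lv c) := by
      by_contra h3
      have h4 : τ ∉ p.Jc s.F c := fun h5 => h3 (Jc_sub h s.F c h5)
      rw [hs.nil c τ h4] at h2
      simp at h2
    refine ⟨τ, hτ, ?_⟩
    unfold locBad
    rw [mem_filter]
    exact ⟨hr, h2⟩
  have hbad : ∀ c ∈ range (p.bp i + 1), ((p.tl (p.lv c)).biUnion fun τ => locBad p s i c τ).card ≤
      p.nt (p.lv c) * (p.A c 3 * p.sz i / (p.lam i + 1)) := by
    intro c hc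
    have hci : p.lv c ≤ i := (h.bp_spec c i).2 (by rw [mem_range] at hc; omega)
    refine (card_biUnion_le_card_mul _ _ (p.A c 3 * p.sz i / (p.lam i + 1)) fun τ hτ => ?_).trans
      (Nat.mul_le_mul_right _ (h.hnt _))
    have hτ' := loc_mem_tl.1 hτ
    refine card_loc h i (s.F c τ) (fun t ht => ?_) (hs.cap c τ) _ _ (fun r hr => ?_)
    · have h1 := h.hD τ hτ'.1 t (hs.mem c τ t ht).1
      rw [hτ'.2] at h1
      exact h1.trans (h.hsz hci)
    · unfold locBad at hr
      rw [mem_filter] at hr
      exact hr.2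
  have h1 := card_le_card hcov
  have h2 := h1.trans (card_union_le _ _)
  have h3 : ((range (p.bp i + 1)).biUnion fun c =>
      (p.tl (p.lv c)).biUnion fun τ => locBad p s i c τ).card ≤
      ∑ c ∈ range (p.bp i + 1), p.nt (p.lv c) * (p.A c 3 * p.sz i / (p.lam i + 1)) :=
    card_biUnion_le.trans (sum_le_sum hbad)
  have h4 : (s.U i).card < p.β i ^ (p.bp i + 1) :=
    lt_of_le_of_lt (hs.budget i) (rk_lt h ⟨hs.nil, hs.cap⟩ hq)
  have h5 := h.loc i hn hq
  omega

end Par

end Pool.Agent.LibPP83
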