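import Pool.Agent.LibPP83.Step1

/-!
A step of the second kind preserves the invariants.
-/

namespace Pool.Agent.LibPP83

open Finset Classical

variable {S T R : Type} {p : Par S T R}

namespace Par

/-- A consistent term which does not read the new page remains consistent. -/
theorem con_st1 {s : State S T R} {i : ℕ} {r : R} {t : Term S} (ht : p.Con s.E t)
    (hr : ¬ p.Reads i r t) : p.Con (p.st1 s i r).E t := by
  refine ⟨fun z hz hf => ?_, fun z hz hf hin => ?_⟩
  · rcases ht.1 z hz hf with h | h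
    · exact Or.inl h
    · exact Or.inr (Or.inl h)
  · rcases hin with h | h | h
    · exact ht.2 z hz hf (Or.inl h)
    · exact ht.2 z hz hf (Or.inr h)
    · obtain ⟨κ, τ, _, hτ, _, rfl⟩ := h
      exact hr ⟨κ, τ, (Finset.mem_filter.1 hτ).2, Finset.mem_union_right _ hz⟩

theorem st1_F_le {s : State S T R} {i : ℕ} {r : R} {c : ℕ} (hc : c ≤ p.bp i) (τ : T) :
    (p.st1 s i r).F c τ = s.F c τ := by
  simp only [st1, if_pos hc]

theorem st1_F_gt {s : State S T R} {i : ℕ} {r : R} {c : ℕ} (hc : ¬ c ≤ p.bp i) (τ : T) :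
    (p.st1 s i r).F c τ = [] := by
  simp only [st1, if_neg hc]

theorem st1_U_self {s : State S T R} {i : ℕ} {r : R} :
    (p.st1 s i r).U i = insert r (s.U i) := by
  simp [st1]

theorem st1_U_ne {s : State S T R} {i : ℕ} {r : R} {j : ℕ} (hj : j ≠ i) :
    (p.st1 s i r).U j = s.U j := by
  simp [st1, hj]

theorem st1_U_sub {s : State S T R} {i : ℕ} {r : R} (j : ℕ) :
    s.U j ⊆ (p.st1 s i r).U j := by
  by_cases hj : j = i
  · subst hj
    rw [st1_U_self]
    exact Finset.subset_insert _ _
  · rw [st1_U_ne hj]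

theorem filter_le_add {α : Type} (P Q W : α → Prop) [DecidablePred P] [DecidablePred Q]
    [DecidablePred W] (hPQ : ∀ x, W x → P x ∨ Q x) (l : List α) :
    (l.filter fun x => decide (W x)).length ≤
      (l.filter fun x => decide (P x)).length + (l.filter fun x => decide (Q x)).length := by
  induction l with
  | nil => simp
  | cons a l ih =>
    simp only [← List.countP_eq_length_filter, List.countP_cons, decide_eq_true_eq] at ih ⊢
    have := hPQ a
    split_ifs <;> first | omega | (exfalso; tauto)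

theorem st1_sum {s : State S T R} {i : ℕ} {r : R} (hp : p.Place s i r) {c : ℕ}
    (hc : p.lv c ≤ i) : ∑ j ∈ Icc (p.lv c) p.q, (s.U j).card * p.lam j + p.lam i ≤
      ∑ j ∈ Icc (p.lv c) p.q, ((p.st1 s i r).U j).card * p.lam j := by
  have hi : i ∈ Icc (p.lv c) p.q := Finset.mem_Icc.2 ⟨hc, hp.hi⟩
  rw [← Finset.add_sum_erase _ _ hi, ← Finset.add_sum_erase _ _ hi, st1_U_self,
    Finset.card_insert_of_notMem hp.new]
  have h2 : ∑ j ∈ (Icc (p.lv c) p.q).erase i, (s.U j).card * p.lam j =
      ∑ j ∈ (Icc (p.lv c) p.q).erase i, ((p.st1 s i r).U j).card * p.lam j := by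
    refine Finset.sum_congr rfl fun j hj => ?_
    rw [st1_U_ne (Finset.ne_of_mem_erase hj)]
  rw [h2, Nat.add_mul, Nat.one_mul]
  omega

theorem inv_st1 (h : p.Ok) {s : State S T R} (hs : p.Inv s) {i : ℕ} {r : R}
    (hp : p.Place s i r) : p.Inv (p.st1 s i r) := by
  have hlv : ∀ c, c ≤ p.bp i → p.lv c ≤ i := fun c hc => (h.bp_spec c i).2 hc
  have hAg : ∀ c, c ≤ p.bp i → p.Agree s.F (p.st1 s i r).F c (p.lv c) := fun c hc =>
    (st1_agree s i r (p.lv c)).mono (by omega)
  have hJ : ∀ c, c ≤ p.bp i → p.Jc s.F c = p.Jc (p.st1 s i r).F c := fun c hc =>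
    Jc_congr h (le_trans (hlv c hc) hp.hi) (hAg c hc)
  have hZ : ∀ c, c ≤ p.bp i → p.Z s.F c = p.Z (p.st1 s i r).F c := fun c hc =>
    Z_congr h (le_trans (hlv c hc) hp.hi) (hAg c hc)
  refine ⟨?_, ?_, ?_, ?_, ?_, ?_, ?_, ?_, ?_⟩
  · -- ones
    intro z hz
    rcases hz with hz | ⟨κ, τ, hκ, hτ, _, hzz⟩
    · obtain ⟨r', κ, τ, hκ, hτ, hr', hzz⟩ := hs.ones z hz
      exact ⟨r', κ, τ, hκ, hτ, st1_U_sub _ hr', hzz⟩
    · have hτ' := Finset.mem_filter.1 hτ
      refine ⟨r, κ, τ, hκ, hτ'.1, ?_, hzz⟩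
      rw [hτ'.2, st1_U_self]
      exact Finset.mem_insert_self _ _
  · -- used
    intro j
    by_cases hj : j = i
    · subst hj
      rw [st1_U_self]
      exact Finset.insert_subset hp.av (hs.used j)
    · rw [st1_U_ne hj]
      exact hs.used j
  · -- usedOut
    intro j hj
    have hji : j ≠ i := by
      intro he
      have h1 := hp.lo
      have h2 := hp.hi
      omega
    rw [st1_U_ne hji]
    exact hs.usedOut j hj
  · -- nil
    intro c τ hτ
    by_cases hc : c ≤ p.bp i
    · rw [st1_F_le hc]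
      rw [← hJ c hc] at hτ
      exact hs.nil c τ hτ
    · exact st1_F_gt hc τ
  · -- mem
    intro c τ t ht
    by_cases hc : c ≤ p.bp i
    · rw [st1_F_le hc] at ht
      rw [← hZ c hc]
      exact hs.mem c τ t ht
    · rw [st1_F_gt hc] at ht
      exact absurd ht (List.not_mem_nil)
  · -- pw
    intro c τ
    by_cases hc : c ≤ p.bp i
    · rw [st1_F_le hc]
      exact hs.pw c τ
    · rw [st1_F_gt hc]
      exact List.Pairwise.nil
  · -- cap
    intro c τ
    by_cases hc : c ≤ p.bp i
    · rw [st1_F_le hc]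
      exact hs.cap c τ
    · rw [st1_F_gt hc]
      exact Nat.zero_le _
  · -- live
    intro c τ
    by_cases hc : c ≤ p.bp i
    · rw [st1_F_le hc]
      have h1 := filter_le_add (fun t => ¬ p.Con s.E t) (fun t => p.Reads i r t)
        (fun t => ¬ p.Con (p.st1 s i r).E t) (by
          intro t ht
          by_contra hcon
          push Not at hcon
          exact ht (con_st1 hcon.1 hcon.2)) (s.F c τ)
      have h2 := hp.few c hc τ
      have h3 := hs.live c τ
      have h4 := st1_sum hp (hlv c hc)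
      calc _ ≤ _ := h1
        _ ≤ _ := Nat.add_le_add h3 h2
        _ ≤ _ := h4
    · rw [st1_F_gt hc]
      exact Nat.zero_le _
  · -- budget
    intro j
    by_cases hj : j = i
    · subst hj
      rw [st1_U_self, Finset.card_insert_of_notMem hp.new]
      exact le_trans (Nat.add_le_add_right (hs.budget j) 1) (rk_st1_lt h hs hp le_rfl hp.hi)
    · rw [st1_U_ne hj]
      rcases Nat.lt_or_ge j i with hlt | hge
      · rw [rk_st1_eq h hs hp hlt]
        exact hs.budget j
      · by_cases hq : j ≤ p.q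
        · exact le_trans (le_trans (hs.budget j) (Nat.le_succ _)) (rk_st1_lt h hs hp hge hq)
        · rw [hs.usedOut j (Or.inr (by omega))]
          exact Nat.zero_le _

end Par

end Pool.Agent.LibPP83
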