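import Pool.Agent.LibPP83.Step2I
import Pool.Agent.LibPP83.Step1I
import Pool.Agent.LibPP83.Loc

/-!
A state in which no step is possible.
-/

namespace Pool.Agent.LibPP83

open Finset Classical

variable {S T R : Type} {p : Par S T R}

namespace Par

/-- The total length of the lists. -/
noncomputable def tot (p : Par S T R) (F : Lists S T) : ℕ :=
  ∑ c ∈ range (p.bp p.q + 1), ∑ τ ∈ p.tasks, (F c τ).length

/-- A bound for it. -/
noncomputable def Lb (p : Par S T R) : ℕ :=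
  ∑ c ∈ range (p.bp p.q + 1), ∑ _τ ∈ p.tasks, p.A c 3

/-- The measure which increases at every step. -/
noncomputable def mu (p : Par S T R) (s : State S T R) : ℕ :=
  p.rk s p.q * (p.Lb + 1) + p.tot s.F

theorem tot_le {s : State S T R} (hs : p.Inv s) : p.tot s.F ≤ p.Lb := by
  unfold tot Lb
  exact Finset.sum_le_sum fun c _ => Finset.sum_le_sum fun τ _ => hs.cap c τ

theorem mu_lt (h : p.Ok) {s : State S T R} (hs : p.Inv s) :
    p.mu s < p.β p.q ^ (p.bp p.q + 1) * (p.Lb + 1) := by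
  have h1 := rk_lt h hs.small (le_refl p.q)
  have h2 := tot_le hs
  unfold mu
  calc p.rk s p.q * (p.Lb + 1) + p.tot s.F < (p.rk s p.q + 1) * (p.Lb + 1) := by
        rw [Nat.add_mul, Nat.one_mul]
        omega
    _ ≤ p.β p.q ^ (p.bp p.q + 1) * (p.Lb + 1) := Nat.mul_le_mul_right _ h1

theorem max_mu_lt {s s' : State S T R} (hs : p.Inv s) (hr : p.rk s p.q + 1 ≤ p.rk s' p.q) :
    p.mu s < p.mu s' := by
  have h2 := tot_le hs
  unfold mu
  calc p.rk s p.q * (p.Lb + 1) + p.tot s.F < (p.rk s p.q + 1) * (p.Lb + 1) := by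
        rw [Nat.add_mul, Nat.one_mul]
        omega
    _ ≤ p.rk s' p.q * (p.Lb + 1) := Nat.mul_le_mul_right _ hr
    _ ≤ p.rk s' p.q * (p.Lb + 1) + p.tot s'.F := Nat.le_add_right _ _

theorem max_u_dvd (h : p.Ok) {i j : ℕ} (hij : i ≤ j) : p.u j ∣ p.u i := by
  induction hij with
  | refl => exact dvd_rfl
  | step _ ih => exact dvd_trans (h.u_dvd _) ih

theorem max_tot (h : p.Ok) {F : Lists S T} {c : ℕ} {τ : T} (t : Term S) (hc : c ≤ p.bp p.q)
    (hτ : τ ∈ p.tasks) (hd : ¬ p.u p.q ∣ (F c τ).length + 1) :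
    p.tot F < p.tot (p.step2 F c τ t) := by
  have hle : ∀ c' ∈ range (p.bp p.q + 1), ∀ τ' ∈ p.tasks,
      (F c' τ').length ≤ (p.step2 F c τ t c' τ').length := by
    intro c' hc' τ' _
    unfold step2
    split_ifs with h1 h2 h3 h4
    · exact le_rfl
    · rw [h2, h3, List.length_append]
      omega
    · rw [h2]
    · exfalso
      have h5 : p.lv c' ≤ p.q := (h.bp_spec c' p.q).2 (by
        have := mem_range.1 hc'
        omega)
      exact hd (dvd_trans (max_u_dvd h h5) h4)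
    · exact le_rfl
  unfold tot
  refine Finset.sum_lt_sum (fun c' hc' => Finset.sum_le_sum (hle c' hc')) ⟨c, ?_, ?_⟩
  · exact mem_range.2 (by omega)
  · refine Finset.sum_lt_sum (hle c (mem_range.2 (by omega))) ⟨τ, hτ, ?_⟩
    have h1 : p.step2 F c τ t c τ = F c τ ++ [t] := by
      unfold step2
      rw [if_neg (lt_irrefl c), if_pos rfl, if_pos rfl]
    rw [h1, List.length_append]
    exact Nat.lt_succ_self _

theorem mu_st2 (h : p.Ok) {s : State S T R} (hs : p.Inv s) {c : ℕ} {τ : T} {t : Term S}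
    (ha : p.Add s c τ t) : p.mu s < p.mu (p.st2 s c τ t) := by
  have hc : c ≤ p.bp p.q := (Jc_le s.F ha.mem).1
  have hτ : τ ∈ p.tasks := (Jc_facts h s.F ha.mem).1
  by_cases hd : p.u p.q ∣ (s.F c τ).length + 1
  · exact max_mu_lt hs (rk_st2_lt h hs ha le_rfl hc hd)
  · have h1 := rk_st2_eq h hs ha (le_refl p.q) (fun hh => hd hh.2)
    have h2 : p.tot s.F < p.tot (p.st2 s c τ t).F := max_tot h t hc hτ hd
    unfold mu
    rw [h1]
    exact Nat.add_lt_add_left h2 _

theorem mu_st1 (h : p.Ok) {s : State S T R} (hs : p.Inv s) {i : ℕ} {r : R}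
    (hp : p.Place s i r) : p.mu s < p.mu (p.st1 s i r) := by
  exact max_mu_lt hs (rk_st1_lt h hs hp hp.hi le_rfl)

theorem inv_init (h : p.Ok) : p.Inv (⟨fun _ => ∅, ∅, fun _ _ => []⟩ : State S T R) := by
  refine ⟨?_, ?_, ?_, ?_, ?_, ?_, ?_, ?_, ?_⟩
  · intro z hz
    exact absurd hz (Set.notMem_empty z)
  · intro j
    exact Finset.empty_subset _
  · intro j _
    rfl
  · intro c τ _
    rfl
  · intro c τ t ht
    exact absurd ht List.not_mem_nil
  · intro c τ
    exact List.Pairwise.nil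
  · intro c τ
    exact Nat.zero_le _
  · intro c τ
    exact Nat.zero_le _
  · intro j
    exact Nat.zero_le _

theorem exists_max (h : p.Ok) : ∃ s : State S T R, p.Inv s ∧
    (∀ i, p.n ≤ i → i ≤ p.q → p.Right s i) ∧ ∀ c τ t, ¬ p.Add s c τ t := by
  obtain ⟨s, hs, hmin⟩ := WellFounded.has_min
    (measure (fun s : State S T R => p.β p.q ^ (p.bp p.q + 1) * (p.Lb + 1) - p.mu s)).wf
    {s | p.Inv s} ⟨_, inv_init h⟩
  have hmax : ∀ s', p.Inv s' → ¬ p.mu s < p.mu s' := by
    intro s' hs' hlt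
    refine hmin s' hs' ?_
    show p.β p.q ^ (p.bp p.q + 1) * (p.Lb + 1) - p.mu s' <
      p.β p.q ^ (p.bp p.q + 1) * (p.Lb + 1) - p.mu s
    have h1 := mu_lt h hs'
    have h2 : p.Inv s := hs
    omega
  refine ⟨s, hs, ?_, ?_⟩
  · intro i hn hq
    by_contra hw
    obtain ⟨r, hp⟩ := exists_place h hs hn hq hw
    exact hmax _ (inv_st1 h hs hp) (mu_st1 h hs hp)
  · intro c τ t ha
    exact hmax _ (inv_st2 h hs ha) (mu_st2 h hs ha)

end Par

end Pool.Agent.LibPP83
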