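import Pool.Agent.LibPP83.New

/-!
The partial oracle after a window is valid.
-/

namespace Pool.Agent.LibPP83

open Finset Classical Pool.Agent.LibNexp Pool.Agent.LibSpec4

variable {en : ℕ → Prog × ℕ} {k : ℕ} {φ : Part} {n q J : ℕ} {E : Set Str} {σ : ℕ × Str → ℕ}
  {Z : Finset Str} {fam : ℕ × Str → List (Term Str)} {κ : ℕ} {ch : ℕ × Str → Term Str}
  {w : ℕ → Str}

theorem new_acc (hV : Valid en k φ n) (hn : J = 0 ∨ 1 ≤ n ∧ J ≤ 2 ^ (n - 1))
    (hc : Choice en k φ n q J E σ Z fam κ ch w) {O : Str → Bool}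
    (hO : (newPart en k φ n q J E σ Z κ ch w).Ext O) {τ : ℕ × Str} (h1 : n ≤ lvl en τ)
    (h2 : lvl en τ ≤ q) : AccN en O τ.1 τ.2 ↔ σ τ ≤ κ := by
  have hw := new_world hV hn hc hO
  have hτ : τ ∈ tasksOf en n q := mem_tasksOf.2 ⟨h1, h2⟩
  constructor
  · intro ha
    by_contra hlt
    obtain ⟨t, ht, hp, hneg⟩ := exists_term ha
    refine Par.world_rej hc.out hw hc.le hτ (not_le.1 hlt) ht ⟨fun z hz => hp z hz, fun z hz h => ?_⟩
    have h' : O z = true := h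
    rw [hneg z hz] at h'
    cases h'
  · intro hle
    obtain ⟨hD, -, hcon, -⟩ := hc.term τ hτ hle
    obtain ⟨ha, hb⟩ := Par.world_acc hw hτ hle hcon
    obtain ⟨-, -, -, hall⟩ := hD
    refine hall O (fun z hz => ha z hz) fun z hz => ?_
    have h3 : ¬ O z = true := hb z hz
    simpa using h3

theorem new_wit (hV : Valid en k φ n) (hn : J = 0 ∨ 1 ≤ n ∧ J ≤ 2 ^ (n - 1))
    (hc : Choice en k φ n q J E σ Z fam κ ch w) {O : Str → Bool}
    (hO : (newPart en k φ n q J E σ Z κ ch w).Ext O) {κ' : ℕ} (h1 : 1 ≤ κ') (h2 : κ' ≤ J) :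
    xs n (κ' - 1) ∈ WitLang O ↔ κ' ≤ κ := by
  obtain ⟨hn1, hJ⟩ : 1 ≤ n ∧ J ≤ 2 ^ (n - 1) := by
    rcases hn with h | h
    · omega
    · exact h
  have hlen : (xs n (κ' - 1)).length = n := length_xs hn1
  constructor
  · rintro ⟨u, hu, hOu⟩
    by_contra hlt
    rw [hlen] at hu
    have hz : xs n (κ' - 1) ++ u ∈ Wk n κ' := mem_Wk.2 ⟨u, hu, rfl⟩
    have hw := new_world hV hn hc hO
    refine hw.high _ (Wk_free hV hn1 hz) ?_ hOu
    show κ < kv n J _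
    rw [kv_eq hJ h1 h2 hz]
    omega
  · intro hle
    obtain ⟨hwk, -, -⟩ := hc.fresh κ' h1 hle
    obtain ⟨u, hu, he⟩ := mem_Wk.1 hwk
    have hY : w κ' ∈ (newPart en k φ n q J E σ Z κ ch w).Y :=
      (mem_newY hV (hn.imp_right And.left) hc).2 (Or.inr (Or.inr (Or.inr ⟨κ', h1, hle, rfl⟩)))
    refine ⟨u, by rw [hlen]; exact hu, ?_⟩
    rw [← he]
    exact (hO _ ((newPart en k φ n q J E σ Z κ ch w).sub hY)).2 hY

end Pool.Agent.LibPP83
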