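import Pool.Agent.LibPP83.New

/-!
The partial oracle after a window is valid.
-/

namespace Pool.Agent.LibPP83

open Finset Classical Pool.Agent.LibNexp Pool.Agent.LibSpec4

variable {en : ℕ → Prog × ℕ} {k : ℕ} {φ : Part} {n q J : ℕ} {E : Set Str} {σ : ℕ × Str → ℕ}
  {Z : Finset Str} {fam : ℕ × Str → List (Term Str)} {κ : ℕ} {ch : ℕ × Str → Term Str}
  {w : ℕ → Str}

/-- Few strings are touched. -/
theorem touched_card (ho : (win en k φ n q J).Out E σ Z fam) (hch : ∀ τ ∈ tasksOf en n q,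
    σ τ ≤ κ → ch τ ∈ Dt en τ) :
    (Z ∪ ((tasksOf en n q).filter fun τ => σ τ ≤ κ).biUnion fun τ =>
      (ch τ).1 ∪ (ch τ).2).card ≤ 2 ^ pz J q := by
  refine (card_union_le _ _).trans (le_trans (add_le_add ?_ ?_) (num_all J q))
  · exact ho.zcard
  · refine card_biUnion_le.trans ?_
    have h1 : ∀ τ ∈ (tasksOf en n q).filter fun τ => σ τ ≤ κ, ((ch τ).1 ∪ (ch τ).2).card ≤ 2 ^ q := by
      intro τ hτ
      obtain ⟨h2, h3⟩ := mem_filter.1 hτ
      have h4 := (hch τ h2 h3).2.1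
      refine (card_union_le _ _).trans (h4.trans ?_)
      exact Nat.pow_le_pow_right (by norm_num) (mem_tasksOf.1 h2).2
    refine (sum_le_sum h1).trans ?_
    rw [sum_const, smul_eq_mul]
    exact Nat.mul_le_mul_right _ ((card_filter_le _ _).trans (card_tasksOf en n q))

/-- The touched strings are short. -/
theorem touched_short (hc : Choice en k φ n q J E σ Z fam κ ch w) {z : Str}
    (hz : z ∈ Z ∨ ∃ τ ∈ tasksOf en n q, σ τ ≤ κ ∧ (z ∈ (ch τ).1 ∨ z ∈ (ch τ).2)) :
    z.length ≤ 2 ^ q := by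
  have key : ∀ τ ∈ tasksOf en n q, ∀ t ∈ Dt en τ, z ∈ t.1 ∨ z ∈ t.2 → z.length ≤ 2 ^ q := by
    intro τ hτ t ht hzt
    exact (ht.2.2.1 z hzt).trans (Nat.pow_le_pow_right (by norm_num) (mem_tasksOf.1 hτ).2)
  rcases hz with hz | ⟨τ, hτ, hσ, hz⟩
  · obtain ⟨τ, hτ, t, ht, h1⟩ := hc.out.zterm z hz
    exact key τ hτ t ht h1
  · exact key τ hτ (ch τ) (hc.term τ hτ hσ).1 hz

theorem new3_pgs_ne_Wk {r : Str} {κ' n' κ₁ : ℕ} {τ : ℕ × Str} : pgs r κ₁ τ ∉ Wk n' κ' := by
  intro h
  obtain ⟨w', -, he⟩ := mem_Wk.1 h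
  unfold pgs xs at he
  rw [List.cons_append] at he
  exact absurd (List.cons.inj he).1 (by decide)

theorem new_few (hV : Valid en k φ n) (hnq : n ≤ q) (hJ : J ≤ 2 * (n + 1) ^ k)
    (hn : J = 0 ∨ 1 ≤ n) (hc : Choice en k φ n q J E σ Z fam κ ch w) :
    ((newPart en k φ n q J E σ Z κ ch w).D.filter fun z =>
      ∃ r κ τ, q + 1 ≤ lvl en τ ∧ z = pgs r κ τ).card ≤ 2 ^ Qk k (q + 1) := by
  have hsub : ((newPart en k φ n q J E σ Z κ ch w).D.filter fun z =>
      ∃ r κ τ, q + 1 ≤ lvl en τ ∧ z = pgs r κ τ) ⊆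
      (φ.D.filter fun z => ∃ r κ τ, n ≤ lvl en τ ∧ z = pgs r κ τ) ∪
      (Z ∪ ((tasksOf en n q).filter fun τ => σ τ ≤ κ).biUnion fun τ =>
        (ch τ).1 ∪ (ch τ).2) := by
    intro z hz
    obtain ⟨hzD, r, κ₁, τ, hτ, hzp⟩ := mem_filter.1 hz
    change z ∈ newD en k φ n q J σ Z κ ch at hzD
    unfold newD at hzD
    rcases mem_union.1 hzD with hzD | hzT
    · rcases mem_union.1 hzD with hzD | hzZ
      · rcases mem_union.1 hzD with hzD | hzW
        · rcases mem_union.1 hzD with hzD | hzP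
          · exact mem_union_left _ (mem_filter.2 ⟨hzD, r, κ₁, τ, by omega, hzp⟩)
          · exfalso
            obtain ⟨r', κ', τ', hτ', -, -, he⟩ := mem_WP.1 hzP
            rw [hzp] at he
            obtain ⟨-, -, rfl⟩ := pgs_injective he
            have := (mem_tasksOf.1 hτ').2
            omega
        · exfalso
          obtain ⟨κ', -, hW⟩ := mem_biUnion.1 hzW
          rw [hzp] at hW
          exact new3_pgs_ne_Wk hW
      · exact mem_union_right _ (mem_union_left _ hzZ)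
    · exact mem_union_right _ (mem_union_right _ hzT)
  refine (card_le_card hsub).trans ((card_union_le _ _).trans ?_)
  refine le_trans (add_le_add hV.few ?_) (num_Q hnq hJ)
  exact touched_card hc.out (fun τ hτ hσ => (hc.term τ hτ hσ).1)

theorem new_short (hV : Valid en k φ n) (hnq : n ≤ q) (hn : J = 0 ∨ 1 ≤ n)
    (hc : Choice en k φ n q J E σ Z fam κ ch w) {z : Str}
    (hz : true :: z ∈ (newPart en k φ n q J E σ Z κ ch w).D) :
    (true :: z).length < q + 1 + 2 ^ (q + 1) := by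
  have h0 : 0 < 2 ^ q := Nat.two_pow_pos q
  have h1 : 2 ^ n ≤ 2 ^ q := Nat.pow_le_pow_right (by norm_num) hnq
  have h2 : 2 ^ (q + 1) = 2 ^ q + 2 ^ q := by rw [pow_succ]; ring
  change true :: z ∈ newD en k φ n q J σ Z κ ch at hz
  unfold newD at hz
  rcases mem_union.1 hz with hz | hzT
  · rcases mem_union.1 hz with hz | hzZ
    · rcases mem_union.1 hz with hz | hzW
      · rcases mem_union.1 hz with hz | hzP
        · have := hV.short z hz
          omega
        · exfalso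
          obtain ⟨r', κ', τ', -, -, -, he⟩ := mem_WP.1 hzP
          unfold pgs at he
          exact absurd (List.cons.inj he).1 (by decide)
      · obtain ⟨κ', hκ', hW⟩ := mem_biUnion.1 hzW
        obtain ⟨w', hw', he⟩ := mem_Wk.1 hW
        rw [he, List.length_append, hw']
        rcases hn with hn | hn
        · subst hn
          have := mem_Icc.1 hκ'
          omega
        · rw [length_xs hn]
          omega
    · have := touched_short hc (Or.inl hzZ)
      omega
  · obtain ⟨τ, hτ, hz'⟩ := mem_biUnion.1 hzT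
    obtain ⟨h3, h4⟩ := mem_filter.1 hτ
    have := touched_short hc (Or.inr ⟨τ, h3, h4, mem_union.1 hz'⟩)
    omega

end Pool.Agent.LibPP83
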