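import Pool.Agent.LibPP83.New2
import Pool.Agent.LibPP83.New3

/-!
The partial oracle after a window is valid.
-/

namespace Pool.Agent.LibPP83

open Finset Classical Pool.Agent.LibNexp Pool.Agent.LibSpec4

variable {en : ℕ → Prog × ℕ} {k : ℕ} {φ : Part} {n q J : ℕ} {E : Set Str} {σ : ℕ × Str → ℕ}
  {Z : Finset Str} {fam : ℕ × Str → List (Term Str)} {κ : ℕ} {ch : ℕ × Str → Term Str}
  {w : ℕ → Str}

theorem new_valid (hV : Valid en k φ n) (hnq : n ≤ q) (hJ : J ≤ 2 * (n + 1) ^ k)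
    (hn : J = 0 ∨ 1 ≤ n ∧ J ≤ 2 ^ (n - 1)) (hc : Choice en k φ n q J E σ Z fam κ ch w) :
    Valid en k (newPart en k φ n q J E σ Z κ ch w) (q + 1) := by
  have hn' : J = 0 ∨ 1 ≤ n := hn.imp_right And.left
  have hle := new_le hV hn' hc
  refine ⟨?_, ?_, ?_, ?_⟩
  · intro τ hτ O O' hO hO' hacc
    by_cases h : lvl en τ < n
    · exact hV.dec τ h O O' (hle.ext hO) (hle.ext hO') hacc
    · have h1 : n ≤ lvl en τ := not_lt.1 h
      have h2 : lvl en τ ≤ q := Nat.lt_succ_iff.1 hτ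
      exact (new_acc hV hn hc hO' h1 h2).2 ((new_acc hV hn hc hO h1 h2).1 hacc)
  · intro i hi
    by_cases h : i < n
    · obtain ⟨κ', hκ', r, hr, h1⟩ := hV.page i h
      exact ⟨κ', hκ', r, hr, fun O hO => h1 O (hle.ext hO)⟩
    · have h1 : n ≤ i := not_lt.1 h
      have h2 : i ≤ q := Nat.lt_succ_iff.1 hi
      obtain ⟨r, hr, h3⟩ := hc.out.pages i h1 h2
      have hr' : r ∈ (strs (ell k i)).filter
          (fun r => ∀ κ' τ', lvl en τ' = i → pgs r κ' τ' ∉ φ.D) := hr
      rw [mem_filter] at hr'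
      refine ⟨κ, ?_, r, mem_strs.1 hr'.1, ?_⟩
      · refine hc.le.trans (hJ.trans ?_)
        exact Nat.mul_le_mul_left 2 (Nat.pow_le_pow_left (by omega) k)
      · intro O hO τ hτ
        have hτt : τ ∈ tasksOf en n q := mem_tasksOf.2 (by rw [hτ]; exact ⟨h1, h2⟩)
        have hWP : pgs r κ τ ∈ WP en k n q J :=
          mem_WP.2 ⟨r, κ, τ, hτt, hc.le, by rw [hτ]; exact mem_strs.1 hr'.1, rfl⟩
        have hnf : pgs r κ τ ∉ (win en k φ n q J).Free := fun hf => hf.2 hWP
        have h4 := hO (pgs r κ τ) (new_WP_mem hWP)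
        have h5 := mem_newY_of_not_free hV hn' hc hnf
        have h6 : pgs r κ τ ∈ E ↔ σ τ ≤ κ := by
          refine h3 κ hc.le τ ?_
          unfold Par.tl
          rw [mem_filter]
          exact ⟨hτt, hτ⟩
        have h7 := new_acc hV hn hc hO (τ := τ) (by rw [hτ]; exact h1) (by rw [hτ]; exact h2)
        rw [h4, h5, h7, ← h6]
        constructor
        · rintro (h8 | h8)
          · exact absurd (φ.sub h8) (hr'.2 κ τ hτ)
          · exact h8
        · exact Or.inr
  · exact new_few hV hnq hJ hn' hc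
  · intro z hz
    exact new_short hV hnq hn' hc hz

end Pool.Agent.LibPP83
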