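import Pool.Agent.LibPP83.Cells

/-!
The thresholds, units and bases: exponents.
-/

namespace Pool.Agent.LibPP83

open Finset

/-- Exponent of the ratio of consecutive thresholds of the cells of level `i`. -/
def gg (J i : ℕ) : ℕ := off J (i + 1) + 3 * i + 10

/-- Bound for the difference of the exponents of the first threshold and the unit. -/
def Gam (J i : ℕ) : ℕ := 4 * (off J (i + 1) * gg J i)

/-- Exponent of the number of pages used. -/
def la (J i : ℕ) : ℕ := (Gam J i + 2 * i + 3) * off J (i + 1)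

/-- The last exponent. -/
def vs (J q : ℕ) : ℕ := off J (q + 1) + 6 * q + 12 + la J q

/-- The exponent at a cell. -/
noncomputable def gam (J q c : ℕ) : ℕ :=
  vs J q + 4 * ∑ c' ∈ Ico c (off J (q + 1)), gg J (lvc J c')

noncomputable def AA (J q c s : ℕ) : ℕ := 2 ^ (gam J q (c + 1) + s * gg J (lvc J c))

noncomputable def uu (J q j : ℕ) : ℕ := 2 ^ gam J q (off J (j + 1))

def be (J j : ℕ) : ℕ := 2 ^ (Gam J j + 2 * j + 3)

noncomputable def lm (J q j : ℕ) : ℕ := 2 ^ (gam J q (off J (j + 1)) - la J j)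

/-- Exponent of the number of locations excluded by the lists. -/
def hh (J i : ℕ) : ℕ := la J i + Gam J i + off J (i + 1) + 5 * i + 10

/-- Exponent of the number of strings touched in a window. -/
def pz (J q : ℕ) : ℕ := vs J q + Gam J q + off J (q + 1) + 4 * q + 8

/-- Exponent of the number of page strings touched before a window. -/
def Qk (k n : ℕ) : ℕ := pz (2 * (n + 1) ^ k) n + n

/-- Length of the locations. -/
def ell (k i : ℕ) : ℕ := hh (2 * (i + 1) ^ k) i + Qk k i + 3

theorem gam_anti (J q : ℕ) : Antitone (gam J q) := by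
  intro c c' hcc
  unfold gam
  have : ∑ x ∈ Ico c' (off J (q + 1)), gg J (lvc J x) ≤
      ∑ x ∈ Ico c (off J (q + 1)), gg J (lvc J x) :=
    Finset.sum_le_sum_of_subset (Finset.Ico_subset_Ico_left hcc)
  omega

theorem lt_off_of_lvc_le {J c q : ℕ} (hc : lvc J c ≤ q) : c < off J (q + 1) := by
  have h1 := lvc_le.mp hc
  have h2 := off_succ_pos J q
  omega

theorem gam_succ {J q c : ℕ} (hc : lvc J c ≤ q) :
    gam J q c = gam J q (c + 1) + 4 * gg J (lvc J c) := by
  unfold gam
  rw [Finset.sum_eq_sum_Ico_succ_bot (lt_off_of_lvc_le hc)]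
  omega

theorem vs_le (J q c : ℕ) : vs J q ≤ gam J q c := by
  unfold gam
  omega

theorem off_mono₂ {J J' i i' : ℕ} (hJ : J ≤ J') (hi : i ≤ i') : off J i ≤ off J' i' := by
  refine le_trans ?_ (off_mono J' hi)
  unfold off
  refine Finset.sum_le_sum fun l _ => ?_
  unfold bs
  have : (J + 1) * (2 * l + 2) ≤ (J' + 1) * (2 * l + 2) := Nat.mul_le_mul_right _ (by omega)
  omega

theorem gg_mono {J J' i i' : ℕ} (hJ : J ≤ J') (hi : i ≤ i') : gg J i ≤ gg J' i' := by
  unfold gg
  have := off_mono₂ hJ (show i + 1 ≤ i' + 1 by omega)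
  omega

theorem Gam_mono {J J' i i' : ℕ} (hJ : J ≤ J') (hi : i ≤ i') : Gam J i ≤ Gam J' i' := by
  unfold Gam
  exact Nat.mul_le_mul_left _ (Nat.mul_le_mul (off_mono₂ hJ (by omega)) (gg_mono hJ hi))

theorem la_mono {J J' i i' : ℕ} (hJ : J ≤ J') (hi : i ≤ i') : la J i ≤ la J' i' := by
  unfold la
  have := Gam_mono hJ hi
  exact Nat.mul_le_mul (by omega) (off_mono₂ hJ (by omega))

/-- All exponents are monotone. -/
theorem exps_mono {J J' i i' : ℕ} (hJ : J ≤ J') (hi : i ≤ i') : off J i ≤ off J' i' ∧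
    Gam J i ≤ Gam J' i' ∧ la J i ≤ la J' i' ∧ vs J i ≤ vs J' i' ∧ hh J i ≤ hh J' i' ∧
    pz J i ≤ pz J' i' := by
  have h1 := off_mono₂ hJ (show i + 1 ≤ i' + 1 by omega)
  have h2 := Gam_mono hJ hi
  have h3 := la_mono hJ hi
  have h4 : vs J i ≤ vs J' i' := by
    unfold vs
    omega
  refine ⟨off_mono₂ hJ hi, h2, h3, h4, ?_, ?_⟩
  · unfold hh
    omega
  · unfold pz
    omega

theorem la_le {J q j : ℕ} (hj : j ≤ q) : la J j ≤ gam J q (off J (j + 1)) := by
  refine le_trans ?_ (vs_le J q _)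
  have := la_mono (le_refl J) hj
  unfold vs
  omega

/-- Total descent over the cells of the levels up to `j`. -/
theorem gam_zero_le {J q j : ℕ} (hj : j ≤ q) :
    gam J q 0 ≤ gam J q (off J (j + 1)) + Gam J j := by
  have h1 : off J (j + 1) ≤ off J (q + 1) := off_mono J (by omega)
  have h2 := Finset.sum_Ico_consecutive (fun x => gg J (lvc J x)) (Nat.zero_le (off J (j + 1))) h1
  have h3 : ∑ x ∈ Ico 0 (off J (j + 1)), gg J (lvc J x) ≤ off J (j + 1) * gg J j := by
    have h4 : ∀ x ∈ Ico 0 (off J (j + 1)), gg J (lvc J x) ≤ gg J j := by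
      intro x hx
      rw [Finset.mem_Ico] at hx
      exact gg_mono (le_refl J) (lvc_le.mpr (by omega))
    have h5 := Finset.sum_le_card_nsmul _ _ _ h4
    rw [Nat.card_Ico, Nat.sub_zero, smul_eq_mul] at h5
    exact h5
  unfold gam Gam
  rw [← h2]
  omega

theorem AA_le {J q c : ℕ} (hc : lvc J c ≤ q) : AA J q c 3 ≤ 2 ^ gam J q 0 := by
  unfold AA
  refine Nat.pow_le_pow_right (by omega) ?_
  have h1 := gam_succ hc
  have h2 := gam_anti J q (Nat.zero_le c)
  omega

end Pool.Agent.LibPP83
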