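import Pool.Agent.LibPP83.Num

/-!
The inequalities for the window.
-/

namespace Pool.Agent.LibPP83

open Finset

theorem AA_le_mul {J q i c : ℕ} (hi : i ≤ q) (hc : lvc J c ≤ q) :
    AA J q c 3 ≤ 2 ^ (gam J q (off J (i + 1)) + Gam J i) :=
  le_trans (AA_le hc) (Nat.pow_le_pow_right (by omega) (gam_zero_le hi))

theorem num_loc_term {J q i c : ℕ} (hi : i ≤ q) (hc : c ≤ off J (i + 1) - 1) :
    2 ^ (2 * lvc J c + 1) * (AA J q c 3 * 2 ^ i / (lm J q i + 1)) ≤
      2 ^ (Gam J i + 3 * i + 1 + la J i) := by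
  have hl : lvc J c ≤ i := lvc_le.mpr hc
  have h1 : AA J q c 3 * 2 ^ i ≤ (lm J q i + 1) * 2 ^ (la J i + Gam J i + i) := by
    have h2 := la_le (J := J) hi
    have h3 : 2 ^ (gam J q (off J (i + 1)) + Gam J i) * 2 ^ i =
        lm J q i * 2 ^ (la J i + Gam J i + i) := by
      unfold lm
      rw [← Nat.pow_add, ← Nat.pow_add]
      congr 1
      omega
    calc AA J q c 3 * 2 ^ i ≤ 2 ^ (gam J q (off J (i + 1)) + Gam J i) * 2 ^ i :=
          Nat.mul_le_mul_right _ (AA_le_mul hi (by omega))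
      _ = lm J q i * 2 ^ (la J i + Gam J i + i) := h3
      _ ≤ (lm J q i + 1) * 2 ^ (la J i + Gam J i + i) := Nat.mul_le_mul_right _ (by omega)
  have h4 : AA J q c 3 * 2 ^ i / (lm J q i + 1) ≤ 2 ^ (la J i + Gam J i + i) :=
    Nat.div_le_of_le_mul h1
  calc 2 ^ (2 * lvc J c + 1) * (AA J q c 3 * 2 ^ i / (lm J q i + 1)) ≤
        2 ^ (2 * i + 1) * 2 ^ (la J i + Gam J i + i) :=
          Nat.mul_le_mul (Nat.pow_le_pow_right (by omega) (by omega)) h4
    _ = 2 ^ (Gam J i + 3 * i + 1 + la J i) := by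
      rw [← Nat.pow_add]
      congr 1
      omega

theorem num_loc {J q i : ℕ} (hi : i ≤ q) :
    be J i ^ (off J (i + 1) - 1 + 1) + ∑ c ∈ range (off J (i + 1) - 1 + 1),
      2 ^ (2 * lvc J c + 1) * (AA J q c 3 * 2 ^ i / (lm J q i + 1)) ≤ 2 ^ (hh J i) := by
  have h1 := off_succ_pos J i
  have h2 : ∑ c ∈ range (off J (i + 1) - 1 + 1),
      2 ^ (2 * lvc J c + 1) * (AA J q c 3 * 2 ^ i / (lm J q i + 1)) ≤
      (off J (i + 1)) * 2 ^ (Gam J i + 3 * i + 1 + la J i) := by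
    have h3 : ∀ c ∈ range (off J (i + 1) - 1 + 1),
        2 ^ (2 * lvc J c + 1) * (AA J q c 3 * 2 ^ i / (lm J q i + 1)) ≤
        2 ^ (Gam J i + 3 * i + 1 + la J i) := by
      intro c hc
      rw [Finset.mem_range] at hc
      exact num_loc_term hi (by omega)
    have h4 := Finset.sum_le_card_nsmul _ _ _ h3
    rw [Finset.card_range, smul_eq_mul] at h4
    refine le_trans h4 (le_of_eq ?_)
    congr 1
    omega
  have h5 : off J (i + 1) * 2 ^ (Gam J i + 3 * i + 1 + la J i) ≤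
      2 ^ (off J (i + 1) + (Gam J i + 3 * i + 1 + la J i)) := by
    rw [Nat.pow_add 2 (off J (i + 1)) (Gam J i + 3 * i + 1 + la J i)]
    exact Nat.mul_le_mul_right _ Nat.lt_two_pow_self.le
  have h6 : be J i ^ (off J (i + 1) - 1 + 1) = 2 ^ la J i := by
    unfold be
    rw [Nat.sub_add_cancel h1, ← Nat.pow_mul]
    rfl
  rw [h6]
  have h7 : 2 ^ la J i ≤ 2 ^ (hh J i - 1) := by
    refine Nat.pow_le_pow_right (by omega) ?_
    unfold hh
    omega
  have h8 : 2 ^ (off J (i + 1) + (Gam J i + 3 * i + 1 + la J i)) ≤ 2 ^ (hh J i - 1) := by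
    refine Nat.pow_le_pow_right (by omega) ?_
    unfold hh
    omega
  have h9 : 2 ^ hh J i = 2 ^ (hh J i - 1) * 2 := by
    have h10 : 1 ≤ hh J i := by
      unfold hh
      omega
    rw [← Nat.pow_succ, Nat.succ_eq_add_one, Nat.sub_add_cancel h10]
  omega

theorem gam_step {J q x : ℕ} (hx : x < q) :
    gam J q (off J (x + 1 + 1)) + 1 ≤ gam J q (off J (x + 1)) := by
  have h1 : off J (x + 1) < off J (x + 1 + 1) := by
    have := off_succ J (x + 1)
    have := bs_pos J (x + 1)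
    omega
  have h2 : lvc J (off J (x + 1)) = x + 1 := lvc_unique (le_refl _) h1
  have h3 := gam_succ (J := J) (q := q) (c := off J (x + 1)) (by omega)
  have h4 := gam_anti J q (show off J (x + 1) + 1 ≤ off J (x + 1 + 1) by omega)
  have h5 : 10 ≤ gg J (lvc J (off J (x + 1))) := by
    unfold gg
    omega
  omega

theorem num_loss {J q c : ℕ} (hc : lvc J c ≤ q) :
    8 * ∑ j ∈ Icc (lvc J c) q, be J j ^ (off J (j + 1) - 1 + 1) * lm J q j ≤ AA J q c 1 := by
  have h1 : ∑ j ∈ Icc (lvc J c) q, be J j ^ (off J (j + 1) - 1 + 1) * lm J q j =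
      ∑ j ∈ Icc (lvc J c) q, 2 ^ gam J q (off J (j + 1)) := by
    refine Finset.sum_congr rfl fun j hj => ?_
    rw [Finset.mem_Icc] at hj
    rw [be_pow hj.2]
    rfl
  have h2 : ∑ j ∈ Icc (lvc J c) q, 2 ^ gam J q (off J (j + 1)) ≤
      2 ^ (gam J q (off J (lvc J c + 1)) + 1) :=
    sum_pow_le (e := fun j => gam J q (off J (j + 1))) fun x _ hx => gam_step hx
  have h3 := lvc_spec J c
  have h4 := gam_anti J q (show c + 1 ≤ off J (lvc J c + 1) by omega)
  have h5 : 10 ≤ gg J (lvc J c) := by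
    unfold gg
    omega
  rw [h1]
  calc 8 * ∑ j ∈ Icc (lvc J c) q, 2 ^ gam J q (off J (j + 1)) ≤
        2 ^ 3 * 2 ^ (gam J q (off J (lvc J c + 1)) + 1) := Nat.mul_le_mul (le_refl _) h2
    _ = 2 ^ (3 + (gam J q (off J (lvc J c + 1)) + 1)) := (Nat.pow_add _ _ _).symm
    _ ≤ AA J q c 1 := by
      unfold AA
      refine Nat.pow_le_pow_right (by omega) ?_
      omega

end Pool.Agent.LibPP83
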