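import Pool.Agent.LibPP83.Num

/-!
The inequalities for the window.
-/

namespace Pool.Agent.LibPP83

open Finset

/-- The strings of later cells. -/
theorem num_later {J q c : ℕ} (hc : lvc J c ≤ q) :
    ∑ c' ∈ Ioc c (off J (q + 1) - 1), 2 ^ (2 * lvc J c' + 1) *
      (AA J q c' 3 * 2 ^ lvc J c') ≤ 2 ^ gam J q (c + 1) := by
  set b := off J (q + 1) - 1 with hb
  set e : ℕ → ℕ := fun x => gam J q (x + 1) + 3 * gg J (lvc J x) + 3 * lvc J x + 1 with he
  have h1 : ∑ c' ∈ Ioc c b, 2 ^ (2 * lvc J c' + 1) * (AA J q c' 3 * 2 ^ lvc J c') =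
      ∑ x ∈ Icc (c + 1) b, 2 ^ e x := by
    have hI : Ioc c b = Icc (c + 1) b := by
      ext x
      simp only [mem_Ioc, mem_Icc]
      omega
    rw [hI]
    refine sum_congr rfl (fun x _ => ?_)
    unfold AA
    rw [← pow_add, ← pow_add]
    congr 1
    simp only [he]
    ring
  rw [h1]
  rcases Nat.lt_or_ge b (c + 1) with h2 | h2
  · rw [Icc_eq_empty (by omega), sum_empty]
    exact Nat.zero_le _
  · have h3 : ∀ x, c + 1 ≤ x → x < b → e (x + 1) + 1 ≤ e x := by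
      intro x _ hxb
      have h4 : lvc J (x + 1) ≤ q := lvc_le.2 (by omega)
      have h5 := gam_succ h4
      have h6 : 3 * lvc J (x + 1) + 10 ≤ gg J (lvc J (x + 1)) := by
        unfold gg
        omega
      simp only [he]
      omega
    refine (sum_pow_le h3).trans ?_
    apply Nat.pow_le_pow_right (by norm_num)
    have h4 : lvc J (c + 1) ≤ q := lvc_le.2 (by omega)
    have h5 := gam_succ h4
    have h6 : 3 * lvc J (c + 1) + 10 ≤ gg J (lvc J (c + 1)) := by
      unfold gg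
      omega
    simp only [he]
    omega

theorem num3_sum {s : Finset ℕ} {f : ℕ → ℕ} {a x y : ℕ} (hs : s.card ≤ a)
    (hf : ∀ c ∈ s, f c ≤ 2 ^ x) (hy : a + x ≤ y) : ∑ c ∈ s, f c ≤ 2 ^ y := by
  calc ∑ c ∈ s, f c ≤ ∑ c ∈ s, 2 ^ x := sum_le_sum hf
    _ = s.card * 2 ^ x := by rw [sum_const, smul_eq_mul]
    _ ≤ 2 ^ a * 2 ^ x := Nat.mul_le_mul_right _ (hs.trans Nat.lt_two_pow_self.le)
    _ = 2 ^ (a + x) := (pow_add 2 a x).symm
    _ ≤ 2 ^ y := Nat.pow_le_pow_right (by norm_num) hy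

theorem num_zero {J q c : ℕ} (hc : lvc J c ≤ q) {s : ℕ} (hs : s = 1 ∨ s = 2) :
    8 * (∑ c' ∈ range c, 2 ^ (2 * lvc J c' + 1) * (uu J q (lvc J c) * 2 ^ lvc J c') +
      2 ^ (2 * lvc J c + 1) * (AA J q c s * 2 ^ lvc J c) +
      ∑ c' ∈ Ioc c (off J (q + 1) - 1), 2 ^ (2 * lvc J c' + 1) *
        (AA J q c' 3 * 2 ^ lvc J c') +
      ∑ c' ∈ Icc c (off J (q + 1) - 1), 2 ^ (2 * lvc J c' + 1) *
        (2 ^ (3 * q + 3) * 2 ^ lvc J c')) ≤ AA J q c (s + 1) := by
  set i := lvc J c with hi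
  have hspec := lvc_spec J c
  rw [← hi] at hspec
  set X := gam J q (c + 1) + s * gg J i + off J (i + 1) + 3 * i + 1 with hX
  have g1 : ∑ c' ∈ range c, 2 ^ (2 * lvc J c' + 1) * (uu J q i * 2 ^ lvc J c') ≤ 2 ^ X := by
    apply num3_sum (a := off J (i + 1)) (x := gam J q (c + 1) + 3 * i + 1)
    · rw [card_range]
      omega
    · intro c' hc'
      have hc'' := mem_range.1 hc'
      have h1 : lvc J c' ≤ i := lvc_le.2 (by omega)
      have h2 : gam J q (off J (i + 1)) ≤ gam J q (c + 1) := gam_anti J q (by omega)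
      unfold uu
      rw [← pow_add, ← pow_add]
      exact Nat.pow_le_pow_right (by norm_num) (by omega)
    · rw [hX]
      have : 0 ≤ s * gg J i := Nat.zero_le _
      omega
  have g2 : 2 ^ (2 * i + 1) * (AA J q c s * 2 ^ i) ≤ 2 ^ X := by
    unfold AA
    rw [← hi, ← pow_add, ← pow_add]
    exact Nat.pow_le_pow_right (by norm_num) (by omega)
  have g3 : ∑ c' ∈ Ioc c (off J (q + 1) - 1), 2 ^ (2 * lvc J c' + 1) *
      (AA J q c' 3 * 2 ^ lvc J c') ≤ 2 ^ X :=
    (num_later (hi ▸ hc)).trans (Nat.pow_le_pow_right (by norm_num) (by omega))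
  have g4 : ∑ c' ∈ Icc c (off J (q + 1) - 1), 2 ^ (2 * lvc J c' + 1) *
      (2 ^ (3 * q + 3) * 2 ^ lvc J c') ≤ 2 ^ X := by
    apply num3_sum (a := off J (q + 1)) (x := 6 * q + 4)
    · rw [Nat.card_Icc]
      have h1 : 1 ≤ off J (q + 1) := (Nat.succ_le_succ (Nat.zero_le q)).trans (le_off J (q + 1))
      omega
    · intro c' hc'
      have hc'' := (mem_Icc.1 hc').2
      have h1 : lvc J c' ≤ q := lvc_le.2 hc''
      rw [← pow_add, ← pow_add]
      exact Nat.pow_le_pow_right (by norm_num) (by omega)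
    · have h1 := vs_le J q (c + 1)
      unfold vs at h1
      rw [hX]
      omega
  have g5 : 8 * (2 ^ X + 2 ^ X + 2 ^ X + 2 ^ X) ≤ AA J q c (s + 1) := by
    have e1 : 8 * (2 ^ X + 2 ^ X + 2 ^ X + 2 ^ X) = 2 ^ (X + 5) := by
      rw [pow_add]
      ring
    rw [e1]
    unfold AA
    rw [← hi]
    apply Nat.pow_le_pow_right (by norm_num)
    have e2 : (s + 1) * gg J i = s * gg J i + gg J i := by ring
    rw [e2, hX]
    have e3 : gg J i = off J (i + 1) + 3 * i + 10 := rfl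
    omega
  refine le_trans ?_ g5
  apply Nat.mul_le_mul_left
  exact add_le_add (add_le_add (add_le_add g1 g2) g3) g4

end Pool.Agent.LibPP83
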