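import Pool.Agent.LibPP83.Num

/-!
The inequalities for the window.
-/

namespace Pool.Agent.LibPP83

open Finset

theorem gam_last (J q : ℕ) : gam J q (off J (q + 1)) = vs J q := by
  unfold gam
  rw [Finset.Ico_self, Finset.sum_empty, Nat.mul_zero, Nat.add_zero]

theorem num_all_term {J q c : ℕ} (hc : c ≤ off J (q + 1) - 1) :
    2 ^ (2 * lvc J c + 1) * ((AA J q c 3 + 2 ^ (3 * q + 3)) * 2 ^ lvc J c) ≤
      2 ^ (vs J q + Gam J q + 1 + 3 * q + 1) := by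
  have hl : lvc J c ≤ q := lvc_le.mpr hc
  have h1 : AA J q c 3 ≤ 2 ^ (vs J q + Gam J q) := by
    refine le_trans (AA_le hl) (Nat.pow_le_pow_right (by omega) ?_)
    rw [← gam_last]
    exact gam_zero_le (le_refl q)
  have h2 : 2 ^ (3 * q + 3) ≤ 2 ^ (vs J q + Gam J q) := by
    refine Nat.pow_le_pow_right (by omega) ?_
    unfold vs
    omega
  have h3 : AA J q c 3 + 2 ^ (3 * q + 3) ≤ 2 ^ (vs J q + Gam J q + 1) := by
    rw [Nat.pow_succ 2 (vs J q + Gam J q)]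
    omega
  have h4 : (AA J q c 3 + 2 ^ (3 * q + 3)) * 2 ^ lvc J c ≤
      2 ^ (vs J q + Gam J q + 1) * 2 ^ q :=
    Nat.mul_le_mul h3 (Nat.pow_le_pow_right (by omega) hl)
  calc 2 ^ (2 * lvc J c + 1) * ((AA J q c 3 + 2 ^ (3 * q + 3)) * 2 ^ lvc J c) ≤
        2 ^ (2 * q + 1) * (2 ^ (vs J q + Gam J q + 1) * 2 ^ q) :=
          Nat.mul_le_mul (Nat.pow_le_pow_right (by omega) (by omega)) h4
    _ = 2 ^ (vs J q + Gam J q + 1 + 3 * q + 1) := by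
      rw [← Nat.pow_add, ← Nat.pow_add]
      congr 1
      omega

/-- All strings touched in a window. -/
theorem num_all (J q : ℕ) :
    ∑ c ∈ range (off J (q + 1) - 1 + 1), 2 ^ (2 * lvc J c + 1) *
      ((AA J q c 3 + 2 ^ (3 * q + 3)) * 2 ^ lvc J c) + 2 ^ (2 * q + 1) * 2 ^ q ≤
      2 ^ pz J q := by
  have h1 := off_succ_pos J q
  have h2 : ∑ c ∈ range (off J (q + 1) - 1 + 1), 2 ^ (2 * lvc J c + 1) *
      ((AA J q c 3 + 2 ^ (3 * q + 3)) * 2 ^ lvc J c) ≤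
      off J (q + 1) * 2 ^ (vs J q + Gam J q + 1 + 3 * q + 1) := by
    have h3 : ∀ c ∈ range (off J (q + 1) - 1 + 1), 2 ^ (2 * lvc J c + 1) *
        ((AA J q c 3 + 2 ^ (3 * q + 3)) * 2 ^ lvc J c) ≤
        2 ^ (vs J q + Gam J q + 1 + 3 * q + 1) := by
      intro c hc
      rw [Finset.mem_range] at hc
      exact num_all_term (by omega)
    have h4 := Finset.sum_le_card_nsmul _ _ _ h3
    rw [Finset.card_range, smul_eq_mul, Nat.sub_add_cancel h1] at h4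
    rw [Nat.sub_add_cancel h1]
    exact h4
  have h5 : off J (q + 1) * 2 ^ (vs J q + Gam J q + 1 + 3 * q + 1) ≤
      2 ^ (off J (q + 1) + (vs J q + Gam J q + 1 + 3 * q + 1)) := by
    rw [Nat.pow_add 2 (off J (q + 1)) (vs J q + Gam J q + 1 + 3 * q + 1)]
    exact Nat.mul_le_mul_right _ Nat.lt_two_pow_self.le
  have h6 : 2 ^ (off J (q + 1) + (vs J q + Gam J q + 1 + 3 * q + 1)) ≤ 2 ^ (pz J q - 1) := by
    refine Nat.pow_le_pow_right (by omega) ?_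
    unfold pz
    omega
  have h7 : 2 ^ (2 * q + 1) * 2 ^ q ≤ 2 ^ (pz J q - 1) := by
    rw [← Nat.pow_add]
    refine Nat.pow_le_pow_right (by omega) ?_
    unfold pz
    omega
  have h8 : 2 ^ pz J q = 2 ^ (pz J q - 1) * 2 := by
    have h9 : 1 ≤ pz J q := by
      unfold pz
      omega
    rw [← Nat.pow_succ, Nat.succ_eq_add_one, Nat.sub_add_cancel h9]
  omega

theorem num_Q {k n q J : ℕ} (hnq : n ≤ q) (hJ : J ≤ 2 * (n + 1) ^ k) :
    2 ^ Qk k n + 2 ^ pz J q ≤ 2 ^ Qk k (q + 1) := by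
  have h1 : 2 * (n + 1) ^ k ≤ 2 * (q + 1 + 1) ^ k :=
    Nat.mul_le_mul_left _ (Nat.pow_le_pow_left (by omega) k)
  have h2 : pz (2 * (n + 1) ^ k) n ≤ pz (2 * (q + 1 + 1) ^ k) (q + 1) :=
    (exps_mono h1 (show n ≤ q + 1 by omega)).2.2.2.2.2
  have h3 : pz J q ≤ pz (2 * (q + 1 + 1) ^ k) (q + 1) :=
    (exps_mono (le_trans hJ h1) (show q ≤ q + 1 by omega)).2.2.2.2.2
  have h4 : 2 ^ Qk k n ≤ 2 ^ (pz (2 * (q + 1 + 1) ^ k) (q + 1) + q) := by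
    refine Nat.pow_le_pow_right (by omega) ?_
    unfold Qk
    omega
  have h5 : 2 ^ pz J q ≤ 2 ^ (pz (2 * (q + 1 + 1) ^ k) (q + 1) + q) :=
    Nat.pow_le_pow_right (by omega) (by omega)
  have h6 : 2 ^ Qk k (q + 1) = 2 ^ (pz (2 * (q + 1 + 1) ^ k) (q + 1) + q) * 2 := by
    rw [← Nat.pow_succ]
    rfl
  omega

theorem num_ell {k n i J : ℕ} (hni : n ≤ i) (hJ : J ≤ 2 * (n + 1) ^ k) :
    2 ^ hh J i + 2 ^ Qk k n < 2 ^ ell k i := by
  have h1 : 2 * (n + 1) ^ k ≤ 2 * (i + 1) ^ k :=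
    Nat.mul_le_mul_left _ (Nat.pow_le_pow_left (by omega) k)
  have h2 : hh J i ≤ hh (2 * (i + 1) ^ k) i :=
    (exps_mono (le_trans hJ h1) (le_refl i)).2.2.2.2.1
  have h3 : Qk k n ≤ Qk k i := by
    unfold Qk
    have := (exps_mono h1 hni).2.2.2.2.2
    omega
  have h4 : 2 ^ hh J i ≤ 2 ^ (hh (2 * (i + 1) ^ k) i + Qk k i) :=
    Nat.pow_le_pow_right (by omega) (by omega)
  have h5 : 2 ^ Qk k n ≤ 2 ^ (hh (2 * (i + 1) ^ k) i + Qk k i) :=
    Nat.pow_le_pow_right (by omega) (by omega)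
  have h6 : 2 ^ ell k i = 2 ^ (hh (2 * (i + 1) ^ k) i + Qk k i) * 2 ^ 3 := by
    unfold ell
    rw [Nat.pow_add]
  have h7 : 0 < 2 ^ (hh (2 * (i + 1) ^ k) i + Qk k i) := Nat.pow_pos (by omega)
  omega

end Pool.Agent.LibPP83
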