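import Pool.Agent.LibPP83.View1

/-!
Lists which agree at some resolution.
-/

namespace Pool.Agent.LibPP83

open Finset Classical

variable {S T R : Type} {p : Par S T R}

namespace Par

theorem view_le (h : p.Ok) {F F' : Lists S T} {c j : ℕ} (hj : p.lv c ≤ j)
    (hq : p.lv c ≤ p.q) (hA : ∀ τ, p.tr j (F c τ) = p.tr j (F' c τ)) (s : ℕ) (τ : T) :
    p.A c s ≤ (F c τ).length ↔ p.A c s ≤ (F' c τ).length := by
  rw [le_length_iff h hj hq, hA τ, ← le_length_iff h hj hq]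

theorem view_lt (h : p.Ok) {F F' : Lists S T} {c j : ℕ} (hj : p.lv c ≤ j)
    (hq : p.lv c ≤ p.q) (hA : ∀ τ, p.tr j (F c τ) = p.tr j (F' c τ)) (s : ℕ) (τ : T) :
    (F c τ).length < p.A c s ↔ (F' c τ).length < p.A c s := by
  rw [← not_le, ← not_le, view_le h hj hq hA s τ]

theorem view_take {j k : ℕ} {l : List (Term S)} (hk : k ≤ (p.tr j l).length) :
    l.take k = (p.tr j l).take k := by
  unfold tr at *
  rw [List.length_take] at hk
  rw [List.take_take]
  congr 1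
  omega

theorem cell_congr (h : p.Ok) {F F' : Lists S T} {c j : ℕ} (hj : p.lv c ≤ j)
    (hq : p.lv c ≤ p.q) (hA : ∀ τ, p.tr j (F c τ) = p.tr j (F' c τ)) (J : Finset T) :
    p.sel F c J = p.sel F' c J ∧ p.wn F c J = p.wn F' c J ∧ p.ri F c J = p.ri F' c J ∧
      p.de F c J = p.de F' c J := by
  have hle := view_le h hj hq hA
  have hlt := view_lt h hj hq hA
  have hsel : p.sel F c J = p.sel F' c J := by
    unfold sel
    rw [Finset.filter_congr (fun τ _ => and_congr (hle 1 τ) (hlt 2 τ))]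
  refine ⟨hsel, ?_, ?_, ?_⟩
  · unfold wn
    rw [hsel]
    exact Finset.filter_congr (fun τ _ => and_congr (hle _ τ) (hlt _ τ))
  · unfold ri
    rw [hsel]
    exact Finset.filter_congr (fun τ _ => hle _ τ)
  · unfold de
    rw [hsel]
    exact Finset.filter_congr (fun τ _ => hlt _ τ)

theorem JR_congr (h : p.Ok) {F F' : Lists S T} {m j : ℕ} (hm : m ≤ p.bp j + 1) (hj : j ≤ p.q)
    (hA : p.Agree F F' m j) : ∀ c ≤ m, p.JR F c = p.JR F' c := by
  intro c
  induction c with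
  | zero =>
    intro _
    rfl
  | succ c ih =>
    intro hc
    have h1 := ih (by omega)
    have h2 : p.lv c ≤ j := (h.bp_spec c j).mpr (by omega)
    obtain ⟨-, h3, h4, -⟩ := cell_congr h h2 (h2.trans hj) (hA c (by omega)) (p.JR F' c).1
    show (p.nextJ (c + 1) (p.wn F c (p.JR F c).1) ((p.JR F c).2 ∪ p.ri F c (p.JR F c).1),
      (p.JR F c).2 ∪ p.ri F c (p.JR F c).1) = _
    rw [h1, h3, h4]
    rfl

theorem at_congr (h : p.Ok) {F F' : Lists S T} {m j : ℕ} (hm : m ≤ p.bp j + 1) (hj : j ≤ p.q)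
    (hA : p.Agree F F' m j) {c : ℕ} (hc : c < m) : p.Jc F c = p.Jc F' c ∧
      p.Rich F c = p.Rich F' c ∧ p.Dead F c = p.Dead F' c ∧ p.K F c = p.K F' c := by
  have h1 : p.Jc F c = p.Jc F' c := congrArg Prod.fst (JR_congr h hm hj hA c hc.le)
  have h2 : p.lv c ≤ j := (h.bp_spec c j).mpr (by omega)
  obtain ⟨h3, -, h4, h5⟩ := cell_congr h h2 (h2.trans hj) (hA c hc) (p.Jc F' c)
  refine ⟨h1, ?_, ?_, ?_⟩
  · unfold Rich
    rw [h1, h4]
  · unfold Dead
    rw [h1, h5]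
  · unfold K
    rw [h1, h3]

theorem zz_congr (h : p.Ok) {F F' : Lists S T} {m j : ℕ} (hm : m ≤ p.bp j + 1) (hj : j ≤ p.q)
    (hA : p.Agree F F' m j) {c : ℕ} (hc : c < m) {j' : ℕ} (hj' : j' ≤ j) :
    p.zz F j' c = p.zz F' j' c := by
  obtain ⟨-, h1, h2, h3⟩ := at_congr h hm hj hA hc
  have h4 : p.lv c ≤ j := (h.bp_spec c j).mpr (by omega)
  have h5 := hA.res h hj'
  unfold zz
  congr 1
  · rw [h2]
    refine Finset.biUnion_congr rfl fun τ _ => ?_
    rw [h5 c hc τ]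
  · rw [h3, h1]
    refine Finset.biUnion_congr rfl fun τ hτ => ?_
    have h6 : p.K F' c ≤ (F' c τ).length := (mem_filter.mp hτ).2
    have h7 : p.K F' c ≤ (p.tr j (F' c τ)).length :=
      (le_length_iff h h4 (h4.trans hj) (F' c τ)).mp h6
    have h8 : p.K F' c ≤ (p.tr j (F c τ)).length := by
      rw [hA c hc τ]
      exact h7
    have h9 : (F c τ).take (p.K F' c) = (F' c τ).take (p.K F' c) := by
      rw [view_take h8, view_take h7, hA c hc τ]
    unfold pop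
    rw [h9]

theorem Z_congr (h : p.Ok) {F F' : Lists S T} {c : ℕ} (hq : p.lv c ≤ p.q)
    (hA : p.Agree F F' c (p.lv c)) : p.Z F c = p.Z F' c := by
  have h1 : c ≤ p.bp (p.lv c) := (h.bp_spec c (p.lv c)).mp le_rfl
  unfold Z
  refine Finset.biUnion_congr rfl fun c' hc' => ?_
  exact zz_congr h (by omega) hq hA (mem_range.mp hc') le_rfl

theorem Jc_congr (h : p.Ok) {F F' : Lists S T} {c : ℕ} (hq : p.lv c ≤ p.q)
    (hA : p.Agree F F' c (p.lv c)) : p.Jc F c = p.Jc F' c := by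
  have h1 : c ≤ p.bp (p.lv c) := (h.bp_spec c (p.lv c)).mp le_rfl
  exact congrArg Prod.fst (JR_congr h (by omega) hq hA c le_rfl)

theorem cont_congr (h : p.Ok) {F F' : Lists S T} {i : ℕ} (hi : i ≤ p.q)
    (hA : p.Agree F F' (p.bp i + 1) i) {τ : T} (hτ : p.lev τ = i) (κ : ℕ) :
    p.cont F κ τ ↔ p.cont F' κ τ := by
  unfold cont
  rw [hτ]
  constructor
  · rintro ⟨c, hc, hk, hr⟩
    obtain ⟨-, h1, -, -⟩ := at_congr h le_rfl hi hA (show c < p.bp i + 1 by omega)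
    rw [h1] at hr
    exact ⟨c, hc, hk, hr⟩
  · rintro ⟨c, hc, hk, hr⟩
    obtain ⟨-, h1, -, -⟩ := at_congr h le_rfl hi hA (show c < p.bp i + 1 by omega)
    rw [← h1] at hr
    exact ⟨c, hc, hk, hr⟩

end Par

end Pool.Agent.LibPP83
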