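import Pool.Agent.LibPP83.Lex
import Pool.Agent.LibPP83.View
import Pool.Agent.LibPP83.Basic

/-!
The ranks of a state.
-/

namespace Pool.Agent.LibPP83

open Finset Classical

variable {S T R : Type} {p : Par S T R}

namespace Par

theorem rk_eq (s : State S T R) (j : ℕ) :
    p.rk s j = digits (p.β j) (p.bp j) (p.dgt s j) := rfl

/-- The part of the invariants which bounds the digits. -/
structure Small (p : Par S T R) (F : Lists S T) : Prop where
  nil : ∀ c τ, τ ∉ p.Jc F c → F c τ = []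
  cap : ∀ c τ, (F c τ).length ≤ p.A c 3

theorem dgt_lt (h : p.Ok) {s : State S T R} (hs : p.Small s.F) {j : ℕ} (hj : j ≤ p.q) {c : ℕ}
    (hc : c ≤ p.bp j) : p.dgt s j c < p.β j := by
  unfold dgt
  by_cases ht : p.typ c = 2
  · rw [if_pos ht]
    have h1 := h.hβ1 j
    split_ifs
    · exact h1
    · omega
  · rw [if_neg ht]
    refine lt_of_le_of_lt ?_ (h.hβ j hj c hc)
    have h0 : ∀ τ, τ ∉ p.tl (p.lv c) → (s.F c τ).length / p.u j = 0 := by
      intro τ hτ
      rw [hs.nil c τ fun h1 => hτ (Jc_sub h s.F c h1)]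
      simp
    have h1 : ∑ τ ∈ p.tl (p.lv c), (s.F c τ).length / p.u j
        = ∑ τ ∈ p.tasks, (s.F c τ).length / p.u j :=
      Finset.sum_subset (Finset.filter_subset _ _) fun τ _ hτ => h0 τ hτ
    rw [← h1]
    calc ∑ τ ∈ p.tl (p.lv c), (s.F c τ).length / p.u j
        ≤ ∑ _τ ∈ p.tl (p.lv c), p.A c 3 / p.u j :=
          Finset.sum_le_sum fun τ _ => Nat.div_le_div_right (hs.cap c τ)
      _ = (p.tl (p.lv c)).card * (p.A c 3 / p.u j) := by
          rw [Finset.sum_const, smul_eq_mul]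
      _ ≤ p.nt (p.lv c) * (p.A c 3 / p.u j) := Nat.mul_le_mul_right _ (h.hnt _)

theorem rk_lt (h : p.Ok) {s : State S T R} (hs : p.Small s.F) {j : ℕ} (hj : j ≤ p.q) :
    p.rk s j < p.β j ^ (p.bp j + 1) := by
  rw [rk_eq]
  exact digits_lt (h.hβ1 j) fun c hc => dgt_lt h hs hj hc

/-- Page digits and list digits before the cell `m` are unchanged if nothing visible at the
resolution of level `j` has changed there. -/
theorem dgt_congr (h : p.Ok) {s s' : State S T R} {m j : ℕ} (hj : j ≤ p.q)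
    (hm : m ≤ p.bp j + 1) (hA : p.Agree s.F s'.F m j) (hU : ∀ i, p.bp i < m → s.U i = s'.U i)
    (hE : ∀ i, p.bp i < m → ∀ r ∈ s.U i, ∀ κ ≤ p.J, ∀ τ ∈ p.tl i,
      (p.pg r κ τ ∈ s.E ↔ p.pg r κ τ ∈ s'.E)) {c : ℕ} (hc : c < m) :
    p.dgt s j c = p.dgt s' j c := by
  have hcj : p.lv c ≤ j := (h.bp_spec c j).2 (by omega)
  unfold dgt
  by_cases ht : p.typ c = 2
  · rw [if_pos ht, if_pos ht]
    have hb : p.bp (p.lv c) < m := by
      rw [← h.typ_two c ht]
      exact hc
    have hR : p.Right s (p.lv c) ↔ p.Right s' (p.lv c) := by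
      unfold Right
      rw [← hU _ hb]
      refine exists_congr fun r => and_congr_right fun hr => ?_
      refine forall_congr' fun κ => forall_congr' fun hκ => forall_congr' fun τ =>
        forall_congr' fun hτ => ?_
      rw [hE _ hb r hr κ hκ τ hτ]
      have hlev : p.lev τ = p.lv c := by
        unfold tl at hτ
        exact (Finset.mem_filter.1 hτ).2
      rw [cont_congr h (hcj.trans hj) ((hA.res h hcj).mono hb) hlev κ]
    simp only [hR]
  · rw [if_neg ht, if_neg ht]
    exact Finset.sum_congr rfl fun τ _ => div_eq_of_tr h (hA c hc τ)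

theorem bp_mono (h : p.Ok) {i j : ℕ} (hij : i ≤ j) : p.bp i ≤ p.bp j := by
  rw [← h.bp_spec, h.lv_bp]
  exact hij

theorem lt_of_bp_lt (h : p.Ok) {i j : ℕ} (hij : p.bp i < p.bp j) : i < j := by
  by_contra hc
  have := bp_mono h (not_lt.1 hc)
  omega

theorem Small.empty (h : p.Ok) : p.Small (fun _ _ => []) where
  nil := fun _ _ _ => rfl
  cap := fun c _ => by simp

end Par

end Pool.Agent.LibPP83
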