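import Pool.Agent.LibPP83.RichL

/-!
A choice of terms for all tasks accepted in one world.
-/

namespace Pool.Agent.LibPP83

open Finset Classical

variable {S T R : Type} {p : Par S T R}

namespace Par


/-- A list all of whose members satisfy one of three predicates. -/
theorem realise_cover {α : Type} (l : List α) (A B C : α → Prop) [DecidablePred A]
    [DecidablePred B] [DecidablePred C] (h : ∀ t ∈ l, A t ∨ B t ∨ C t) :
    l.length ≤ (l.filter fun t => A t).length + (l.filter fun t => B t).length +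
      (l.filter fun t => C t).length := by
  induction l with
  | nil => simp
  | cons a l ih =>
    have h1 := ih fun t ht => h t (List.mem_cons_of_mem _ ht)
    rw [List.filter_cons, List.filter_cons, List.filter_cons, List.length_cons]
    rcases h a List.mem_cons_self with h2 | h2 | h2
    · rw [if_pos (by simpa using h2)]
      split_ifs <;> simp only [List.length_cons] <;> omega
    · rw [if_pos (show decide (B a) = true by simpa using h2)]
      split_ifs <;> simp only [List.length_cons] <;> omega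
    · rw [if_pos (show decide (C a) = true by simpa using h2)]
      split_ifs <;> simp only [List.length_cons] <;> omega

/-- The terms which ask a string of `P` negatively. -/
theorem realise_pop (l : List (Term S)) (P : Finset S) :
    (l.filter fun t => ¬ Disjoint P t.2).length ≤
      ∑ z ∈ P, (l.filter fun t => z ∈ t.2).length := by
  induction l with
  | nil => simp
  | cons a l ih =>
    have h1 : ∀ z : S, ((a :: l).filter fun t => z ∈ t.2).length =
        (l.filter fun t => z ∈ t.2).length + if z ∈ a.2 then 1 else 0 := by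
      intro z
      rw [List.filter_cons]
      by_cases hz : z ∈ a.2
      · rw [if_pos (by simpa using hz), if_pos hz, List.length_cons]
      · rw [if_neg (by simpa using hz), if_neg hz, add_zero]
    rw [Finset.sum_congr rfl fun z _ => h1 z, Finset.sum_add_distrib, List.filter_cons]
    by_cases hd : Disjoint P a.2
    · rw [if_neg (by simpa using hd)]
      omega
    · rw [if_pos (by simpa using hd), List.length_cons]
      have h2 : 1 ≤ ∑ z ∈ P, if z ∈ a.2 then 1 else 0 := by
        rw [Finset.not_disjoint_iff] at hd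
        obtain ⟨z, hz, hz2⟩ := hd
        have h3 := Finset.single_le_sum (f := fun z => if z ∈ a.2 then 1 else 0)
          (fun _ _ => Nat.zero_le _) hz
        simp only [if_pos hz2] at h3
        exact h3
      omega

/-- One more task. -/
theorem realise_step (h : p.Ok) {E : Set S} {σ : T → ℕ} {Z : Finset S}
    {fam : T → List (Term S)} (ho : p.Out E σ Z fam) (hM1 : 1 ≤ p.M) {τ : T}
    (hτ : τ ∈ p.tasks) (hσ : σ τ ≤ p.J) {P N : Finset S}
    (hP : ∀ z ∈ P, z ∈ p.Free ∧ z ∉ Z) (hPc : 4 * P.card ≤ p.θ) (hNc : 4 * N.card ≤ p.M) :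
    ∃ t ∈ fam τ, p.Con E t ∧ Disjoint (p.PX t) Z ∧ Disjoint (p.PX t) N ∧ Disjoint P t.2 := by
  by_contra hcon
  push Not at hcon
  have hlen := ho.fam_len τ hτ hσ
  have hA := ho.fam_bad τ hτ hσ
  have hB := card_meets (ho.fam_pw τ hτ hσ) N
  have hC := realise_pop (fam τ) P
  have hC2 : 4 * ((fam τ).filter fun t => ¬ Disjoint P t.2).length ≤ (fam τ).length := by
    rcases Nat.eq_zero_or_pos p.θ with h0 | h0
    · have h1 : P = ∅ := by
        rw [← Finset.card_eq_zero]
        omega
      rw [h1, Finset.sum_empty] at hC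
      rw [h1]
      omega
    · have h1 : p.θ * ∑ z ∈ P, ((fam τ).filter fun t => z ∈ t.2).length ≤
          P.card * (fam τ).length := by
        rw [Finset.mul_sum]
        refine (Finset.sum_le_sum fun z hz =>
          ho.fam_pop τ hτ hσ z (hP z hz).1 (hP z hz).2).trans ?_
        rw [Finset.sum_const, smul_eq_mul]
      have h2 : p.θ * (4 * ((fam τ).filter fun t => ¬ Disjoint P t.2).length) ≤
          p.θ * (fam τ).length := by
        calc p.θ * (4 * ((fam τ).filter fun t => ¬ Disjoint P t.2).length)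
            = 4 * (p.θ * ((fam τ).filter fun t => ¬ Disjoint P t.2).length) := by ring
          _ ≤ 4 * (p.θ * ∑ z ∈ P, ((fam τ).filter fun t => z ∈ t.2).length) :=
            Nat.mul_le_mul_left _ (Nat.mul_le_mul_left _ hC)
          _ ≤ 4 * (P.card * (fam τ).length) := Nat.mul_le_mul_left _ h1
          _ = (4 * P.card) * (fam τ).length := by ring
          _ ≤ p.θ * (fam τ).length := Nat.mul_le_mul_right _ hPc
      exact Nat.le_of_mul_le_mul_left h2 h0
  have hall := realise_cover (fam τ) (fun t => ¬ p.Con E t ∨ ¬ Disjoint (p.PX t) Z)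
    (fun t => ¬ Disjoint (p.PX t) N) (fun t => ¬ Disjoint P t.2) (by
      intro t ht
      by_cases h1 : p.Con E t
      · by_cases h2 : Disjoint (p.PX t) Z
        · by_cases h3 : Disjoint (p.PX t) N
          · exact Or.inr (Or.inr (hcon t ht h1 h2 h3))
          · exact Or.inr (Or.inl h3)
        · exact Or.inl (Or.inr h2)
      · exact Or.inl (Or.inl h1))
  omega

theorem realise (h : p.Ok) {E : Set S} {σ : T → ℕ} {Z : Finset S}
    {fam : T → List (Term S)} (ho : p.Out E σ Z fam) (hM1 : 1 ≤ p.M)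
    (hθ : 4 * (p.tasks.card * p.sz p.q) ≤ p.θ) (hM : 4 * (p.tasks.card * p.sz p.q) ≤ p.M)
    {κ : ℕ} (hκ : κ ≤ p.J) : ∃ ch : T → Term S,
      (∀ τ ∈ p.tasks, σ τ ≤ κ → ch τ ∈ p.D τ ∧ p.Kd κ (ch τ) ∧ p.Con E (ch τ) ∧
        Disjoint (p.PX (ch τ)) Z) ∧
      ∀ τ ∈ p.tasks, σ τ ≤ κ → ∀ τ' ∈ p.tasks, σ τ' ≤ κ →
        Disjoint (p.PX (ch τ)) (ch τ').2 := by
  have key : ∀ A : Finset T, A ⊆ p.tasks.filter (fun τ => σ τ ≤ κ) → ∃ ch : T → Term S,
      (∀ τ ∈ A, ch τ ∈ p.D τ ∧ p.Kd κ (ch τ) ∧ p.Con E (ch τ) ∧ Disjoint (p.PX (ch τ)) Z) ∧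
      ∀ τ ∈ A, ∀ τ' ∈ A, Disjoint (p.PX (ch τ)) (ch τ').2 := by
    intro A
    induction A using Finset.induction_on with
    | empty => exact fun _ => ⟨fun _ => (∅, ∅), by simp, by simp⟩
    | insert τ A hτA ih =>
      intro hsub
      obtain ⟨ch, h1, h2⟩ := ih ((Finset.subset_insert τ A).trans hsub)
      have hτ := Finset.mem_filter.1 (hsub (Finset.mem_insert_self τ A))
      have hA : ∀ τ' ∈ A, τ' ∈ p.tasks := fun τ' hτ' =>
        (Finset.mem_filter.1 (hsub (Finset.mem_insert_of_mem hτ'))).1
      have hAc : A.card ≤ p.tasks.card := Finset.card_le_card hA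
      have hsz : ∀ τ' ∈ A, (ch τ').1.card + (ch τ').2.card ≤ p.sz p.q := fun τ' hτ' =>
        (h.hD τ' (hA τ' hτ') _ (h1 τ' hτ').1).trans (h.hsz (h.hlev τ' (hA τ' hτ')).2)
      have hP : ∀ z ∈ A.biUnion fun τ' => p.PX (ch τ'), z ∈ p.Free ∧ z ∉ Z := by
        intro z hz
        obtain ⟨τ', hτ', hz'⟩ := Finset.mem_biUnion.1 hz
        exact ⟨(Finset.mem_filter.1 hz').2, fun hzZ =>
          (Finset.disjoint_left.1 (h1 τ' hτ').2.2.2) hz' hzZ⟩
      have hPc : (A.biUnion fun τ' => p.PX (ch τ')).card ≤ p.tasks.card * p.sz p.q := by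
        refine Finset.card_biUnion_le.trans ((Finset.sum_le_card_nsmul A _ (p.sz p.q) ?_).trans ?_)
        · intro τ' hτ'
          have h3 := Finset.card_le_card (Finset.filter_subset (fun z => z ∈ p.Free) (ch τ').1)
          have h4 := hsz τ' hτ'
          exact h3.trans (by omega)
        · rw [smul_eq_mul]
          exact Nat.mul_le_mul_right _ hAc
      have hNc : (A.biUnion fun τ' => (ch τ').2).card ≤ p.tasks.card * p.sz p.q := by
        refine Finset.card_biUnion_le.trans ((Finset.sum_le_card_nsmul A _ (p.sz p.q) ?_).trans ?_)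
        · intro τ' hτ'
          have h4 := hsz τ' hτ'
          omega
        · rw [smul_eq_mul]
          exact Nat.mul_le_mul_right _ hAc
      obtain ⟨t, ht, ht1, ht2, ht3, ht4⟩ := realise_step h ho hM1 hτ.1 (hτ.2.trans hκ) hP
        (by omega) (show 4 * (A.biUnion fun τ' => (ch τ').2).card ≤ p.M by omega)
      obtain ⟨htD, htK⟩ := ho.fam_mem τ hτ.1 (hτ.2.trans hκ) t ht
      have hne : ∀ τ' ∈ A, τ' ≠ τ := fun τ' hτ' he => hτA (he ▸ hτ')
      have hu : ∀ τ' ∈ A, Function.update ch τ t τ' = ch τ' := fun τ' hτ' =>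
        Function.update_of_ne (hne τ' hτ') t ch
      have hs : Function.update ch τ t τ = t := Function.update_self τ t ch
      refine ⟨Function.update ch τ t, ?_, ?_⟩
      · intro τ' hτ'
        rcases Finset.mem_insert.1 hτ' with he | he
        · rw [he, hs]
          exact ⟨htD, fun z hz => (htK z hz).trans hτ.2, ht1, ht2⟩
        · rw [hu τ' he]
          exact h1 τ' he
      · intro τ₁ hτ₁ τ₂ hτ₂
        rcases Finset.mem_insert.1 hτ₁ with he₁ | he₁
        · rcases Finset.mem_insert.1 hτ₂ with he₂ | he₂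
          · rw [he₁, he₂, hs]
            exact Finset.disjoint_of_subset_left (Finset.filter_subset _ _)
              (h.hDd τ hτ.1 t htD)
          · rw [he₁, hs, hu τ₂ he₂]
            exact Finset.disjoint_of_subset_right
              (Finset.subset_biUnion_of_mem (fun τ' => (ch τ').2) he₂) ht3
        · rcases Finset.mem_insert.1 hτ₂ with he₂ | he₂
          · rw [he₂, hs, hu τ₁ he₁]
            exact Finset.disjoint_of_subset_left
              (Finset.subset_biUnion_of_mem (fun τ' => p.PX (ch τ')) he₁) ht4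
          · rw [hu τ₁ he₁, hu τ₂ he₂]
            exact h2 τ₁ he₁ τ₂ he₂
  obtain ⟨ch, h1, h2⟩ := key _ (Finset.Subset.refl _)
  exact ⟨ch, fun τ hτ hσ => h1 τ (Finset.mem_filter.2 ⟨hτ, hσ⟩), fun τ hτ hσ τ' hτ' hσ' =>
    h2 τ (Finset.mem_filter.2 ⟨hτ, hσ⟩) τ' (Finset.mem_filter.2 ⟨hτ', hσ'⟩)⟩

end Par

end Pool.Agent.LibPP83
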