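import Pool.Agent.LibPP83.Rank

/-!
The second kind of step: a page is written.
-/

namespace Pool.Agent.LibPP83

open Finset Classical

variable {S T R : Type} {p : Par S T R}

namespace Par

/-- The location `r` is suitable for the page of level `i`. -/
structure Place (p : Par S T R) (s : State S T R) (i : ℕ) (r : R) : Prop where
  lo : p.n ≤ i
  hi : i ≤ p.q
  wrong : ¬ p.Right s i
  av : r ∈ p.Av i
  new : r ∉ s.U i
  few : ∀ c ≤ p.bp i, ∀ τ, ((s.F c τ).filter fun t => p.Reads i r t).length ≤ p.lam i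

/-- The new state. -/
noncomputable def st1 (p : Par S T R) (s : State S T R) (i : ℕ) (r : R) : State S T R :=
  ⟨fun j => if j = i then insert r (s.U i) else s.U j,
   s.E ∪ {z | ∃ κ τ, κ ≤ p.J ∧ τ ∈ p.tl i ∧ p.cont s.F κ τ ∧ z = p.pg r κ τ},
   fun c τ => if c ≤ p.bp i then s.F c τ else []⟩

theorem st1_agree (s : State S T R) (i : ℕ) (r : R) (j : ℕ) :
    p.Agree s.F (p.st1 s i r).F (p.bp i + 1) j := by
  intro c hc τ
  show p.tr j (s.F c τ) = p.tr j (if c ≤ p.bp i then s.F c τ else [])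
  rw [if_pos (by omega)]

theorem st1_mem_tl {i : ℕ} {τ : T} : τ ∈ p.tl i ↔ τ ∈ p.tasks ∧ p.lev τ = i := by
  unfold tl
  rw [mem_filter]

theorem st1_bp_ne (h : p.Ok) {i i' j : ℕ} (hj : j < i) (hi' : p.bp i' < p.bp j + 1) :
    i' ≠ i := by
  rintro rfl
  have h1 := (h.bp_spec (p.bp i') j).2 (by omega)
  rw [h.lv_bp] at h1
  omega

/-- The ones on the pages at used locations of other levels, and at used locations of level
`i`, are unchanged. -/
theorem st1_E (h : p.Ok) {s : State S T R} (hs : p.Inv s) {i : ℕ} {r : R}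
    (hp : p.Place s i r) {i' : ℕ} {r' : R} (hr : i' = i → r' ∈ s.U i) {κ : ℕ} {τ : T}
    (hτ : τ ∈ p.tl i') : p.pg r' κ τ ∈ s.E ↔ p.pg r' κ τ ∈ (p.st1 s i r).E := by
  constructor
  · intro h1
    exact Or.inl h1
  · rintro (h1 | ⟨κ', τ', -, hτ', -, h2⟩)
    · exact h1
    · exfalso
      obtain ⟨h3, -, h4⟩ := h.pg_inj h2
      subst h3
      subst h4
      have h5 : i' = i := (st1_mem_tl.1 hτ).2.symm.trans (st1_mem_tl.1 hτ').2
      exact hp.new (hr h5)

theorem st1_right (h : p.Ok) {s : State S T R} (hs : p.Inv s) {i : ℕ} {r : R}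
    (hp : p.Place s i r) : p.Right (p.st1 s i r) i := by
  refine ⟨r, ?_, fun κ hκ τ hτ => ?_⟩
  · show r ∈ (if i = i then insert r (s.U i) else s.U i)
    rw [if_pos rfl]
    exact mem_insert_self _ _
  · have hlev := (st1_mem_tl.1 hτ).2
    rw [← cont_congr h hp.hi (p.st1_agree s i r i) hlev κ]
    constructor
    · rintro (h1 | ⟨κ', τ', -, hτ', hc, h2⟩)
      · exfalso
        obtain ⟨r1, κ1, τ1, -, -, hr1, h3⟩ := hs.ones _ h1
        obtain ⟨h4, -, h5⟩ := h.pg_inj h3
        subst h4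
        subst h5
        rw [hlev] at hr1
        exact hp.new hr1
      · obtain ⟨-, h3, h4⟩ := h.pg_inj h2
        rw [h3, h4]
        exact hc
    · intro hc
      exact Or.inr ⟨κ, τ, hκ, hτ, hc, rfl⟩

theorem rk_st1_eq (h : p.Ok) {s : State S T R} (hs : p.Inv s) {i : ℕ} {r : R}
    (hp : p.Place s i r) {j : ℕ} (hj : j < i) : p.rk (p.st1 s i r) j = p.rk s j := by
  rw [rk_eq, rk_eq]
  refine digits_congr fun c hc => ?_
  have hij := bp_mono h hj.le
  refine (dgt_congr (s := s) (s' := p.st1 s i r) h (hj.le.trans hp.hi) (m := p.bp j + 1) le_rfl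
    ((p.st1_agree s i r j).mono (by omega)) ?_ ?_ (by omega)).symm
  · intro i' hi'
    have h1 := st1_bp_ne h hj hi'
    show s.U i' = (if i' = i then insert r (s.U i) else s.U i')
    rw [if_neg h1]
  · intro i' hi' r' _ κ _ τ hτ
    exact st1_E h hs hp (fun h2 => absurd h2 (st1_bp_ne h hj hi')) hτ

theorem rk_st1_lt (h : p.Ok) {s : State S T R} (hs : p.Inv s) {i : ℕ} {r : R}
    (hp : p.Place s i r) {j : ℕ} (hj : i ≤ j) (hq : j ≤ p.q) :
    p.rk s j + 1 ≤ p.rk (p.st1 s i r) j := by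
  rw [rk_eq, rk_eq]
  have hij := bp_mono h hj
  refine digits_step (c := p.bp i) (h.hβ1 j) (fun x hx => dgt_lt h ⟨hs.nil, hs.cap⟩ hq hx) hij
    (fun x hx => ?_) ?_
  · refine dgt_congr (s := s) (s' := p.st1 s i r) h hq (m := p.bp i) (by omega)
      ((p.st1_agree s i r j).mono (by omega)) ?_ ?_ hx
    · intro i' hi'
      have h1 : i' ≠ i := by rintro rfl; exact lt_irrefl _ hi'
      show s.U i' = (if i' = i then insert r (s.U i) else s.U i')
      rw [if_neg h1]
    · intro i' hi' r' _ κ _ τ hτ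
      have h1 : i' ≠ i := by rintro rfl; exact lt_irrefl _ hi'
      exact st1_E h hs hp (fun h2 => absurd h2 h1) hτ
  · unfold dgt
    rw [if_pos (h.typ_bp i), if_pos (h.typ_bp i), h.lv_bp, if_neg hp.wrong,
      if_pos (st1_right h hs hp)]

end Par

end Pool.Agent.LibPP83
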