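import Pool.Agent.LibPP83.Rank

/-!
The first kind of step: a term is appended to a list.
-/

namespace Pool.Agent.LibPP83

open Finset Classical

variable {S T R : Type} {p : Par S T R}

namespace Par

/-- Append the term `t` to the list of `τ` at the cell `c`, and empty the later lists at all
cells for which this is visible. -/
noncomputable def step2 (p : Par S T R) (F : Lists S T) (c : ℕ) (τ : T) (t : Term S) :
    Lists S T := fun c' τ' =>
  if c' < c then F c' τ' else
  if c' = c then (if τ' = τ then F c τ ++ [t] else F c τ') else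
  if p.u (p.lv c') ∣ (F c τ).length + 1 then [] else F c' τ'

/-- The term `t` may be appended to the list of `τ` at the cell `c`. -/
structure Add (p : Par S T R) (s : State S T R) (c : ℕ) (τ : T) (t : Term S) : Prop where
  mem : τ ∈ p.Jc s.F c
  len : (s.F c τ).length < p.A c 3
  term : t ∈ p.D τ
  kd : p.Kd (p.kd c) t
  con : p.Con s.E t
  z : Disjoint (p.PX t) (p.Z s.F c)
  pw : ∀ t' ∈ s.F c τ, Disjoint (p.PX t) (p.PX t')

/-- The new state. -/
noncomputable def st2 (p : Par S T R) (s : State S T R) (c : ℕ) (τ : T) (t : Term S) :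
    State S T R := ⟨s.U, s.E, p.step2 s.F c τ t⟩

theorem step2_agree_lt (F : Lists S T) (c : ℕ) (τ : T) (t : Term S) (j : ℕ) :
    p.Agree F (p.step2 F c τ t) c j := by
  intro c' hc' τ'
  simp only [step2, if_pos hc']

theorem tr_append (h : p.Ok) {j : ℕ} {l : List (Term S)} (hj : ¬ p.u j ∣ l.length + 1)
    (t : Term S) : p.tr j (l ++ [t]) = p.tr j l := by
  have h1 : (l ++ [t]).length / p.u j = l.length / p.u j := by
    rw [List.length_append, List.length_singleton, Nat.succ_div, if_neg hj, Nat.add_zero]
  unfold tr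
  rw [h1]
  exact List.take_append_of_le_length (Nat.mul_div_le _ _)

theorem step2_agree (h : p.Ok) (F : Lists S T) (c : ℕ) (τ : T) (t : Term S) {j : ℕ}
    (hj : ¬ p.u j ∣ (F c τ).length + 1) : p.Agree F (p.step2 F c τ t) (p.bp j + 1) j := by
  intro c' hc' τ'
  have hlv : p.lv c' ≤ j := (h.bp_spec c' j).2 (by omega)
  have hnr : ¬ p.u (p.lv c') ∣ (F c τ).length + 1 := fun hd =>
    hj ((u_dvd_of_le h hlv).trans hd)
  unfold step2
  by_cases h1 : c' < c
  · rw [if_pos h1]
  · rw [if_neg h1]
    by_cases h2 : c' = c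
    · rw [if_pos h2]
      by_cases h3 : τ' = τ
      · rw [if_pos h3, tr_append h hj, h2, h3]
      · rw [if_neg h3, h2]
    · rw [if_neg h2, if_neg hnr]

theorem step2_small (h : p.Ok) {s : State S T R} (hs : p.Inv s) {c : ℕ} {τ : T} {t : Term S}
    (ha : p.Add s c τ t) : p.Small (p.step2 s.F c τ t) := by
  have hcq : p.lv c ≤ p.q := (Jc_facts h s.F ha.mem).2.2.2.1
  have hlt : ∀ c', c' ≤ c → p.lv c' ≤ p.q →
      p.Jc s.F c' = p.Jc (p.step2 s.F c τ t) c' := fun c' hc' hq =>
    Jc_congr h hq ((step2_agree_lt s.F c τ t (p.lv c')).mono hc')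
  refine ⟨?_, ?_⟩
  · intro c' τ' hτ'
    have key : c' < c ∨ (¬ p.u (p.lv c') ∣ (s.F c τ).length + 1 ∧ c < c') →
        s.F c' τ' = [] := by
      intro hcase
      apply hs.nil
      intro hmem
      have hq : p.lv c' ≤ p.q := (Jc_facts h s.F hmem).2.2.2.1
      rcases hcase with h1 | ⟨h1, h2⟩
      · rw [← hlt c' h1.le hq] at hτ'
        exact hτ' hmem
      · have hA := step2_agree h s.F c τ t h1
        have hc' : c' ≤ p.bp (p.lv c') := (h.bp_spec c' (p.lv c')).1 le_rfl
        rw [← Jc_congr h hq (hA.mono (by omega))] at hτ'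
        exact hτ' hmem
    unfold step2
    by_cases h1 : c' < c
    · rw [if_pos h1]
      exact key (Or.inl h1)
    · rw [if_neg h1]
      by_cases h2 : c' = c
      · rw [if_pos h2]
        subst h2
        rw [← hlt c' le_rfl hcq] at hτ'
        by_cases h3 : τ' = τ
        · exact absurd (h3 ▸ ha.mem) hτ'
        · rw [if_neg h3]
          exact hs.nil c' τ' hτ'
      · rw [if_neg h2]
        by_cases h4 : p.u (p.lv c') ∣ (s.F c τ).length + 1
        · rw [if_pos h4]
        · rw [if_neg h4]
          exact key (Or.inr ⟨h4, by omega⟩)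
  · intro c' τ'
    unfold step2
    by_cases h1 : c' < c
    · rw [if_pos h1]
      exact hs.cap c' τ'
    · rw [if_neg h1]
      by_cases h2 : c' = c
      · rw [if_pos h2]
        subst h2
        by_cases h3 : τ' = τ
        · rw [if_pos h3, List.length_append, List.length_singleton]
          exact ha.len
        · rw [if_neg h3]
          exact hs.cap c' τ'
      · rw [if_neg h2]
        by_cases h4 : p.u (p.lv c') ∣ (s.F c τ).length + 1
        · rw [if_pos h4]
          simp
        · rw [if_neg h4]
          exact hs.cap c' τ'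

end Par

end Pool.Agent.LibPP83
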