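import Pool.Agent.LibPP83.Step2R

/-!
A step of the first kind preserves the invariants.
-/

namespace Pool.Agent.LibPP83

open Finset Classical

variable {S T R : Type} {p : Par S T R}

namespace Par

theorem s2i_lt (F : Lists S T) {c c' : ℕ} (τ τ' : T) (t : Term S) (hc : c' < c) :
    p.step2 F c τ t c' τ' = F c' τ' := by
  unfold step2
  rw [if_pos hc]

theorem s2i_self (F : Lists S T) (c : ℕ) (τ : T) (t : Term S) :
    p.step2 F c τ t c τ = F c τ ++ [t] := by
  unfold step2
  rw [if_neg (lt_irrefl c), if_pos rfl, if_pos rfl]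

theorem s2i_ne (F : Lists S T) (c : ℕ) {τ τ' : T} (t : Term S) (hτ : τ' ≠ τ) :
    p.step2 F c τ t c τ' = F c τ' := by
  unfold step2
  rw [if_neg (lt_irrefl c), if_pos rfl, if_neg hτ]

theorem s2i_gt (F : Lists S T) {c c' : ℕ} (τ τ' : T) (t : Term S) (hc : c < c') :
    p.step2 F c τ t c' τ' = if p.u (p.lv c') ∣ (F c τ).length + 1 then [] else F c' τ' := by
  unfold step2
  rw [if_neg (by omega), if_neg (by omega)]

/-- What is zeroed before the cell `c'` is unchanged if the lists of `c'` are not emptied. -/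
theorem s2i_Z (h : p.Ok) (F : Lists S T) {c c' : ℕ} (τ : T) (t : Term S)
    (hq : p.lv c' ≤ p.q) (hc : c' ≤ c ∨ ¬ p.u (p.lv c') ∣ (F c τ).length + 1) :
    p.Z F c' = p.Z (p.step2 F c τ t) c' := by
  refine Z_congr h hq ?_
  rcases hc with hc | hc
  · exact (step2_agree_lt F c τ t _).mono hc
  · refine (step2_agree h F c τ t hc).mono ?_
    have h1 := (h.bp_spec c' (p.lv c')).1 le_rfl
    omega

theorem inv_st2 (h : p.Ok) {s : State S T R} (hs : p.Inv s) {c : ℕ} {τ : T} {t : Term S}
    (ha : p.Add s c τ t) : p.Inv (p.st2 s c τ t) := by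
  have hsm := step2_small h hs ha
  refine ⟨hs.ones, hs.used, hs.usedOut, hsm.nil, ?_, ?_, hsm.cap, ?_, ?_⟩
  · intro c' τ' t' ht'
    change t' ∈ p.step2 s.F c τ t c' τ' at ht'
    change t' ∈ p.D τ' ∧ p.Kd (p.kd c') t' ∧ Disjoint (p.PX t') (p.Z (p.step2 s.F c τ t) c')
    have hJ : τ' ∈ p.Jc (p.step2 s.F c τ t) c' := by
      by_contra h1
      rw [hsm.nil c' τ' h1] at ht'
      exact absurd ht' List.not_mem_nil
    have hq := (Jc_facts h _ hJ).2.2.2.1
    rcases lt_trichotomy c' c with hc | hc | hc
    · rw [s2i_lt s.F τ τ' t hc] at ht'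
      rw [← s2i_Z h s.F τ t hq (Or.inl hc.le)]
      exact hs.mem c' τ' t' ht'
    · subst hc
      rw [← s2i_Z h s.F τ t hq (Or.inl le_rfl)]
      by_cases hτ : τ' = τ
      · subst hτ
        rw [s2i_self, List.mem_append, List.mem_singleton] at ht'
        rcases ht' with ht' | rfl
        · exact hs.mem _ _ t' ht'
        · exact ⟨ha.term, ha.kd, ha.z⟩
      · rw [s2i_ne s.F _ t hτ] at ht'
        exact hs.mem _ _ t' ht'
    · rw [s2i_gt s.F τ τ' t hc] at ht'
      by_cases hd : p.u (p.lv c') ∣ (s.F c τ).length + 1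
      · rw [if_pos hd] at ht'
        exact absurd ht' List.not_mem_nil
      · rw [if_neg hd] at ht'
        rw [← s2i_Z h s.F τ t hq (Or.inr hd)]
        exact hs.mem c' τ' t' ht'
  · intro c' τ'
    change (p.step2 s.F c τ t c' τ').Pairwise fun t t' => Disjoint (p.PX t) (p.PX t')
    rcases lt_trichotomy c' c with hc | hc | hc
    · rw [s2i_lt s.F τ τ' t hc]
      exact hs.pw c' τ'
    · subst hc
      by_cases hτ : τ' = τ
      · subst hτ
        rw [s2i_self, List.pairwise_append]
        refine ⟨hs.pw _ _, List.pairwise_singleton _ _, fun a ha' b hb => ?_⟩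
        rw [List.mem_singleton] at hb
        subst hb
        exact (ha.pw a ha').symm
      · rw [s2i_ne s.F _ t hτ]
        exact hs.pw _ _
    · rw [s2i_gt s.F τ τ' t hc]
      by_cases hd : p.u (p.lv c') ∣ (s.F c τ).length + 1
      · rw [if_pos hd]
        exact List.Pairwise.nil
      · rw [if_neg hd]
        exact hs.pw c' τ'
  · intro c' τ'
    change ((p.step2 s.F c τ t c' τ').filter fun t => ¬ p.Con s.E t).length ≤
      ∑ j ∈ Icc (p.lv c') p.q, (s.U j).card * p.lam j
    rcases lt_trichotomy c' c with hc | hc | hc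
    · rw [s2i_lt s.F τ τ' t hc]
      exact hs.live c' τ'
    · subst hc
      by_cases hτ : τ' = τ
      · subst hτ
        rw [s2i_self, List.filter_append, List.length_append]
        have h1 : (([t] : List (Term S)).filter fun t => ¬ p.Con s.E t).length = 0 := by
          have := ha.con
          simp [this]
        rw [h1, Nat.add_zero]
        exact hs.live _ _
      · rw [s2i_ne s.F _ t hτ]
        exact hs.live _ _
    · rw [s2i_gt s.F τ τ' t hc]
      by_cases hd : p.u (p.lv c') ∣ (s.F c τ).length + 1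
      · rw [if_pos hd]
        exact Nat.zero_le _
      · rw [if_neg hd]
        exact hs.live c' τ'
  · intro j
    change (s.U j).card ≤ p.rk (p.st2 s c τ t) j
    by_cases hj : j ≤ p.q
    · exact (hs.budget j).trans (rk_st2_le h hs ha hj)
    · rw [hs.usedOut j (Or.inr (by omega)), card_empty]
      exact Nat.zero_le _

end Par

end Pool.Agent.LibPP83
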