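import Pool.Agent.LibPP83.Str1

/-!
Strings of pages, tasks, terms of a task.
-/

namespace Pool.Agent.LibPP83

open Finset Classical Pool.Agent.LibNexp Pool.Agent.LibSpec4

/-- The tasks with levels between `n` and `q`. -/
noncomputable def tasksOf (en : ℕ → Prog × ℕ) (n q : ℕ) : Finset (ℕ × Str) :=
  ((range (q + 1)) ×ˢ ((range (q + 1)).biUnion strs)).filter fun τ =>
    n ≤ lvl en τ ∧ lvl en τ ≤ q

theorem mem_tasksOf {en : ℕ → Prog × ℕ} {n q : ℕ} {τ : ℕ × Str} :
    τ ∈ tasksOf en n q ↔ n ≤ lvl en τ ∧ lvl en τ ≤ q := by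
  unfold tasksOf
  simp only [mem_filter, mem_product, mem_range, mem_biUnion]
  constructor
  · intro h
    exact h.2
  · intro h
    have h1 : τ.1 ≤ lvl en τ := by
      unfold lvl
      omega
    have h2 : τ.2.length ≤ lvl en τ := by
      unfold lvl
      omega
    refine ⟨⟨by omega, τ.2.length, by omega, mem_strs.2 rfl⟩, h⟩

theorem card_tasksOf (en : ℕ → Prog × ℕ) (n q : ℕ) : (tasksOf en n q).card ≤ 2 ^ (2 * q + 1) := by
  have h1 : ((range (q + 1)).biUnion strs).card ≤ 2 ^ (q + 1) := by
    calc ((range (q + 1)).biUnion strs).card ≤ ∑ m ∈ range (q + 1), (strs m).card := card_biUnion_le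
      _ = ∑ m ∈ range (q + 1), 2 ^ m := by
          apply sum_congr rfl
          intro m _
          exact card_strs m
      _ ≤ 2 ^ (q + 1) := by
          have h := Nat.geomSum_lt (m := 2) (n := q + 1) (s := range (q + 1)) le_rfl (by
            intro k hk
            exact mem_range.1 hk)
          exact h.le
  have h2 : q + 1 ≤ 2 ^ q := Nat.lt_two_pow_self
  calc (tasksOf en n q).card
      ≤ ((range (q + 1)) ×ˢ ((range (q + 1)).biUnion strs)).card := card_filter_le _ _
    _ = (q + 1) * ((range (q + 1)).biUnion strs).card := by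
        rw [card_product, card_range]
    _ ≤ 2 ^ q * 2 ^ (q + 1) := Nat.mul_le_mul h2 h1
    _ = 2 ^ (2 * q + 1) := by
        rw [← pow_add]
        congr 1
        omega

theorem card_level (en : ℕ → Prog × ℕ) (n q i : ℕ) :
    ((tasksOf en n q).filter fun τ => lvl en τ = i).card ≤ 2 ^ (2 * i + 1) := by
  refine le_trans (card_le_card ?_) (card_tasksOf en i i)
  intro τ hτ
  have h := (mem_filter.1 hτ).2
  exact mem_tasksOf.2 ⟨h.symm.le, h.le⟩

end Pool.Agent.LibPP83
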