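import Pool.Agent.LibSpec4.Coding
import Pool.Agent.LibPP83.Defs

/-!
Strings of pages, tasks, terms of a task.
-/

namespace Pool.Agent.LibPP83

open Finset Classical Pool.Agent.LibNexp Pool.Agent.LibSpec4

abbrev Str := List Bool

/-- The string of a page: location `r`, kind `κ`, task `τ`. -/
def pgs (r : Str) (κ : ℕ) (τ : ℕ × Str) : Str :=
  false :: pair (pair τ.2 (List.replicate τ.1 true ++ false ::
    (List.replicate κ true ++ false :: r))) []

theorem pgs_injective {r r' : Str} {κ κ' : ℕ} {τ τ' : ℕ × Str} (h : pgs r κ τ = pgs r' κ' τ') :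
    r = r' ∧ κ = κ' ∧ τ = τ' := by
  unfold pgs at h
  have h1 := (List.cons.inj h).2
  obtain ⟨h2, -⟩ := pair_injective h1
  obtain ⟨h3, h4⟩ := pair_injective h2
  obtain ⟨h5, h6⟩ := unary_injective h4
  obtain ⟨h7, h8⟩ := unary_injective h6
  exact ⟨h8, h7, Prod.ext h5 h3⟩

/-- The level of a task. -/
def lvl (en : ℕ → Prog × ℕ) (τ : ℕ × Str) : ℕ :=
  τ.2.length ^ (en τ.1).2 + (en τ.1).2 + τ.1 + τ.2.length

/-- The terms of a task. -/
def Dt (en : ℕ → Prog × ℕ) (τ : ℕ × Str) : Set (Term Str) :=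
  {t | Disjoint t.1 t.2 ∧ t.1.card + t.2.card ≤ 2 ^ lvl en τ ∧
    (∀ z, z ∈ t.1 ∨ z ∈ t.2 → z.length ≤ 2 ^ lvl en τ) ∧
    ∀ O : Str → Bool, (∀ z ∈ t.1, O z = true) → (∀ z ∈ t.2, O z = false) →
      AccN en O τ.1 τ.2}

theorem add_two_pow_le (a b : ℕ) : a + 2 ^ b ≤ 2 ^ (a + b) := by
  have h1 : a < 2 ^ a := Nat.lt_two_pow_self
  have h2 : 1 ≤ 2 ^ b := Nat.one_le_two_pow
  rw [pow_add]
  nlinarith [Nat.mul_le_mul_left a h2, Nat.mul_le_mul_right (2 ^ b) (Nat.succ_le_of_lt h1)]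

theorem acc_use_le {O : List Bool → Bool} {p : Prog} {T : ℕ} {z : List Bool}
    (h : Acc O p T z) :
    ∃ Q : Finset (List Bool), Q.card ≤ T ∧ (∀ s ∈ Q, s.length ≤ z.length + T) ∧
      ∀ O' : List Bool → Bool, (∀ s ∈ Q, O' s = O s) → Acc O' p T z := by
  obtain ⟨Q, hQ, h1⟩ := acc_use h
  refine ⟨Q.filter fun s => s.length ≤ z.length + T, le_trans (Finset.card_filter_le _ _) hQ,
    fun s hs => (Finset.mem_filter.1 hs).2, fun O' hO' => ?_⟩
  have h2 := h1 (fun s => if s.length ≤ z.length + T then O' s else O s) (by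
    intro s hs
    split_ifs with h3
    · exact hO' s (Finset.mem_filter.2 ⟨hs, h3⟩)
    · rfl)
  refine acc_agree (fun s hs => ?_) h2
  rw [if_pos hs]

theorem exists_term {en : ℕ → Prog × ℕ} {O : Str → Bool} {τ : ℕ × Str}
    (h : AccN en O τ.1 τ.2) :
    ∃ t ∈ Dt en τ, (∀ z ∈ t.1, O z = true) ∧ ∀ z ∈ t.2, O z = false := by
  obtain ⟨Q, hQ, hQl, hQ2⟩ := acc_use_le (show Acc O (en τ.1).1
    (2 ^ (τ.2.length ^ (en τ.1).2 + (en τ.1).2)) τ.2 from h)
  have hT : 2 ^ (τ.2.length ^ (en τ.1).2 + (en τ.1).2) ≤ 2 ^ lvl en τ := by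
    refine Nat.pow_le_pow_right (by norm_num) ?_
    unfold lvl
    omega
  have hT2 : τ.2.length + 2 ^ (τ.2.length ^ (en τ.1).2 + (en τ.1).2) ≤ 2 ^ lvl en τ := by
    refine le_trans (add_two_pow_le _ _) (Nat.pow_le_pow_right (by norm_num) ?_)
    unfold lvl
    omega
  refine ⟨(Q.filter fun s => O s = true, Q.filter fun s => O s = false),
    ⟨?_, ?_, ?_, ?_⟩, ?_, ?_⟩
  · rw [Finset.disjoint_left]
    intro s hs hs'
    have h1 := (Finset.mem_filter.1 hs).2
    have h2 := (Finset.mem_filter.1 hs').2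
    rw [h1] at h2
    exact absurd h2 (by decide)
  · have hd : Disjoint (Q.filter fun s => O s = true) (Q.filter fun s => O s = false) := by
      rw [Finset.disjoint_left]
      intro s hs hs'
      have h1 := (Finset.mem_filter.1 hs).2
      have h2 := (Finset.mem_filter.1 hs').2
      rw [h1] at h2
      exact absurd h2 (by decide)
    show (Q.filter fun s => O s = true).card + (Q.filter fun s => O s = false).card ≤ _
    rw [← Finset.card_union_of_disjoint hd]
    refine le_trans (Finset.card_le_card (Finset.union_subset (Finset.filter_subset _ _)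
      (Finset.filter_subset _ _))) (le_trans hQ hT)
  · rintro z (hz | hz)
    · exact le_trans (hQl z (Finset.mem_filter.1 hz).1) hT2
    · exact le_trans (hQl z (Finset.mem_filter.1 hz).1) hT2
  · intro O' h1 h2
    refine hQ2 O' fun s hs => ?_
    rcases hb : O s with _ | _
    · exact h2 s (Finset.mem_filter.2 ⟨hs, hb⟩)
    · exact h1 s (Finset.mem_filter.2 ⟨hs, hb⟩)
  · intro z hz
    exact (Finset.mem_filter.1 hz).2
  · intro z hz
    exact (Finset.mem_filter.1 hz).2

end Pool.Agent.LibPP83
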