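import Pool.Agent.LibPP83.Defs

/-!
Lists which agree at some resolution.
-/

namespace Pool.Agent.LibPP83

open Finset Classical

variable {S T R : Type} {p : Par S T R}

namespace Par

/-- The lists of the cells before `m` agree at the resolution of level `j`. -/
def Agree (p : Par S T R) (F F' : Lists S T) (m j : ℕ) : Prop :=
  ∀ c < m, ∀ τ, p.tr j (F c τ) = p.tr j (F' c τ)

theorem u_dvd_of_le (h : p.Ok) {j j' : ℕ} (hj : j' ≤ j) : p.u j ∣ p.u j' := by
  induction j, hj using Nat.le_induction with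
  | base => exact dvd_rfl
  | succ n hn ih => exact (h.u_dvd n).trans ih

theorem length_tr (j : ℕ) (l : List (Term S)) :
    (p.tr j l).length = p.u j * (l.length / p.u j) := by
  unfold tr
  rw [List.length_take]
  exact min_eq_left (Nat.mul_div_le _ _)

theorem tr_tr (h : p.Ok) {j j' : ℕ} (hj : j' ≤ j) (l : List (Term S)) :
    p.tr j' (p.tr j l) = p.tr j' l := by
  obtain ⟨d, hd⟩ := u_dvd_of_le h hj
  have h1 : p.u j * (l.length / p.u j) / p.u j' = l.length / p.u j' := by
    rw [hd, Nat.mul_div_mul_left _ _ (h.u_pos j), Nat.div_div_eq_div_mul]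
  have h2 : p.u j' * (l.length / p.u j') ≤ p.u j * (l.length / p.u j) := by
    rw [hd, ← Nat.div_div_eq_div_mul, Nat.mul_assoc]
    exact Nat.mul_le_mul_left _ (Nat.mul_div_le _ _)
  unfold tr
  rw [List.length_take, min_eq_left (Nat.mul_div_le _ _), h1, List.take_take, min_eq_left h2]

theorem div_eq_of_tr (h : p.Ok) {j : ℕ} {l l' : List (Term S)} (he : p.tr j l = p.tr j l') :
    l.length / p.u j = l'.length / p.u j := by
  have h1 := congrArg List.length he
  rw [length_tr, length_tr] at h1
  exact Nat.eq_of_mul_eq_mul_left (h.u_pos j) h1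

theorem Agree.res (h : p.Ok) {F F' : Lists S T} {m j j' : ℕ} (hA : p.Agree F F' m j)
    (hj : j' ≤ j) : p.Agree F F' m j' := by
  intro c hc τ
  rw [← tr_tr h hj (F c τ), ← tr_tr h hj (F' c τ), hA c hc τ]

theorem Agree.symm {F F' : Lists S T} {m j : ℕ} (hA : p.Agree F F' m j) : p.Agree F' F m j :=
  fun c hc τ => (hA c hc τ).symm

theorem Agree.mono {F F' : Lists S T} {m m' j : ℕ} (hA : p.Agree F F' m j) (hm : m' ≤ m) :
    p.Agree F F' m' j :=
  fun c hc τ => hA c (hc.trans_le hm) τ

/-- Thresholds are visible at the resolution of level `j`. -/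
theorem le_length_iff (h : p.Ok) {c j s : ℕ} (hj : p.lv c ≤ j) (hq : p.lv c ≤ p.q)
    (l : List (Term S)) : p.A c s ≤ l.length ↔ p.A c s ≤ (p.tr j l).length := by
  obtain ⟨e, he⟩ := (u_dvd_of_le h hj).trans (h.A_dvd c hq s)
  rw [length_tr, he]
  constructor
  · intro h1
    refine Nat.mul_le_mul_left _ ?_
    rw [Nat.le_div_iff_mul_le (h.u_pos j), Nat.mul_comm]
    exact h1
  · intro h1
    exact h1.trans (Nat.mul_div_le _ _)

end Par

end Pool.Agent.LibPP83
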