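import Pool.Agent.LibPP83.Win1

/-!
Finite partial oracles and windows.
-/

namespace Pool.Agent.LibPP83

open Finset Classical Pool.Agent.LibNexp Pool.Agent.LibSpec4

theorem card_Av {en : ℕ → Prog × ℕ} {k : ℕ} {φ : Part} {n q J i : ℕ} (hV : Valid en k φ n)
    (hni : n ≤ i) : 2 ^ ell k i ≤ ((win en k φ n q J).Av i).card + 2 ^ Qk k n := by
  have h1 : (strs (ell k i)).card = ((win en k φ n q J).Av i).card +
      ((strs (ell k i)).filter fun r => ¬ ∀ κ τ, lvl en τ = i → pgs r κ τ ∉ φ.D).card :=
    (Finset.card_filter_add_card_filter_not (s := strs (ell k i))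
      (fun r => ∀ κ τ, lvl en τ = i → pgs r κ τ ∉ φ.D)).symm
  have h2 : ((strs (ell k i)).filter fun r =>
      ¬ ∀ κ τ, lvl en τ = i → pgs r κ τ ∉ φ.D).card ≤ 2 ^ Qk k n := by
    refine le_trans ?_ hV.few
    refine Finset.card_le_card_of_injOn
      (fun r => if h : ∃ κ τ, lvl en τ = i ∧ pgs r κ τ ∈ φ.D then
        pgs r h.choose h.choose_spec.choose else []) ?_ ?_
    · intro r hr
      rw [Finset.mem_coe, Finset.mem_filter] at hr
      have hex : ∃ κ τ, lvl en τ = i ∧ pgs r κ τ ∈ φ.D := by
        have := hr.2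
        push Not at this
        exact this
      rw [Finset.mem_coe, Finset.mem_filter]
      simp only [dif_pos hex]
      have hs := hex.choose_spec.choose_spec
      exact ⟨hs.2, r, hex.choose, hex.choose_spec.choose, by rw [hs.1]; exact hni, rfl⟩
    · intro r hr r' hr' he
      rw [Finset.mem_coe, Finset.mem_filter] at hr hr'
      have hex : ∃ κ τ, lvl en τ = i ∧ pgs r κ τ ∈ φ.D := by
        have := hr.2
        push Not at this
        exact this
      have hex' : ∃ κ τ, lvl en τ = i ∧ pgs r' κ τ ∈ φ.D := by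
        have := hr'.2
        push Not at this
        exact this
      simp only [dif_pos hex, dif_pos hex'] at he
      exact (pgs_injective he).1
  rw [card_strs] at h1
  omega

theorem ok_win {en : ℕ → Prog × ℕ} {k : ℕ} {φ : Part} {n q J : ℕ} (hV : Valid en k φ n)
    (hnq : n ≤ q) (hJ : J ≤ 2 * (n + 1) ^ k) : (win en k φ n q J).Ok where
  nq := hnq
  hlev := fun τ hτ => mem_tasksOf.1 hτ
  hnt := fun i => card_level en n q i
  hD := fun τ _ t ht => ht.2.1
  hDd := fun τ _ t ht => ht.1
  hsz := fun a b hab => Nat.pow_le_pow_right (by norm_num) hab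
  pg_inj := fun h => pgs_injective h
  pg_free := by
    intro r κ τ hκ hτ hr hf
    refine hf.2 (mem_WP.2 ⟨r, κ, τ, hτ, hκ, ?_, rfl⟩)
    exact mem_strs.1 (Finset.mem_filter.1 hr).1
  pg_Y := by
    intro r κ τ hκ hτ hr hf
    exact (Finset.mem_filter.1 hr).2 κ τ rfl (φ.sub hf)
  bp_spec := fun c j => lvc_le
  lv_bp := fun j => lvc_bp J j
  typ_bp := fun j => typc_bp J j
  typ_two := fun c h => typc_two h
  typ_one := fun c h => typc_one h
  typ_zero := typc_zero J
  kd_le := fun c h => kdc_le h
  runs := fun i κ _ _ hκ => runs J i κ hκ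
  hdep := fun i => show (2 : ℕ) ^ (2 * i + 1) < 2 ^ (2 * i + 2) from
    Nat.pow_lt_pow_right (by norm_num) (by omega)
  u_pos := fun j => Nat.pow_pos (by norm_num)
  u_dvd := fun j => pow_dvd_pow 2 (gam_anti J q (off_mono J (by omega)))
  A_dvd := fun c hc s => num_dvd hc s
  A_pos := fun c => Nat.pow_pos (by norm_num)
  A_le := fun c => ⟨Nat.pow_le_pow_right (by norm_num) (by
      have : 1 * gg J (lvc J c) ≤ 2 * gg J (lvc J c) := Nat.mul_le_mul_right _ (by norm_num)
      omega), Nat.pow_le_pow_right (by norm_num) (by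
      have : 2 * gg J (lvc J c) ≤ 3 * gg J (lvc J c) := Nat.mul_le_mul_right _ (by norm_num)
      omega)⟩
  big := by
    intro c hc
    show (2 : ℕ) ^ (3 * q + 3) ≤ 2 ^ (gam J q (c + 1) + 1 * gg J (lvc J c))
    refine Nat.pow_le_pow_right (by norm_num) ?_
    have h1 := vs_le J q (c + 1)
    unfold vs at h1
    omega
  hβ1 := fun j => Nat.one_lt_two_pow (by omega)
  hβ := fun j hj c hc => num_beta hj hc
  loc := by
    intro i hni hiq
    have h1 := num_loc (J := J) (q := q) (i := i) hiq
    have h2 := num_ell (k := k) (J := J) hni hJ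
    have h3 := card_Av (q := q) (J := J) hV hni
    exact lt_of_le_of_lt h1 (Nat.lt_of_add_lt_add_right (lt_of_lt_of_le h2 h3))
  loss := fun c _ hc => num_loss hc
  zero := fun c _ hc s hs => num_zero hc hs

end Pool.Agent.LibPP83
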