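import Pool.Agent.LibPP83.Realise

/-!
The oracles of a world: the tasks with status at most `κ` are accepted, the others are not.
-/

namespace Pool.Agent.LibPP83

open Finset Classical

variable {S T R : Type} {p : Par S T R}

namespace Par

/-- The oracle `O` belongs to the world `κ`. -/
structure InWorld (p : Par S T R) (E : Set S) (σ : T → ℕ) (Z : Finset S) (κ : ℕ)
    (ch : T → Term S) (O : Set S) : Prop where
  fixed : ∀ z, z ∉ p.Free → (z ∈ O ↔ z ∈ p.Y ∪ E)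
  pos : ∀ τ ∈ p.tasks, σ τ ≤ κ → ∀ z ∈ p.PX (ch τ), z ∈ O
  neg : ∀ τ ∈ p.tasks, σ τ ≤ κ → ∀ z ∈ (ch τ).2, z ∈ p.Free → z ∉ O
  zero : ∀ z ∈ Z, z ∉ O
  high : ∀ z ∈ p.Free, κ < p.kv z → z ∉ O

theorem world_acc {E : Set S} {σ : T → ℕ} {Z : Finset S} {κ : ℕ} {ch : T → Term S} {O : Set S}
    (hO : p.InWorld E σ Z κ ch O) {τ : T} (hτ : τ ∈ p.tasks) (hσ : σ τ ≤ κ)
    (hc : p.Con E (ch τ)) : (∀ z ∈ (ch τ).1, z ∈ O) ∧ ∀ z ∈ (ch τ).2, z ∉ O := by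
  refine ⟨fun z hz => ?_, fun z hz => ?_⟩
  · by_cases hf : z ∈ p.Free
    · exact hO.pos τ hτ hσ z (Finset.mem_filter.2 ⟨hz, hf⟩)
    · exact (hO.fixed z hf).2 (hc.1 z hz hf)
  · by_cases hf : z ∈ p.Free
    · exact hO.neg τ hτ hσ z hz hf
    · exact fun h => hc.2 z hz hf ((hO.fixed z hf).1 h)

theorem world_rej {E : Set S} {σ : T → ℕ} {Z : Finset S} {fam : T → List (Term S)} {κ : ℕ}
    {ch : T → Term S} {O : Set S} (ho : p.Out E σ Z fam) (hO : p.InWorld E σ Z κ ch O)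
    (hκ : κ ≤ p.J) {τ : T} (hτ : τ ∈ p.tasks) (hσ : κ < σ τ) {t : Term S} (ht : t ∈ p.D τ) :
    ¬ ((∀ z ∈ t.1, z ∈ O) ∧ ∀ z ∈ t.2, z ∉ O) := by
  rintro ⟨h1, h2⟩
  have hK : p.Kd κ t := by
    intro z hz
    have hz' := Finset.mem_filter.1 hz
    by_contra hlt
    exact hO.high z hz'.2 (not_le.1 hlt) (h1 z hz'.1)
  have hC : p.Con E t :=
    ⟨fun z hz hf => (hO.fixed z hf).1 (h1 z hz), fun z hz hf h => h2 z hz ((hO.fixed z hf).2 h)⟩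
  apply ho.dead τ hτ κ hκ hσ t ht hK hC
  rw [Finset.disjoint_left]
  intro z hz hzZ
  exact hO.zero z hzZ (h1 z (Finset.mem_filter.1 hz).1)

end Par

end Pool.Agent.LibPP83
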