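import Pool.Agent.LibPP83.Str
import Pool.Agent.LibPP83.Num2
import Pool.Agent.LibPP83.Num3
import Pool.Agent.LibPP83.Num4
import Pool.Agent.LibPP83.World
import Pool.Agent.LibPP83.Core

/-!
Finite partial oracles and windows.
-/

namespace Pool.Agent.LibPP83

open Finset Classical Pool.Agent.LibNexp Pool.Agent.LibSpec4

/-- A finite partial oracle: the decided strings, and the ones among them. -/
structure Part where
  D : Finset Str
  Y : Finset Str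
  sub : Y ⊆ D

/-- The oracle `O` extends `φ`. -/
def Part.Ext (φ : Part) (O : Str → Bool) : Prop := ∀ z ∈ φ.D, (O z = true ↔ z ∈ φ.Y)

/-- `ψ` extends `φ`. -/
def Part.Le (φ ψ : Part) : Prop := φ.D ⊆ ψ.D ∧ ∀ z ∈ φ.D, (z ∈ ψ.Y ↔ z ∈ φ.Y)

theorem Part.Le.ext {φ ψ : Part} (h : φ.Le ψ) {O : Str → Bool} (hO : ψ.Ext O) : φ.Ext O := by
  intro z hz
  rw [hO z (h.1 hz), h.2 z hz]

theorem Part.Le.trans {φ ψ χ : Part} (h : φ.Le ψ) (h' : ψ.Le χ) : φ.Le χ :=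
  ⟨h.1.trans h'.1, fun z hz => (h'.2 z (h.1 hz)).trans (h.2 z hz)⟩

/-- Everything about the levels below `n` is decided. -/
structure Valid (en : ℕ → Prog × ℕ) (k : ℕ) (φ : Part) (n : ℕ) : Prop where
  dec : ∀ τ, lvl en τ < n → ∀ O O' : Str → Bool, φ.Ext O → φ.Ext O' →
    AccN en O τ.1 τ.2 → AccN en O' τ.1 τ.2
  page : ∀ i < n, ∃ κ ≤ 2 * (i + 1) ^ k, ∃ r : Str, r.length = ell k i ∧
    ∀ O : Str → Bool, φ.Ext O → ∀ τ, lvl en τ = i →
      (O (pgs r κ τ) = true ↔ AccN en O τ.1 τ.2)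
  few : (φ.D.filter fun z => ∃ r κ τ, n ≤ lvl en τ ∧ z = pgs r κ τ).card ≤ 2 ^ Qk k n
  short : ∀ z : Str, true :: z ∈ φ.D → (true :: z).length < n + 2 ^ n

/-- The possible witness strings of kind `κ`. -/
noncomputable def Wk (n κ : ℕ) : Finset Str := (strs (2 ^ n)).image fun w => xs n (κ - 1) ++ w

theorem mem_Wk {n κ : ℕ} {z : Str} :
    z ∈ Wk n κ ↔ ∃ w : Str, w.length = 2 ^ n ∧ z = xs n (κ - 1) ++ w := by
  unfold Wk
  simp only [mem_image, mem_strs]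
  constructor
  · rintro ⟨w, hw, rfl⟩
    exact ⟨w, hw, rfl⟩
  · rintro ⟨w, hw, rfl⟩
    exact ⟨w, hw, rfl⟩

theorem card_Wk (n κ : ℕ) : (Wk n κ).card = 2 ^ 2 ^ n := by
  unfold Wk
  rw [card_image_of_injective _ (List.append_right_injective _), card_strs]

theorem Wk_unique {n κ κ' J : ℕ} (hJ : J ≤ 2 ^ (n - 1)) (h1 : 1 ≤ κ) (h2 : κ ≤ J)
    (h1' : 1 ≤ κ') (h2' : κ' ≤ J) {z : Str} (hz : z ∈ Wk n κ) (hz' : z ∈ Wk n κ') : κ = κ' := by
  rcases Nat.eq_zero_or_pos n with hn | hn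
  · subst hn
    simp at hJ
    omega
  · obtain ⟨w, hw, rfl⟩ := mem_Wk.1 hz
    obtain ⟨w', hw', he⟩ := mem_Wk.1 hz'
    have h3 := (List.append_inj he (by rw [length_xs hn, length_xs hn])).1
    have h4 := xs_injective (n := n) (i := κ - 1) (i' := κ' - 1) (by omega) (by omega) h3
    omega

/-- The kind of a string. -/
noncomputable def kv (n J : ℕ) (z : Str) : ℕ :=
  if h : ∃ κ, 1 ≤ κ ∧ κ ≤ J ∧ z ∈ Wk n κ then Nat.find h else 0

theorem kv_eq {n κ J : ℕ} (hJ : J ≤ 2 ^ (n - 1)) (h1 : 1 ≤ κ) (h2 : κ ≤ J) {z : Str}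
    (hz : z ∈ Wk n κ) : kv n J z = κ := by
  unfold kv
  have hex : ∃ κ, 1 ≤ κ ∧ κ ≤ J ∧ z ∈ Wk n κ := ⟨κ, h1, h2, hz⟩
  rw [dif_pos hex]
  obtain ⟨h3, h4, h5⟩ := Nat.find_spec hex
  exact Wk_unique hJ h3 h4 h1 h2 h5 hz

theorem kv_pos {n J : ℕ} {z : Str} (h : 0 < kv n J z) :
    kv n J z ≤ J ∧ z ∈ Wk n (kv n J z) := by
  unfold kv at h ⊢
  by_cases hex : ∃ κ, 1 ≤ κ ∧ κ ≤ J ∧ z ∈ Wk n κ
  · rw [dif_pos hex]
    exact ⟨(Nat.find_spec hex).2.1, (Nat.find_spec hex).2.2⟩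
  · rw [dif_neg hex] at h
    exact absurd h (lt_irrefl 0)

/-- All page strings of the window. -/
noncomputable def WP (en : ℕ → Prog × ℕ) (k n q J : ℕ) : Finset Str :=
  (tasksOf en n q).biUnion fun τ => (range (J + 1)).biUnion fun κ =>
    (strs (ell k (lvl en τ))).image fun r => pgs r κ τ

theorem mem_WP {en : ℕ → Prog × ℕ} {k n q J : ℕ} {z : Str} : z ∈ WP en k n q J ↔
    ∃ r κ τ, τ ∈ tasksOf en n q ∧ κ ≤ J ∧ r.length = ell k (lvl en τ) ∧ z = pgs r κ τ := by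
  unfold WP
  simp only [mem_biUnion, mem_image, mem_strs, mem_range]
  constructor
  · rintro ⟨τ, hτ, κ, hκ, r, hr, rfl⟩
    exact ⟨r, κ, τ, hτ, by omega, hr, rfl⟩
  · rintro ⟨r, κ, τ, hτ, hκ, hr, rfl⟩
    exact ⟨τ, hτ, κ, by omega, r, hr, rfl⟩

/-- The window `[n, q]` with `J` inputs which may have a witness. -/
noncomputable def win (en : ℕ → Prog × ℕ) (k : ℕ) (φ : Part) (n q J : ℕ) :
    Par Str (ℕ × Str) Str where
  n := n
  q := q
  J := J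
  tasks := tasksOf en n q
  lev := lvl en
  D := Dt en
  sz := fun i => 2 ^ i
  nt := fun i => 2 ^ (2 * i + 1)
  pg := pgs
  Av := fun i => (strs (ell k i)).filter fun r => ∀ κ τ, lvl en τ = i → pgs r κ τ ∉ φ.D
  Free := {z | z ∉ φ.D ∧ z ∉ WP en k n q J}
  kv := kv n J
  Y := {z | z ∈ φ.Y}
  lv := lvc J
  kd := kdc J
  typ := typc J
  bp := fun j => off J (j + 1) - 1
  A := AA J q
  u := uu J q
  lam := lm J q
  β := be J
  θ := 2 ^ (3 * q + 3)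
  dep := fun i => 2 * i + 2
  M := 2 ^ (3 * q + 3)

end Pool.Agent.LibPP83
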