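import Pool.Agent.LibPP83.New4

/-!
One window.
-/

namespace Pool.Agent.LibPP83

open Finset Classical Pool.Agent.LibNexp Pool.Agent.LibSpec4

variable {en : ℕ → Prog × ℕ} {k : ℕ} {φ : Part} {n q J : ℕ}

theorem tasks_bound (en : ℕ → Prog × ℕ) (n q : ℕ) :
    4 * ((tasksOf en n q).card * 2 ^ q) ≤ 2 ^ (3 * q + 3) := by
  have h1 := card_tasksOf en n q
  calc 4 * ((tasksOf en n q).card * 2 ^ q) ≤ 4 * (2 ^ (2 * q + 1) * 2 ^ q) :=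
        Nat.mul_le_mul_left _ (Nat.mul_le_mul_right _ h1)
    _ = 2 ^ 2 * (2 ^ (2 * q + 1) * 2 ^ q) := by norm_num
    _ = 2 ^ (2 + (2 * q + 1 + q)) := by rw [← pow_add, ← pow_add]
    _ = 2 ^ (3 * q + 3) := by congr 1; ring

theorem exists_choice (hV : Valid en k φ n) (hnq : n ≤ q) (hJ : J ≤ 2 * (n + 1) ^ k)
    (hn : J = 0 ∨ 1 ≤ n ∧ J ≤ 2 ^ (n - 1) ∧ pz J q < 2 ^ n) {E : Set Str}
    {σ : ℕ × Str → ℕ} {Z : Finset Str} {fam : ℕ × Str → List (Term Str)}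
    (ho : (win en k φ n q J).Out E σ Z fam) {κ : ℕ} (hκ : κ ≤ J) :
    ∃ (ch : ℕ × Str → Term Str) (w : ℕ → Str), Choice en k φ n q J E σ Z fam κ ch w := by
  have hOk := ok_win (en := en) (k := k) (φ := φ) (n := n) (q := q) (J := J) hV hnq hJ
  have hM1 : 1 ≤ (win en k φ n q J).M := Nat.one_le_two_pow
  have hθ : 4 * ((win en k φ n q J).tasks.card *
      (win en k φ n q J).sz (win en k φ n q J).q) ≤ (win en k φ n q J).θ := tasks_bound en n q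
  have hM : 4 * ((win en k φ n q J).tasks.card *
      (win en k φ n q J).sz (win en k φ n q J).q) ≤ (win en k φ n q J).M := tasks_bound en n q
  obtain ⟨ch, h1, h2⟩ := Par.realise hOk ho hM1 hθ hM (κ := κ) hκ
  have hch : ∀ τ ∈ tasksOf en n q, σ τ ≤ κ → ch τ ∈ Dt en τ := fun τ hτ hσ => (h1 τ hτ hσ).1
  have hcard := touched_card (κ := κ) ho hch
  have hw : ∀ κ', ∃ z : Str, 1 ≤ κ' → κ' ≤ κ → z ∈ Wk n κ' ∧ z ∉ Z ∧
      ∀ τ ∈ tasksOf en n q, σ τ ≤ κ → z ∉ (ch τ).2 := by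
    intro κ'
    by_cases hk : 1 ≤ κ' ∧ κ' ≤ κ
    · obtain ⟨hk1, hk2⟩ := hk
      rcases hn with hn | ⟨hn1, hn2, hn3⟩
      · omega
      · have hlt : (Z ∪ ((tasksOf en n q).filter fun τ => σ τ ≤ κ).biUnion fun τ =>
            (ch τ).1 ∪ (ch τ).2).card < (Wk n κ').card := by
          rw [card_Wk]
          exact lt_of_le_of_lt hcard (Nat.pow_lt_pow_right (by norm_num) hn3)
        obtain ⟨z, hz, hz2⟩ := Finset.exists_mem_notMem_of_card_lt_card hlt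
        refine ⟨z, fun _ _ => ⟨hz, fun hzZ => hz2 (Finset.mem_union_left _ hzZ), ?_⟩⟩
        intro τ hτ hσ hzτ
        exact hz2 (Finset.mem_union_right _ (Finset.mem_biUnion.2
          ⟨τ, Finset.mem_filter.2 ⟨hτ, hσ⟩, Finset.mem_union_right _ hzτ⟩))
    · exact ⟨[], fun a b => absurd ⟨a, b⟩ hk⟩
  choose w hw using hw
  refine ⟨ch, w, ⟨ho, hκ, h1, h2, hw⟩⟩

theorem window (hV : Valid en k φ n) (hnq : n ≤ q) (hJ : J ≤ 2 * (n + 1) ^ k)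
    (hn : J = 0 ∨ 1 ≤ n ∧ J ≤ 2 ^ (n - 1) ∧ pz J q < 2 ^ n) :
    ∃ σ : ℕ × Str → ℕ, ∀ κ ≤ J, ∃ ψ : Part, φ.Le ψ ∧ Valid en k ψ (q + 1) ∧
      ∀ O : Str → Bool, ψ.Ext O →
        (∀ τ, n ≤ lvl en τ → lvl en τ ≤ q → (AccN en O τ.1 τ.2 ↔ σ τ ≤ κ)) ∧
        ∀ κ', 1 ≤ κ' → κ' ≤ J → (xs n (κ' - 1) ∈ WitLang O ↔ κ' ≤ κ) := by
  obtain ⟨E, σ, Z, fam, ho⟩ := Par.core (ok_win (en := en) (k := k) (φ := φ) (n := n) (q := q)
    (J := J) hV hnq hJ)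
  refine ⟨σ, fun κ hκ => ?_⟩
  obtain ⟨ch, w, hc⟩ := exists_choice hV hnq hJ hn ho hκ
  have hn1 : J = 0 ∨ 1 ≤ n := hn.imp_right fun h => h.1
  have hn2 : J = 0 ∨ 1 ≤ n ∧ J ≤ 2 ^ (n - 1) := hn.imp_right fun h => ⟨h.1, h.2.1⟩
  refine ⟨newPart en k φ n q J E σ Z κ ch w, new_le hV hn1 hc,
    new_valid hV hnq hJ hn2 hc, fun O hO => ⟨fun τ h1 h2 => new_acc hV hn2 hc hO h1 h2,
    fun κ' h1 h2 => new_wit hV hn2 hc hO h1 h2⟩⟩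

theorem idle (hV : Valid en k φ n) : ∃ ψ : Part, φ.Le ψ ∧ Valid en k ψ (n + 1) := by
  obtain ⟨σ, h⟩ := window (q := n) (J := 0) hV le_rfl (Nat.zero_le _) (Or.inl rfl)
  obtain ⟨ψ, h1, h2, -⟩ := h 0 le_rfl
  exact ⟨ψ, h1, h2⟩

end Pool.Agent.LibPP83
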