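import Pool.Agent.LibPP83.Rank

/-!
Few strings are zeroed after a cell.
-/

namespace Pool.Agent.LibPP83

open Finset Classical

variable {S T R : Type} {p : Par S T R}

namespace Par

theorem zcard_mem_un {l : List (Term S)} {z : S} : z ∈ p.un l ↔ ∃ t ∈ l, z ∈ p.PX t := by
  unfold un
  simp only [Finset.mem_biUnion, List.mem_toFinset]

theorem card_un {l : List (Term S)} {m : ℕ} (hl : ∀ t ∈ l, t.1.card + t.2.card ≤ m) :
    (p.un l).card ≤ l.length * m := by
  unfold un
  refine (Finset.card_biUnion_le_card_mul _ _ m fun t ht => ?_).trans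
    (Nat.mul_le_mul_right m (List.toFinset_card_le l))
  have h1 : (p.PX t).card ≤ t.1.card := Finset.card_le_card (Finset.filter_subset _ _)
  have h2 := hl t (List.mem_toFinset.1 ht)
  omega

theorem un_sub_tr (j : ℕ) (l : List (Term S)) :
    p.un l ⊆ p.un (p.tr j l) ∪ p.un (l.drop (p.u j * (l.length / p.u j))) := by
  intro z hz
  obtain ⟨t, ht, hzt⟩ := zcard_mem_un.1 hz
  rw [← List.take_append_drop (p.u j * (l.length / p.u j)) l, List.mem_append] at ht
  rcases ht with ht | ht
  · exact Finset.mem_union_left _ (zcard_mem_un.2 ⟨t, ht, hzt⟩)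
  · exact Finset.mem_union_right _ (zcard_mem_un.2 ⟨t, ht, hzt⟩)

theorem zcard_sum {m : ℕ} (P : Finset S) (l : List (Term S)) :
    (∀ t ∈ l, t.2.card ≤ m) →
    ∑ z ∈ P, (l.filter fun t => z ∈ t.2).length ≤ l.length * m := by
  induction l with
  | nil => intro _; simp
  | cons t l ih =>
    intro h
    have h1 := ih fun t' ht' => h t' (List.mem_cons_of_mem _ ht')
    have h2 : ∀ z ∈ P, ((t :: l).filter fun t => z ∈ t.2).length =
        (if z ∈ t.2 then 1 else 0) + (l.filter fun t => z ∈ t.2).length := by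
      intro z _
      by_cases hz : z ∈ t.2
      · rw [List.filter_cons_of_pos (by simpa using hz), if_pos hz, List.length_cons]
        omega
      · rw [List.filter_cons_of_neg (by simpa using hz), if_neg hz]
        omega
    rw [Finset.sum_congr rfl h2, Finset.sum_add_distrib, ← Finset.card_filter]
    have h3 : (P.filter fun z => z ∈ t.2).card ≤ m :=
      (Finset.card_le_card fun z hz => (Finset.mem_filter.1 hz).2).trans
        (h t List.mem_cons_self)
    rw [List.length_cons, Nat.succ_mul]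
    omega

theorem card_pop {k m : ℕ} {l : List (Term S)} (hk : 0 < k) (hkl : k ≤ l.length)
    (hl : ∀ t ∈ l, t.1.card + t.2.card ≤ m) : (p.pop k l).card ≤ p.θ * m := by
  have h1 : ∀ z ∈ p.pop k l, k ≤ p.θ * ((l.take k).filter fun t => z ∈ t.2).length := by
    intro z hz
    exact (Finset.mem_filter.1 hz).2.2.le
  have h2 := Finset.card_nsmul_le_sum _ _ _ h1
  rw [← Finset.mul_sum, smul_eq_mul] at h2
  have h3 := zcard_sum (m := m) (p.pop k l) (l.take k) (fun t ht => by
    have := hl t (List.mem_of_mem_take ht)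
    omega)
  rw [List.length_take, min_eq_left hkl] at h3
  have h4 : (p.pop k l).card * k ≤ (p.θ * m) * k := by
    refine h2.trans ((Nat.mul_le_mul_left p.θ h3).trans (le_of_eq ?_))
    ring
  exact Nat.le_of_mul_le_mul_right h4 hk

theorem zcard_sz (h : p.Ok) {s : State S T R} (hs : p.Inv s) {c : ℕ} {τ : T}
    (hτ : τ ∈ p.Jc s.F c) : ∀ t ∈ s.F c τ, t.1.card + t.2.card ≤ p.sz (p.lv c) := by
  intro t ht
  obtain ⟨h1, h2, -⟩ := Jc_facts h s.F hτ
  rw [← h2]
  exact h.hD τ h1 t (hs.mem c τ t ht).1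

theorem zcard_jc (h : p.Ok) (F : Lists S T) (c : ℕ) : (p.Jc F c).card ≤ p.nt (p.lv c) :=
  (Finset.card_le_card (Jc_sub h F c)).trans (h.hnt _)

theorem zcard_dead (h : p.Ok) {s : State S T R} (hs : p.Inv s) (c : ℕ) (L : ℕ)
    (hL : ∀ τ ∈ p.Dead s.F c, (s.F c τ).length ≤ L) :
    ((p.Dead s.F c).biUnion fun τ => p.un (s.F c τ)).card ≤
      p.nt (p.lv c) * (L * p.sz (p.lv c)) := by
  refine (Finset.card_biUnion_le_card_mul _ _ (L * p.sz (p.lv c)) fun τ hτ => ?_).trans
    (Nat.mul_le_mul_right _ ((Finset.card_le_card (Dead_sub s.F c)).trans (zcard_jc h s.F c)))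
  exact (card_un (zcard_sz h hs (Dead_sub s.F c hτ))).trans (Nat.mul_le_mul_right _ (hL τ hτ))

theorem zcard_rich (h : p.Ok) {s : State S T R} (hs : p.Inv s) (c : ℕ) :
    ((p.Rich s.F c).biUnion fun τ => p.pop (p.K s.F c) (s.F c τ)).card ≤
      p.nt (p.lv c) * (p.θ * p.sz (p.lv c)) := by
  refine (Finset.card_biUnion_le_card_mul _ _ (p.θ * p.sz (p.lv c)) fun τ hτ => ?_).trans
    (Nat.mul_le_mul_right _ ((Finset.card_le_card (Rich_sub s.F c)).trans (zcard_jc h s.F c)))
  exact card_pop (K_bounds h s.F c).2.2 (Rich_len s.F hτ) (zcard_sz h hs (Rich_sub s.F c hτ))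

theorem zcard_drop (h : p.Ok) {s : State S T R} (hs : p.Inv s) (c j : ℕ) :
    ((p.Dead s.F c).biUnion fun τ =>
      p.un ((s.F c τ).drop (p.u j * ((s.F c τ).length / p.u j)))).card ≤
      p.nt (p.lv c) * (p.u j * p.sz (p.lv c)) := by
  refine (Finset.card_biUnion_le_card_mul _ _ (p.u j * p.sz (p.lv c)) fun τ hτ => ?_).trans
    (Nat.mul_le_mul_right _ ((Finset.card_le_card (Dead_sub s.F c)).trans (zcard_jc h s.F c)))
  refine (card_un (m := p.sz (p.lv c)) fun t ht =>
    zcard_sz h hs (Dead_sub s.F c hτ) t (List.mem_of_mem_drop ht)).trans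
      (Nat.mul_le_mul_right _ ?_)
  rw [List.length_drop]
  have h1 := Nat.div_add_mod (s.F c τ).length (p.u j)
  have h2 := Nat.mod_lt (s.F c τ).length (h.u_pos j)
  omega

theorem Zf_card (h : p.Ok) {s : State S T R} (hs : p.Inv s) : (p.Zf s.F).card ≤
    ∑ c ∈ range (p.bp p.q + 1), p.nt (p.lv c) * ((p.A c 3 + p.θ) * p.sz (p.lv c)) := by
  unfold Zf
  refine Finset.card_biUnion_le.trans (Finset.sum_le_sum fun c _ => ?_)
  refine (Finset.card_union_le _ _).trans ?_
  have h1 := zcard_dead h hs c (p.A c 3) fun τ _ => hs.cap c τ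
  have h2 := zcard_rich h hs c
  refine (Nat.add_le_add h1 h2).trans (le_of_eq ?_)
  ring

theorem card_diff (h : p.Ok) {s : State S T R} (hs : p.Inv s) {c : ℕ} (hc : c ≤ p.bp p.q) :
    (p.Zf s.F \ p.Z s.F c).card ≤
      ∑ c' ∈ range c, p.nt (p.lv c') * (p.u (p.lv c) * p.sz (p.lv c')) +
      p.nt (p.lv c) * (p.A c (p.sel s.F c (p.Jc s.F c)) * p.sz (p.lv c)) +
      ∑ c' ∈ Ioc c (p.bp p.q), p.nt (p.lv c') * (p.A c' 3 * p.sz (p.lv c')) +
      ∑ c' ∈ Icc c (p.bp p.q), p.nt (p.lv c') * (p.θ * p.sz (p.lv c')) := by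
  have _ := hc
  have hsub : p.Zf s.F \ p.Z s.F c ⊆
      (((range c).biUnion fun c' => (p.Dead s.F c').biUnion fun τ =>
        p.un ((s.F c' τ).drop (p.u (p.lv c) * ((s.F c' τ).length / p.u (p.lv c))))) ∪
      ((p.Dead s.F c).biUnion fun τ => p.un (s.F c τ)) ∪
      ((Ioc c (p.bp p.q)).biUnion fun c' => (p.Dead s.F c').biUnion fun τ =>
        p.un (s.F c' τ))) ∪
      ((Icc c (p.bp p.q)).biUnion fun c' => (p.Rich s.F c').biUnion fun τ =>
        p.pop (p.K s.F c') (s.F c' τ)) := by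
    intro z hz
    obtain ⟨hz1, hz2⟩ := Finset.mem_sdiff.1 hz
    unfold Zf at hz1
    obtain ⟨c', hc', hz1⟩ := Finset.mem_biUnion.1 hz1
    rw [Finset.mem_range] at hc'
    have hZ : c' < c → z ∉ p.zz s.F (p.lv c) c' := by
      intro h1 h2
      apply hz2
      unfold Z
      exact Finset.mem_biUnion.2 ⟨c', Finset.mem_range.2 h1, h2⟩
    rcases Finset.mem_union.1 hz1 with hz1 | hz1
    · obtain ⟨τ, hτ, hzτ⟩ := Finset.mem_biUnion.1 hz1
      rcases lt_trichotomy c' c with h1 | h1 | h1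
      · rcases Finset.mem_union.1 (un_sub_tr (p.lv c) _ hzτ) with h2 | h2
        · exact absurd (Finset.mem_union_left _ (Finset.mem_biUnion.2 ⟨τ, hτ, h2⟩)) (hZ h1)
        · apply Finset.mem_union_left
          apply Finset.mem_union_left
          apply Finset.mem_union_left
          exact Finset.mem_biUnion.2 ⟨c', Finset.mem_range.2 h1,
            Finset.mem_biUnion.2 ⟨τ, hτ, h2⟩⟩
      · subst h1
        apply Finset.mem_union_left
        apply Finset.mem_union_left
        apply Finset.mem_union_right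
        exact Finset.mem_biUnion.2 ⟨τ, hτ, hzτ⟩
      · apply Finset.mem_union_left
        apply Finset.mem_union_right
        exact Finset.mem_biUnion.2 ⟨c', Finset.mem_Ioc.2 ⟨h1, by omega⟩,
          Finset.mem_biUnion.2 ⟨τ, hτ, hzτ⟩⟩
    · rcases lt_or_ge c' c with h1 | h1
      · exact absurd (Finset.mem_union_right _ hz1) (hZ h1)
      · apply Finset.mem_union_right
        exact Finset.mem_biUnion.2 ⟨c', Finset.mem_Icc.2 ⟨h1, by omega⟩, hz1⟩
  refine (Finset.card_le_card hsub).trans ?_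
  refine (Finset.card_union_le _ _).trans (Nat.add_le_add ?_ ?_)
  · refine (Finset.card_union_le _ _).trans (Nat.add_le_add ?_ ?_)
    · refine (Finset.card_union_le _ _).trans (Nat.add_le_add ?_ ?_)
      · exact Finset.card_biUnion_le.trans
          (Finset.sum_le_sum fun c' _ => zcard_drop h hs c' (p.lv c))
      · exact zcard_dead h hs c _ fun τ hτ => (Dead_len h s.F hτ).1.le
    · exact Finset.card_biUnion_le.trans
        (Finset.sum_le_sum fun c' _ => zcard_dead h hs c' _ fun τ _ => hs.cap c' τ)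
  · exact Finset.card_biUnion_le.trans (Finset.sum_le_sum fun c' _ => zcard_rich h hs c')

end Par

end Pool.Agent.LibPP83
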